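import Mathlib

/-!
Ultrametric level functions on groups, and the weight of the tree of coset residues.
-/

set_option autoImplicit false
set_option linter.unusedSectionVars false

universe u v

namespace Pool.Agent.H799R3.UltraLevel

/-- A level function: an ultrametric length on a group with values in a well order. -/
structure LevelFn (G : Type u) [Group G] (J : Type v) [LinearOrder J] [OrderBot J] where
  lev : G → J
  lev_eq_bot : ∀ x, lev x = ⊥ ↔ x = 1
  lev_inv : ∀ x, lev x⁻¹ = lev x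
  lev_mul : ∀ x y, lev (x * y) ≤ max (lev x) (lev y)

namespace LevelFn

variable {G : Type u} [Group G] {J : Type v} [LinearOrder J] [OrderBot J] (ℓ : LevelFn G J)

lemma lev_one : ℓ.lev 1 = ⊥ := (ℓ.lev_eq_bot 1).2 rfl

lemma bot_lt {x : G} (hx : x ≠ 1) : ⊥ < ℓ.lev x :=
  bot_lt_iff_ne_bot.2 fun h => hx ((ℓ.lev_eq_bot x).1 h)

lemma lev_mul_of_lt {x y : G} (h : ℓ.lev x < ℓ.lev y) : ℓ.lev (x * y) = ℓ.lev y := by
  apply le_antisymm
  · exact (ℓ.lev_mul x y).trans (max_le h.le le_rfl)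
  · by_contra hlt
    push Not at hlt
    have h1 : ℓ.lev y ≤ max (ℓ.lev x⁻¹) (ℓ.lev (x * y)) := by
      have := ℓ.lev_mul x⁻¹ (x * y)
      rwa [inv_mul_cancel_left] at this
    rw [ℓ.lev_inv] at h1
    exact absurd h1 (not_le.2 (max_lt h hlt))

lemma lev_mul_of_gt {x y : G} (h : ℓ.lev y < ℓ.lev x) : ℓ.lev (x * y) = ℓ.lev x := by
  rw [← ℓ.lev_inv (x * y), mul_inv_rev, ← ℓ.lev_inv x]
  apply ℓ.lev_mul_of_lt
  rwa [ℓ.lev_inv, ℓ.lev_inv]

/-- Two elements are in the same left coset of the elements of smaller level. -/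
def rel : Setoid G where
  r x y := x = y ∨ ℓ.lev (x⁻¹ * y) < ℓ.lev x
  iseqv := by
    have key : ∀ x y : G, ℓ.lev (x⁻¹ * y) < ℓ.lev x → ℓ.lev y = ℓ.lev x := by
      intro x y h
      have := ℓ.lev_mul_of_gt (x := x) (y := x⁻¹ * y) h
      rwa [mul_inv_cancel_left] at this
    refine ⟨fun x => Or.inl rfl, ?_, ?_⟩
    · rintro x y (h | h)
      · exact Or.inl h.symm
      · right
        rw [key x y h, ← ℓ.lev_inv (y⁻¹ * x)]
        simpa using h
    · rintro x y z (h | h) (h' | h')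
      · exact Or.inl (h.trans h')
      · subst h; exact Or.inr h'
      · subst h'; exact Or.inr h
      · right
        have e : x⁻¹ * z = (x⁻¹ * y) * (y⁻¹ * z) := by group
        rw [e]
        refine (ℓ.lev_mul _ _).trans_lt (max_lt h ?_)
        rw [← key x y h]
        exact h'

/-- The representative of the left coset of `x`. -/
noncomputable def rep (x : G) : G := (Quotient.mk ℓ.rel x).out

lemma rep_rel (x : G) : ℓ.rep x = x ∨ ℓ.lev ((ℓ.rep x)⁻¹ * x) < ℓ.lev (ℓ.rep x) :=
  Quotient.exact (s := ℓ.rel) (Quotient.out_eq (Quotient.mk ℓ.rel x))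

/-- The left residue. -/
noncomputable def hL (x : G) : G := (ℓ.rep x)⁻¹ * x

/-- The right residue. -/
noncomputable def hR (x : G) : G := (ℓ.hL x⁻¹)⁻¹

lemma lev_hL_lt {x : G} (hx : x ≠ 1) : ℓ.lev (ℓ.hL x) < ℓ.lev x := by
  rcases ℓ.rep_rel x with h | h
  · rw [hL, h, inv_mul_cancel, lev_one]
    exact ℓ.bot_lt hx
  · have h2 : ℓ.lev x = ℓ.lev (ℓ.rep x) := by
      have := ℓ.lev_mul_of_gt (x := ℓ.rep x) (y := (ℓ.rep x)⁻¹ * x) h
      rwa [mul_inv_cancel_left] at this
    rw [h2]
    exact h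

lemma lev_hR_lt {x : G} (hx : x ≠ 1) : ℓ.lev (ℓ.hR x) < ℓ.lev x := by
  rw [hR, ℓ.lev_inv, ← ℓ.lev_inv x]
  exact ℓ.lev_hL_lt (by simpa using hx)

lemma hL_one : ℓ.hL 1 = 1 := by
  rcases ℓ.rep_rel 1 with h | h
  · rw [hL, h]; simp
  · rw [mul_one, ℓ.lev_inv] at h
    exact absurd h (lt_irrefl _)

lemma hR_one : ℓ.hR 1 = 1 := by
  rw [hR, inv_one, hL_one, inv_one]

/-- peeling on the left -/
lemma hL_mul {s g : G} (h : ℓ.lev g < ℓ.lev s) : ℓ.hL (s * g) = ℓ.hL s * g := by
  have h1 : (Quotient.mk ℓ.rel (s * g)) = Quotient.mk ℓ.rel s := by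
    apply Quotient.sound (s := ℓ.rel)
    apply ℓ.rel.symm
    right
    rw [inv_mul_cancel_left]
    exact h
  have h2 : ℓ.rep (s * g) = ℓ.rep s := by
    unfold rep
    rw [h1]
  rw [hL, hL, h2, mul_assoc]

/-- peeling on the right -/
lemma hR_mul {g x : G} (h : ℓ.lev g < ℓ.lev x) : ℓ.hR (g * x) = g * ℓ.hR x := by
  have h1 : ℓ.lev g⁻¹ < ℓ.lev x⁻¹ := by rwa [ℓ.lev_inv, ℓ.lev_inv]
  rw [hR, mul_inv_rev, ℓ.hL_mul h1, mul_inv_rev, inv_inv, hR]

open Classical in
/-- The largest weight of a level occurring in the tree of residues of `x`. -/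
noncomputable def wt [WellFoundedLT J] (w : J → ℕ) (x : G) : ℕ :=
  if h : x = 1 then 0 else
    max (w (ℓ.lev x) + 1) (max (wt w (ℓ.hL x)) (wt w (ℓ.hR x)))
termination_by (wellFounded_lt (α := J)).wrap (ℓ.lev x)
decreasing_by
  · exact ℓ.lev_hL_lt h
  · exact ℓ.lev_hR_lt h

variable [WellFoundedLT J]

lemma wt_one (w : J → ℕ) : ℓ.wt w 1 = 0 := by
  rw [wt]; simp

lemma le_wt_lev (w : J → ℕ) {x : G} (hx : x ≠ 1) : w (ℓ.lev x) + 1 ≤ ℓ.wt w x := by
  rw [wt, dif_neg hx]
  exact le_max_left _ _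

lemma wt_hL_le (w : J → ℕ) {x : G} (hx : x ≠ 1) : ℓ.wt w (ℓ.hL x) ≤ ℓ.wt w x := by
  conv_rhs => rw [wt, dif_neg hx]
  exact (le_max_left _ _).trans (le_max_right _ _)

lemma wt_hR_le (w : J → ℕ) {x : G} (hx : x ≠ 1) : ℓ.wt w (ℓ.hR x) ≤ ℓ.wt w x := by
  conv_rhs => rw [wt, dif_neg hx]
  exact (le_max_right _ _).trans (le_max_right _ _)

lemma wt_inv (w : J → ℕ) (x : G) : ℓ.wt w x⁻¹ = ℓ.wt w x := by
  have main : ∀ a : J, ∀ x : G, ℓ.lev x = a → ℓ.wt w x⁻¹ = ℓ.wt w x := by
    intro a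
    induction a using WellFoundedLT.induction with
    | ind a ih =>
      intro x hxa
      by_cases hx : x = 1
      · subst hx; simp
      · have hx' : x⁻¹ ≠ 1 := by simpa using hx
        rw [wt, dif_neg hx']
        conv_rhs => rw [wt, dif_neg hx]
        have e1 : ℓ.hL x⁻¹ = (ℓ.hR x)⁻¹ := by rw [hR, inv_inv]
        have e2 : ℓ.hR x⁻¹ = (ℓ.hL x)⁻¹ := by rw [hR, inv_inv]
        rw [e1, e2, ℓ.lev_inv, ih _ (hxa ▸ ℓ.lev_hR_lt hx) _ rfl,
          ih _ (hxa ▸ ℓ.lev_hL_lt hx) _ rfl]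
        rw [max_comm (ℓ.wt w (ℓ.hR x))]
  exact main _ x rfl

/-- The levels of the right residues of `x`. -/
def orb (x : G) : Set J := {a | ∃ i : ℕ, a = ℓ.lev (ℓ.hR^[i] x)}

lemma orb_eq (x : G) : ℓ.orb x = insert (ℓ.lev x) (ℓ.orb (ℓ.hR x)) := by
  ext a
  constructor
  · rintro ⟨i, rfl⟩
    cases i with
    | zero => left; rfl
    | succ i => right; exact ⟨i, by rw [Function.iterate_succ_apply]⟩
  · rintro (rfl | ⟨i, rfl⟩)
    · exact ⟨0, rfl⟩
    · exact ⟨i + 1, by rw [Function.iterate_succ_apply]⟩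

lemma orb_finite (x : G) : (ℓ.orb x).Finite := by
  have main : ∀ a : J, ∀ x : G, ℓ.lev x = a → (ℓ.orb x).Finite := by
    intro a
    induction a using WellFoundedLT.induction with
    | ind a ih =>
      intro x hxa
      by_cases hx : x = 1
      · subst hx
        have : ℓ.orb 1 = {⊥} := by
          ext b
          constructor
          · rintro ⟨i, rfl⟩
            have : ℓ.hR^[i] (1 : G) = 1 := Function.iterate_fixed ℓ.hR_one i
            rw [this, lev_one]; rfl
          · rintro rfl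
            exact ⟨0, ℓ.lev_one.symm⟩
        rw [this]
        exact Set.finite_singleton _
      · rw [ℓ.orb_eq]
        exact (ih _ (hxa ▸ ℓ.lev_hR_lt hx) _ rfl).insert _
  exact main _ x rfl

/-- The main claim. -/
lemma main (w : J → ℕ) {S : Set G} (hS : ∀ s ∈ S, ℓ.hL s ∈ S) {α : J}
    (hα : ∀ s ∈ S, ℓ.lev s ≠ α) {k : G} (hk : ℓ.lev k = α) (hk1 : k ≠ 1) :
    ∀ x : G, α ∉ ℓ.orb x → (∀ δ ∈ ℓ.orb x, α < δ → ∀ s ∈ S, ℓ.lev s ≠ δ) →
      ∀ s ∈ S, w α + 1 ≤ ℓ.wt w (s * k * x) := by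
  have outer : ∀ a : J, ∀ x : G, ℓ.lev x = a → α ∉ ℓ.orb x →
      (∀ δ ∈ ℓ.orb x, α < δ → ∀ s ∈ S, ℓ.lev s ≠ δ) →
      ∀ s ∈ S, w α + 1 ≤ ℓ.wt w (s * k * x) := by
    intro a
    induction a using WellFoundedLT.induction with
    | ind a ih =>
      intro x hxa hα1 hα2
      have inner : ∀ b : J, ∀ s ∈ S, ℓ.lev s = b → w α + 1 ≤ ℓ.wt w (s * k * x) := by
        intro b
        induction b using WellFoundedLT.induction with
        | ind b ihb =>
          intro s hs hsb
          have hxorb : ℓ.lev x ∈ ℓ.orb x := ⟨0, rfl⟩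
          have hxα : ℓ.lev x ≠ α := fun h => hα1 (h ▸ hxorb)
          have hkx1 : ∀ y : G, ℓ.lev y = α → y ≠ 1 := by
            rintro y hy rfl
            rw [lev_one] at hy
            exact hk1 ((ℓ.lev_eq_bot k).1 (hk.trans hy.symm))
          have hsα : ℓ.lev s ≠ α := hα s hs
          -- the step where `s` has the largest level
          have stepL : ℓ.lev (k * x) < ℓ.lev s → w α + 1 ≤ ℓ.wt w (s * k * x) := by
            intro h
            have hs1 : s ≠ 1 := by
              rintro rfl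
              rw [lev_one] at h
              exact not_lt_bot h
            have h1 : ℓ.lev (s * (k * x)) = ℓ.lev s := ℓ.lev_mul_of_gt h
            have h2 : s * (k * x) ≠ 1 := by
              intro h3
              rw [h3, lev_one] at h1
              exact hs1 ((ℓ.lev_eq_bot s).1 h1.symm)
            have h3 := ℓ.wt_hL_le w h2
            rw [ℓ.hL_mul h] at h3
            rw [mul_assoc]
            refine le_trans ?_ h3
            rw [← mul_assoc]
            exact ihb _ (hsb ▸ ℓ.lev_hL_lt hs1) _ (hS s hs) rfl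
          rcases lt_or_gt_of_ne hxα with hlt | hgt
          · -- `x` has level below `α`
            have h1 : ℓ.lev (k * x) = α := by
              rw [ℓ.lev_mul_of_gt (by rwa [hk]), hk]
            rcases lt_or_gt_of_ne hsα with h | h
            · have h2 : ℓ.lev (s * (k * x)) = α := by
                rw [ℓ.lev_mul_of_lt (by rwa [h1]), h1]
              have h3 := ℓ.le_wt_lev w (hkx1 _ h2)
              rw [h2, ← mul_assoc] at h3
              exact h3
            · exact stepL (by rwa [h1])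
          · -- `x` has level above `α`
            have h1 : ℓ.lev (k * x) = ℓ.lev x := ℓ.lev_mul_of_lt (by rwa [hk])
            have hx1 : x ≠ 1 := by
              rintro rfl
              rw [lev_one] at hgt
              exact not_lt_bot hgt
            rcases lt_or_gt_of_ne (hα2 _ hxorb hgt s hs) with h | h
            · have hskx : ℓ.lev (s * k) < ℓ.lev x :=
                (ℓ.lev_mul s k).trans_lt (max_lt h (by rwa [hk]))
              have h2 : ℓ.lev (s * k * x) = ℓ.lev x := ℓ.lev_mul_of_lt hskx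
              have h3 : s * k * x ≠ 1 := by
                intro h4
                rw [h4, lev_one] at h2
                exact hx1 ((ℓ.lev_eq_bot x).1 h2.symm)
              have h4 := ℓ.wt_hR_le w h3
              rw [ℓ.hR_mul hskx] at h4
              refine le_trans ?_ h4
              have ho := ℓ.orb_eq x
              refine ih _ (hxa ▸ ℓ.lev_hR_lt hx1) (ℓ.hR x) rfl ?_ ?_ s hs
              · intro h5
                exact hα1 (by rw [ho]; exact Or.inr h5)
              · intro δ hδ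
                exact hα2 δ (by rw [ho]; exact Or.inr hδ)
            · exact stepL (by rwa [h1])
      intro s hs
      exact inner _ s hs rfl
  intro x
  exact outer _ x rfl

end LevelFn

end Pool.Agent.H799R3.UltraLevel
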