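import Mathlib
import Pool.Agent.H799R3.UltraLevel

/-!
Every infinite group `G` is a countable union of disjoint `|G|`-small sets.
-/

set_option autoImplicit false
set_option linter.unusedSectionVars false

universe u

namespace Pool.Agent.H799R3.SmallPart

open Cardinal Set Pool.Agent.H799R3.UltraLevel

lemma mk_closure_le {G : Type u} [Group G] (S : Set G) :
    #(Subgroup.closure S) ≤ max #S ℵ₀ := by
  have h1 : #(Subgroup.closure S) ≤ #(FreeGroup S) := by
    have hr : (FreeGroup.lift (fun s : S => (s : G))).range = Subgroup.closure S := by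
      rw [FreeGroup.range_lift_eq_closure]
      simp
    rw [← hr]
    exact mk_le_of_surjective (MonoidHom.rangeRestrict_surjective _)
  have h2 : #(FreeGroup S) ≤ #(List (S × Bool)) := mk_le_of_surjective Quot.mk_surjective
  have h3 : #(List (S × Bool)) ≤ max ℵ₀ #(S × Bool) := mk_list_le_max _
  refine h1.trans (h2.trans (h3.trans ?_))
  rw [mk_prod]
  simp only [lift_uzero, mk_bool]
  refine max_le (le_max_right _ _) ?_
  refine (mul_le_max _ _).trans ?_
  refine max_le (max_le (le_max_left _ _) ?_) (le_max_right _ _)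
  exact le_trans (by simpa using (nat_lt_aleph0 2).le) (le_max_right _ _)

lemma exists_levelFn (G : Type u) [Group G] (hG : ℵ₀ < #G) :
    ∃ (J : Type u) (_ : LinearOrder J) (_ : OrderBot J) (_ : WellFoundedLT J)
      (ℓ : LevelFn G J), #(Set.range ℓ.lev) = #G ∧
        ∀ a : J, #(Set.range ℓ.lev ∩ Set.Iic a : Set J) < #G := by
  classical
  obtain ⟨lo, wf, hord⟩ := exists_ord_eq_type_lt G
  have hne : ∀ x : G, ({i : G | x ∈ Subgroup.closure (Iic i)} : Set G).Nonempty :=
    fun x => ⟨x, Subgroup.subset_closure (le_refl x)⟩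
  let lv : G → WithBot G := fun x => if x = 1 then ⊥ else
    ((wf.wf.min {i : G | x ∈ Subgroup.closure (Iic i)} (hne x) : G) : WithBot G)
  have lv1 : lv 1 = ⊥ := if_pos rfl
  have hle : ∀ (x i : G), lv x ≤ (i : WithBot G) ↔ x ∈ Subgroup.closure (Iic i) := by
    intro x i
    by_cases hx : x = 1
    · subst hx
      rw [lv1]
      exact ⟨fun _ => Subgroup.one_mem _, fun _ => bot_le⟩
    · have h1 : lv x = ((wf.wf.min {i : G | x ∈ Subgroup.closure (Iic i)} (hne x) : G) :
          WithBot G) := if_neg hx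
      rw [h1, WithBot.coe_le_coe]
      constructor
      · intro h
        have h2 := wf.wf.min_mem {i : G | x ∈ Subgroup.closure (Iic i)} (hne x)
        exact Subgroup.closure_mono (Iic_subset_Iic.2 h) h2
      · intro h
        exact not_lt.1 (wf.wf.not_lt_min {i : G | x ∈ Subgroup.closure (Iic i)} h)
  have hbot : ∀ x, lv x = ⊥ ↔ x = 1 := by
    intro x
    constructor
    · intro h
      by_contra hx
      have h1 : lv x = ((wf.wf.min {i : G | x ∈ Subgroup.closure (Iic i)} (hne x) : G) :
          WithBot G) := if_neg hx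
      rw [h] at h1
      exact WithBot.bot_ne_coe h1
    · rintro rfl
      exact lv1
  have hext : ∀ x y : G, (∀ i : G, lv x ≤ (i : WithBot G) → lv y ≤ (i : WithBot G)) →
      (x = 1 → y = 1) → lv y ≤ lv x := by
    intro x y h h'
    rcases hx : lv x with _ | i
    · have := (hbot x).1 hx
      rw [h' this, lv1]
      exact bot_le
    · exact h i hx.le
  let ℓ : LevelFn G (WithBot G) :=
    { lev := lv
      lev_eq_bot := hbot
      lev_inv := by
        have : ∀ x, lv x⁻¹ ≤ lv x := by
          intro x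
          apply hext
          · intro i h
            rw [hle] at h ⊢
            exact Subgroup.inv_mem _ h
          · rintro rfl
            exact inv_one
        intro x
        apply le_antisymm (this x)
        have h2 := this x⁻¹
        rwa [inv_inv] at h2
      lev_mul := by
        intro x y
        rcases hm : max (lv x) (lv y) with _ | i
        · have h1 : lv x = ⊥ := le_bot_iff.1 ((le_max_left _ _).trans_eq hm)
          have h2 : lv y = ⊥ := le_bot_iff.1 ((le_max_right _ _).trans_eq hm)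
          rw [(hbot x).1 h1, (hbot y).1 h2, mul_one, lv1]
          exact bot_le
        · have h1 : lv x ≤ (i : WithBot G) := (le_max_left _ _).trans_eq hm
          have h2 : lv y ≤ (i : WithBot G) := (le_max_right _ _).trans_eq hm
          change lv (x * y) ≤ (i : WithBot G)
          rw [hle] at h1 h2 ⊢
          exact Subgroup.mul_mem _ h1 h2 }
  have hiic : ∀ i : G, #(Iic i) < #G := fun i => mk_Iic_lt i hord hG.le
  refine ⟨WithBot G, inferInstance, inferInstance, inferInstance, ℓ, ?_, ?_⟩
  · apply le_antisymm mk_range_le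
    by_contra hlt
    push Not at hlt
    -- the closure of the elements that are levels
    let R : Set G := {i : G | (i : WithBot G) ∈ Set.range lv}
    have hR : #R < #G := by
      refine lt_of_le_of_lt ?_ hlt
      refine mk_le_of_injective (f := fun r : R => (⟨((r : G) : WithBot G), r.2⟩ :
        Set.range lv)) ?_
      intro a b hab
      have := congrArg Subtype.val hab
      exact Subtype.ext (WithBot.coe_injective this)
    have hall : ∀ i : G, i ∈ Subgroup.closure R := by
      intro i
      induction i using wf.wf.induction with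
      | _ i ih =>
        have hii : lv i ≤ (i : WithBot G) := (hle i i).2 (Subgroup.subset_closure (le_refl i))
        rcases hx : lv i with _ | j
        · rw [(hbot i).1 hx]
          exact Subgroup.one_mem _
        · have hji : (j : WithBot G) ≤ (i : WithBot G) := by
            have : lv i = (j : WithBot G) := hx
            rw [← this]; exact hii
          rw [WithBot.coe_le_coe] at hji
          rcases hji.lt_or_eq with h | h
          · have h1 : i ∈ Subgroup.closure (Iic j) := (hle i j).1 hx.le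
            have h2 : (Iic j : Set G) ⊆ Subgroup.closure R := by
              intro k hk
              exact ih k (lt_of_le_of_lt hk h)
            exact (Subgroup.closure_le _).2 h2 h1
          · subst h
            exact Subgroup.subset_closure ⟨j, hx⟩
    have htop : Subgroup.closure R = ⊤ := by
      rw [eq_top_iff]
      intro i _
      exact hall i
    have h3 := mk_closure_le R
    rw [htop] at h3
    have h4 : #(⊤ : Subgroup G) = #G := mk_congr Subgroup.topEquiv.toEquiv
    rw [h4] at h3
    exact absurd h3 (not_le.2 (max_lt hR hG))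
  · intro a
    refine lt_of_le_of_lt (mk_le_mk_of_subset Set.inter_subset_right) ?_
    rcases a with _ | i
    · have : (Iic (⊥ : WithBot G)) = {⊥} := Iic_bot
      change #(Iic (⊥ : WithBot G)) < #G
      rw [this, mk_singleton]
      exact one_lt_aleph0.trans hG
    · change #(Iic (i : WithBot G)) < #G
      have h1 : (Iic (i : WithBot G)) ⊆ insert ⊥ ((fun j : G => (j : WithBot G)) '' Iic i) := by
        intro b hb
        rcases b with _ | j
        · exact Or.inl rfl
        · right
          exact ⟨j, WithBot.coe_le_coe.1 hb, rfl⟩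
      refine lt_of_le_of_lt (mk_le_mk_of_subset h1) ?_
      refine lt_of_le_of_lt mk_insert_le ?_
      exact add_lt_of_lt hG.le (lt_of_le_of_lt mk_image_le (hiic i)) (one_lt_aleph0.trans hG)

/-- The colouring property from which smallness follows. -/
def Good {G : Type u} [Group G] (f : G → ℕ) : Prop :=
  ∀ (n : ℕ) (T : Set G), #T < #G → ∃ K : Set G, #K < #G ∧
    ∀ x : G, ∃ k ∈ K, ∀ t ∈ T, f (t * k * x) ≠ n

lemma exists_good_uncountable (G : Type u) [Group G] (hG : ℵ₀ < #G) :
    ∃ f : G → ℕ, Good f ∧ ∀ x, f x⁻¹ = f x := by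
  classical
  obtain ⟨J, _, _, _, ℓ, hrange, hsmall⟩ := exists_levelFn G hG
  -- weights on the levels
  have hIinf : Infinite (Set.range ℓ.lev) := by
    rw [Cardinal.infinite_iff, hrange]; exact hG.le
  obtain ⟨e⟩ : Nonempty (Set.range ℓ.lev ≃ Set.range ℓ.lev × ℕ) := by
    rw [← Cardinal.eq, mk_prod, mk_nat]
    simp only [lift_uzero, lift_aleph0]
    rw [hrange, mul_aleph0_eq hG.le]
  let w : J → ℕ := fun a => if h : a ∈ Set.range ℓ.lev then (e ⟨a, h⟩).2 else 0
  have hB : ∀ n : ℕ, #{a : J | a ∈ Set.range ℓ.lev ∧ w a = n} = #G := by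
    intro n
    apply le_antisymm
    · rw [← hrange]
      exact mk_le_mk_of_subset fun a ha => ha.1
    · rw [← hrange]
      refine mk_le_of_injective (f := fun r : Set.range ℓ.lev =>
        (⟨(e.symm (r, n)).1, (e.symm (r, n)).2, ?_⟩ :
          {a : J | a ∈ Set.range ℓ.lev ∧ w a = n})) ?_
      · have h1 : ((e.symm (r, n)).1 : J) ∈ Set.range ℓ.lev := (e.symm (r, n)).2
        change (if h : ((e.symm (r, n)).1 : J) ∈ Set.range ℓ.lev then _ else 0) = n
        rw [dif_pos h1]
        simp
      · intro a b hab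
        have h1 := congrArg Subtype.val hab
        have h2 : e.symm (a, n) = e.symm (b, n) := Subtype.ext h1
        have h3 := e.symm.injective h2
        exact (Prod.mk.inj h3).1
  refine ⟨ℓ.wt w, ?_, ℓ.wt_inv w⟩
  intro n T hT
  -- close `T` under the left residue
  let S : Set G := Set.range fun p : (insert (1 : G) T : Set G) × ℕ => ℓ.hL^[p.2] (p.1 : G)
  have hins : #(insert (1 : G) T : Set G) < #G :=
    lt_of_le_of_lt mk_insert_le (add_lt_of_lt hG.le hT (one_lt_aleph0.trans hG))
  have hS : #S < #G := by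
    refine lt_of_le_of_lt mk_range_le ?_
    rw [mk_prod]
    simp only [lift_uzero, mk_nat, lift_aleph0]
    exact mul_lt_of_lt hG.le hins hG
  have hSL : ∀ s ∈ S, ℓ.hL s ∈ S := by
    rintro s ⟨⟨t, i⟩, rfl⟩
    exact ⟨⟨t, i + 1⟩, by simp only [Function.iterate_succ_apply']⟩
  have hTS : ∀ t ∈ T, t ∈ S := fun t ht => ⟨⟨⟨t, Or.inr ht⟩, 0⟩, rfl⟩
  have h1S : (1 : G) ∈ S := ⟨⟨⟨1, Or.inl rfl⟩, 0⟩, rfl⟩
  -- candidates for the new level
  have hcand : ∀ s : S, Set.Infinite
      ({a : J | a ∈ Set.range ℓ.lev ∧ w a = n} \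
        ((ℓ.lev '' S) ∪ (Set.range ℓ.lev ∩ Set.Iic (ℓ.lev s)) ∪ {⊥})) := by
    intro s hfin
    have h1 : #((ℓ.lev '' S) ∪ (Set.range ℓ.lev ∩ Set.Iic (ℓ.lev s)) ∪ {⊥} : Set J) < #G := by
      refine lt_of_le_of_lt (mk_union_le _ _) (add_lt_of_lt hG.le ?_ ?_)
      · refine lt_of_le_of_lt (mk_union_le _ _) (add_lt_of_lt hG.le ?_ (hsmall _))
        exact lt_of_le_of_lt mk_image_le hS
      · rw [mk_singleton]
        exact one_lt_aleph0.trans hG
    have h2 : {a : J | a ∈ Set.range ℓ.lev ∧ w a = n} ⊆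
        ({a : J | a ∈ Set.range ℓ.lev ∧ w a = n} \
        ((ℓ.lev '' S) ∪ (Set.range ℓ.lev ∩ Set.Iic (ℓ.lev s)) ∪ {⊥})) ∪
        ((ℓ.lev '' S) ∪ (Set.range ℓ.lev ∩ Set.Iic (ℓ.lev s)) ∪ {⊥}) := by
      intro a ha
      by_cases h : a ∈ ((ℓ.lev '' S) ∪ (Set.range ℓ.lev ∩ Set.Iic (ℓ.lev s)) ∪ {⊥})
      · exact Or.inr h
      · exact Or.inl ⟨ha, h⟩
    have h3 := (mk_le_mk_of_subset h2).trans (mk_union_le _ _)
    rw [hB n] at h3
    exact absurd h3 (not_le.2 (add_lt_of_lt hG.le ((hfin.lt_aleph0).trans hG) h1))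
  choose c hcinj hc using fun s : S => ⟨(hcand s).natEmbedding _ |> fun g => fun i => (g i : J),
    fun i j h => ((hcand s).natEmbedding _).injective (Subtype.ext h),
    fun i => ((hcand s).natEmbedding _ i).2⟩ |> fun (h : ∃ c : ℕ → J, Function.Injective c ∧
      ∀ i, c i ∈ ({a : J | a ∈ Set.range ℓ.lev ∧ w a = n} \
        ((ℓ.lev '' S) ∪ (Set.range ℓ.lev ∩ Set.Iic (ℓ.lev s)) ∪ {⊥}))) => h
  choose k hk using fun (s : S) (i : ℕ) => (hc s i).1.1
  refine ⟨Set.range fun p : S × ℕ => k p.1 p.2, ?_, ?_⟩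
  · refine lt_of_le_of_lt mk_range_le ?_
    rw [mk_prod]
    simp only [lift_uzero, mk_nat, lift_aleph0]
    exact mul_lt_of_lt hG.le hS hG
  · intro x
    -- the largest level of the orbit of `x` that is a level of `S`
    have hfin : (insert ⊥ (ℓ.orb x ∩ (ℓ.lev '' S))).Finite :=
      ((ℓ.orb_finite x).subset Set.inter_subset_left).insert _
    obtain ⟨ξ, hξ, hmax⟩ := Set.exists_max_image _ id hfin ⟨⊥, Or.inl rfl⟩
    have hξS : ∃ s : S, ℓ.lev s = ξ := by
      rcases hξ with rfl | ⟨_, s, hs, rfl⟩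
      · exact ⟨⟨1, h1S⟩, ℓ.lev_one⟩
      · exact ⟨⟨s, hs⟩, rfl⟩
    obtain ⟨s₀, hs₀⟩ := hξS
    obtain ⟨i, hi⟩ : ∃ i, c s₀ i ∉ ℓ.orb x := by
      by_contra hcon
      push Not at hcon
      exact Set.infinite_of_injective_forall_mem (hcinj s₀) hcon (ℓ.orb_finite x)
    refine ⟨k s₀ i, ⟨⟨s₀, i⟩, rfl⟩, ?_⟩
    intro t ht
    obtain ⟨⟨hr, hw⟩, hnot⟩ := hc s₀ i
    have hα : ∀ s ∈ S, ℓ.lev s ≠ c s₀ i := fun s hs h =>
      hnot (Or.inl (Or.inl ⟨s, hs, h⟩))
    have hgt : ℓ.lev s₀ < c s₀ i := by
      by_contra h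
      exact hnot (Or.inl (Or.inr ⟨hr, not_lt.1 h⟩))
    have hk1 : k s₀ i ≠ 1 := by
      intro h
      have h2 := hk s₀ i
      rw [h, ℓ.lev_one] at h2
      exact hnot (Or.inr h2.symm)
    have hmain := ℓ.main w hSL hα (hk s₀ i) hk1 x hi ?_ t (hTS t ht)
    · rw [hw] at hmain
      omega
    · intro δ hδ hlt s hs hsδ
      have h3 : δ ≤ ξ := hmax δ (Or.inr ⟨hδ, s, hs, hsδ⟩)
      rw [← hs₀] at h3
      exact absurd (hgt.trans hlt) (not_lt.2 h3)

end Pool.Agent.H799R3.SmallPart
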