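import Pool.Agent.H799R3.UniKey2

namespace H799Uni

open Polynomial IsDedekindDomain UniqueFactorizationMonoid

section Hom

variable {K L : Type*} [Field K] [Field L] (φ : K →+* L) {d : ℕ} {c x y : K}

theorem iter_hom (n : ℕ) (z : K) : (uni d (φ c))^[n] (φ z) = φ ((uni d c)^[n] z) := by
  induction n with
  | zero => rfl
  | succ n ih =>
    rw [Function.iterate_succ_apply', Function.iterate_succ_apply', ih]
    unfold uni
    rw [map_add, map_pow]

theorem FinOrb.hom (h : FinOrb (uni d c) x) : FinOrb (uni d (φ c)) (φ x) := by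
  refine (h.image φ).subset ?_
  rintro _ ⟨n, rfl⟩
  exact ⟨_, ⟨n, rfl⟩, (iter_hom φ n x).symm⟩

theorem FinOrb.of_hom (h : FinOrb (uni d (φ c)) (φ x)) : FinOrb (uni d c) x := by
  refine Set.Finite.of_finite_image (f := φ) ?_ φ.injective.injOn
  refine h.subset ?_
  rintro _ ⟨_, ⟨n, rfl⟩, rfl⟩
  exact ⟨n, iter_hom φ n x⟩

theorem NM.of_hom (h : NM (uni d (φ c)) (φ x) (φ y)) : NM (uni d c) x y := by
  intro n hn
  apply h n
  rw [iter_hom, iter_hom, hn]

end Hom

section PolyHom

variable {k L : Type*} [Field k] [Field L]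

/-- the extension of an injective homomorphism of polynomial rings to the fraction fields -/
noncomputable def ext (g : k[X] →+* L[X]) (hg : Function.Injective g) : RatFunc k →+* RatFunc L :=
  RatFunc.mapRingHom g (nonZeroDivisors_le_comap_nonZeroDivisors_of_injective g hg)

theorem ext_div (g : k[X] →+* L[X]) (hg : Function.Injective g) (N D : k[X]) :
    ext g hg (algebraMap k[X] (RatFunc k) N / algebraMap k[X] (RatFunc k) D) =
      algebraMap L[X] (RatFunc L) (g N) / algebraMap L[X] (RatFunc L) (g D) := by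
  unfold ext
  rw [RatFunc.coe_mapRingHom_eq_coe_map]
  exact RatFunc.map_apply_div g _ N D

theorem ext_poly (g : k[X] →+* L[X]) (hg : Function.Injective g) (N : k[X]) :
    ext g hg (algebraMap k[X] (RatFunc k) N) = algebraMap L[X] (RatFunc L) (g N) := by
  have := ext_div g hg N 1
  simpa using this

end PolyHom

variable {k : Type*} [Field k]

theorem const_of {d : ℕ} (hd : 2 ≤ d) {c x : RatFunc k} (hx : FinOrb (uni d c) x)
    (hm : x.num.natDegree + x.denom.natDegree = 0) : ∃ a : k, c = RatFunc.C a := by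
  classical
  have hxc : ∃ a : k, x = algebraMap k[X] (RatFunc k) (C a) := by
    obtain ⟨a, ha⟩ := Polynomial.natDegree_eq_zero.mp (show x.num.natDegree = 0 by omega)
    have hb : x.denom = 1 :=
      (Polynomial.Monic.natDegree_eq_zero x.monic_denom).mp (show x.denom.natDegree = 0 by omega)
    refine ⟨a, ?_⟩
    conv_lhs => rw [← x.num_div_denom, ← ha, hb, map_one, div_one]
  obtain ⟨a, rfl⟩ := hxc
  have h1 : ∀ v : HeightOneSpectrum k[X], v.valuation (RatFunc k) c ≤ 1 := by
    intro v
    by_contra h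
    push Not at h
    exact absurd (one_lt_val _ hd h hx) (not_lt.mpr (val_poly_le v _))
  obtain ⟨P, hP⟩ := HeightOneSpectrum.mem_integers_of_valuation_le_one (R := k[X]) (RatFunc k) c h1
  have h2 : RatFunc.inftyValuation k c ≤ 1 := by
    by_contra h
    push Not at h
    have h3 := one_lt_val _ hd h hx
    rcases eq_or_ne a 0 with rfl | ha
    · simp at h3
    · have := RatFunc.inftyValuation.C k ha
      rw [RatFunc.algebraMap_C] at h3
      rw [this] at h3
      exact absurd h3 (lt_irrefl _)
  rcases eq_or_ne P 0 with rfl | hP0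
  · refine ⟨0, ?_⟩
    rw [← hP]
    simp
  · rw [← hP, infty_poly hP0] at h2
    have h3 : ((P.natDegree : ℕ) : ℤ) ≤ 0 := by
      rw [← WithZero.exp_zero, WithZero.exp_le_exp] at h2
      exact h2
    obtain ⟨b, hb⟩ := Polynomial.natDegree_eq_zero.mp (show P.natDegree = 0 by omega)
    refine ⟨b, ?_⟩
    rw [← hP, ← hb, RatFunc.algebraMap_C]

section Desc

variable {p s e d : ℕ} [Fact p.Prime] [CharP k p]

theorem deriv_w (hs : 1 ≤ s) (he : 1 ≤ e) (hde : d = p ^ s * e) {c x y : RatFunc k}
    {w X Y : k[X]} {η₀ η₁ η₂ : k} (hw : Den d c w)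
    (hη₀ : η₀ ^ e = 1) (hη₁ : η₁ ^ e = 1) (hη₂ : η₂ ^ e = 1)
    (h01 : η₀ ≠ η₁) (h12 : η₁ ≠ η₂) (h02 : η₀ ≠ η₂)
    (hx : FinOrb (uni d c) x) (hy : FinOrb (uni d c) y) (hnm : NM (uni d c) x y)
    (hX : algebraMap k[X] (RatFunc k) X = algebraMap k[X] (RatFunc k) w * x)
    (hY : algebraMap k[X] (RatFunc k) Y = algebraMap k[X] (RatFunc k) w * y) :
    derivative w = 0 := by
  have hd := two_le_d (p := p) hs he hde
  obtain ⟨kX, kY⟩ := key hs he hde hw hη₀ hη₁ hη₂ h01 h12 h02 hx hy hnm hX hY
  obtain ⟨X1, hX1⟩ := hw.mul hd hx.map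
  obtain ⟨Y1, hY1⟩ := hw.mul hd hy.map
  obtain ⟨kX1, kY1⟩ := key hs he hde hw hη₀ hη₁ hη₂ h01 h12 h02 hx.map hy.map hnm.map hX1 hY1
  have hrel : (X1 - Y1) * w ^ (d - 1) = X ^ d - Y ^ d := by
    apply RatFunc.algebraMap_injective k
    rw [map_mul, map_sub, map_sub, map_pow, map_pow, map_pow, hX, hY, hX1, hY1]
    unfold uni
    have : d = (d - 1) + 1 := by omega
    generalize hW : algebraMap k[X] (RatFunc k) w = W
    have e1 : (W * x) ^ d = W * W ^ (d - 1) * x ^ d := by
      rw [mul_pow]
      conv_lhs => rw [this, pow_succ, ← this]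
      ring
    have e2 : (W * y) ^ d = W * W ^ (d - 1) * y ^ d := by
      rw [mul_pow]
      conv_lhs => rw [this, pow_succ, ← this]
      ring
    rw [e1, e2]
    ring
  have hne : X1 - Y1 ≠ 0 := by
    intro h0
    have h1 := hnm 1
    simp only [Function.iterate_one] at h1
    have h2 : algebraMap k[X] (RatFunc k) w * (uni d c x - uni d c y) = 0 := by
      rw [mul_sub, ← hX1, ← hY1, ← map_sub, h0, map_zero]
    rcases mul_eq_zero.mp h2 with h | h
    · exact RatFunc.algebraMap_ne_zero hw.ne h
    · exact h1 (sub_eq_zero.mp h)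
  have hder := congrArg derivative hrel
  rw [derivative_mul, derivative_sub, kX1, kY1, sub_zero, zero_mul, zero_add, derivative_sub,
    derivative_pow (p := X), derivative_pow (p := Y), kX, kY, mul_zero, mul_zero, sub_zero] at hder
  have h3 := (mul_eq_zero.mp hder).resolve_left hne
  have hcast : ((d - 1 : ℕ) : k) ≠ 0 := by
    rw [Nat.cast_sub (by omega), Nat.cast_one]
    have : ((d : ℕ) : k) = 0 := by
      rw [CharP.cast_eq_zero_iff k p, hde]
      exact (dvd_pow_self p (by omega)).mul_right e
    rw [this, zero_sub]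
    exact neg_ne_zero.mpr one_ne_zero
  exact (derivative_pow_eq_zero hcast).mp h3

theorem expand_inj' : Function.Injective ((expand k p : k[X] →ₐ[k] k[X]) : k[X] →+* k[X]) := by
  intro a b h
  exact expand_injective (Fact.out : p.Prime).pos h

/-- the main descent: a pair of points with finite orbits which never meet forces `c` constant -/
theorem no_nm (hs : 1 ≤ s) (he : 1 ≤ e) (hde : d = p ^ s * e)
    {η₀ η₁ η₂ : k}
    (hη₀ : η₀ ^ e = 1) (hη₁ : η₁ ^ e = 1) (hη₂ : η₂ ^ e = 1)
    (h01 : η₀ ≠ η₁) (h12 : η₁ ≠ η₂) (h02 : η₀ ≠ η₂) :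
    ∀ (n : ℕ) (c x y : RatFunc k), x.num.natDegree + x.denom.natDegree ≤ n →
      FinOrb (uni d c) x → FinOrb (uni d c) y → NM (uni d c) x y → ∃ a : k, c = RatFunc.C a := by
  intro n
  induction n using Nat.strong_induction_on with
  | _ n ih =>
    intro c x y hm hx hy hnm
    have hd := two_le_d (p := p) hs he hde
    have hp := (Fact.out : p.Prime)
    rcases Nat.eq_zero_or_pos (x.num.natDegree + x.denom.natDegree) with h0 | hpos
    · exact const_of hd hx h0
    set φ := ext ((expand k p : k[X] →ₐ[k] k[X]) : k[X] →+* k[X]) (expand_inj' (k := k) (p := p))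
      with hφ
    have hw := den_denom hd hx
    obtain ⟨X, hX⟩ := hw.mul hd hx
    obtain ⟨Y, hY⟩ := hw.mul hd hy
    obtain ⟨X1, hX1⟩ := hw.mul hd hx.map
    obtain ⟨Y1, hY1⟩ := hw.mul hd hy.map
    obtain ⟨kX, kY⟩ := key hs he hde hw hη₀ hη₁ hη₂ h01 h12 h02 hx hy hnm hX hY
    obtain ⟨kX1, -⟩ := key hs he hde hw hη₀ hη₁ hη₂ h01 h12 h02 hx.map hy.map hnm.map hX1 hY1
    have kw := deriv_w hs he hde hw hη₀ hη₁ hη₂ h01 h12 h02 hx hy hnm hX hY
    have pull : ∀ (z : RatFunc k) (Z : k[X]), derivative Z = 0 →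
        algebraMap k[X] (RatFunc k) Z = algebraMap k[X] (RatFunc k) x.denom * z →
        z = φ (algebraMap k[X] (RatFunc k) (contract p Z) /
          algebraMap k[X] (RatFunc k) (contract p x.denom)) := by
      intro z Z hZ hz
      rw [hφ, ext_div]
      have e1 : ((expand k p : k[X] →ₐ[k] k[X]) : k[X] →+* k[X]) (contract p Z) = Z :=
        expand_contract p hZ hp.ne_zero
      have e2 : ((expand k p : k[X] →ₐ[k] k[X]) : k[X] →+* k[X]) (contract p x.denom) = x.denom :=
        expand_contract p kw hp.ne_zero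
      rw [e1, e2, hz, mul_comm, mul_div_assoc, div_self (RatFunc.algebraMap_ne_zero hw.ne), mul_one]
    have px := pull x X kX hX
    have py := pull y Y kY hY
    have pf := pull (uni d c x) X1 kX1 hX1
    set x' := algebraMap k[X] (RatFunc k) (contract p X) /
      algebraMap k[X] (RatFunc k) (contract p x.denom) with hx'
    set y' := algebraMap k[X] (RatFunc k) (contract p Y) /
      algebraMap k[X] (RatFunc k) (contract p x.denom) with hy'
    set z' := algebraMap k[X] (RatFunc k) (contract p X1) /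
      algebraMap k[X] (RatFunc k) (contract p x.denom) with hz'
    have pc : c = φ (z' - x' ^ d) := by
      rw [map_sub, map_pow, ← pf, ← px]
      unfold uni
      ring
    have hX' : X = x.num := by
      apply RatFunc.algebraMap_injective k
      rw [hX]
      conv_lhs => rw [← x.num_div_denom]
      rw [mul_div_assoc', RatFunc.num_div_denom, mul_comm, mul_div_assoc,
        div_self (RatFunc.algebraMap_ne_zero hw.ne), mul_one]
    have degX : x.num.natDegree = (contract p X).natDegree * p := by
      rw [← hX', ← natDegree_expand, expand_contract p kX hp.ne_zero]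
    have degw : x.denom.natDegree = (contract p x.denom).natDegree * p := by
      rw [← natDegree_expand, expand_contract p kw hp.ne_zero]
    have hcw : contract p x.denom ≠ 0 := by
      intro h
      have := expand_contract p kw hp.ne_zero
      rw [h, map_zero] at this
      exact hw.ne this.symm
    have dn : x'.num.natDegree ≤ (contract p X).natDegree := by
      rcases eq_or_ne (contract p X) 0 with h | h
      · rw [hx', h]
        simp
      · exact natDegree_le_of_dvd (RatFunc.num_div_dvd _ hcw) h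
    have dd : x'.denom.natDegree ≤ (contract p x.denom).natDegree :=
      natDegree_le_of_dvd (RatFunc.denom_div_dvd _ _) hcw
    have hlt : x'.num.natDegree + x'.denom.natDegree < n := by
      have h2 := hp.two_le
      have h3 : (contract p X).natDegree * 2 ≤ (contract p X).natDegree * p :=
        Nat.mul_le_mul_left _ h2
      have h4 : (contract p x.denom).natDegree * 2 ≤ (contract p x.denom).natDegree * p :=
        Nat.mul_le_mul_left _ h2
      omega
    have hx2 : FinOrb (uni d (φ (z' - x' ^ d))) (φ x') := by rw [← pc, ← px]; exact hx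
    have hy2 : FinOrb (uni d (φ (z' - x' ^ d))) (φ y') := by rw [← pc, ← py]; exact hy
    have hnm2 : NM (uni d (φ (z' - x' ^ d))) (φ x') (φ y') := by
      rw [← pc, ← px, ← py]; exact hnm
    obtain ⟨a, ha⟩ := ih _ hlt (z' - x' ^ d) x' y' le_rfl (FinOrb.of_hom φ hx2)
      (FinOrb.of_hom φ hy2) (NM.of_hom φ hnm2)
    refine ⟨a, ?_⟩
    rw [pc, ha, hφ, ← RatFunc.algebraMap_C, ext_poly]
    congr 1
    exact expand_C p a

end Desc

end H799Uni
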