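import Pool.Agent.H799R3.UniVal

namespace H799Uni

open Polynomial IsDedekindDomain

section Root

variable {K : Type*} [Field K] {d : ℕ} {c x y η : K}

theorem uni_root (hη : η ^ d = 1) : uni d c (η * y) = uni d c y := by
  unfold uni
  rw [mul_pow, hη, one_mul]

theorem iter_root (hη : η ^ d = 1) (n : ℕ) :
    (uni d c)^[n + 1] (η * y) = (uni d c)^[n + 1] y := by
  rw [Function.iterate_succ_apply, Function.iterate_succ_apply, uni_root hη]

theorem FinOrb.root (hη : η ^ d = 1) (hy : FinOrb (uni d c) y) : FinOrb (uni d c) (η * y) := by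
  refine (hy.insert (η * y)).subset ?_
  rintro _ ⟨n, rfl⟩
  cases n with
  | zero => exact Or.inl rfl
  | succ n => exact Or.inr ⟨n + 1, (iter_root hη n).symm⟩

theorem NM.root (hη : η ^ d = 1) (h : NM (uni d c) x y) : NM (uni d c) x (η * y) := by
  intro n
  cases n with
  | zero =>
    intro hxy
    simp only [Function.iterate_zero, id] at hxy
    apply h 1
    simp only [Function.iterate_one]
    rw [hxy, uni_root hη]
  | succ n => rw [iter_root hη]; exact h (n + 1)

end Root

variable {k : Type*} [Field k]

/-- the place attached to a prime polynomial -/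
noncomputable def place (P : k[X]) (hP : Prime P) : HeightOneSpectrum k[X] :=
  ⟨Ideal.span {P}, (Ideal.span_singleton_prime hP.ne_zero).mpr hP, by
    simpa using hP.ne_zero⟩

theorem place_lt (P : k[X]) (hP : Prime P) (r : k[X]) :
    (place P hP).valuation (RatFunc k) (algebraMap k[X] (RatFunc k) r) < 1 ↔ P ∣ r := by
  have := (place P hP).valuation_lt_one_iff_mem (K := RatFunc k) r
  rw [← Ideal.mem_span_singleton]
  exact this

theorem val_poly_le (v : HeightOneSpectrum k[X]) (r : k[X]) :
    v.valuation (RatFunc k) (algebraMap k[X] (RatFunc k) r) ≤ 1 :=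
  v.valuation_le_one (K := RatFunc k) r

theorem val_cop (v : HeightOneSpectrum k[X]) {N w : k[X]} (h : IsCoprime N w)
    (h1 : v.valuation (RatFunc k) (algebraMap k[X] (RatFunc k) N) < 1)
    (h2 : v.valuation (RatFunc k) (algebraMap k[X] (RatFunc k) w) < 1) : False := by
  have a1 := (v.valuation_lt_one_iff_mem (K := RatFunc k) N).mp h1
  have a2 := (v.valuation_lt_one_iff_mem (K := RatFunc k) w).mp h2
  obtain ⟨a, b, hab⟩ := h
  apply v.isPrime.ne_top
  rw [Ideal.eq_top_iff_one, ← hab]
  exact Ideal.add_mem _ (Ideal.mul_mem_left _ _ a1) (Ideal.mul_mem_left _ _ a2)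

/-- `w` is a common exact denominator of all points with finite orbit. -/
structure Den (d : ℕ) (c : RatFunc k) (w : k[X]) : Prop where
  ne : w ≠ 0
  le : ∀ v : HeightOneSpectrum k[X], v.valuation (RatFunc k) c ≤ 1 →
    v.valuation (RatFunc k) (algebraMap k[X] (RatFunc k) w) = 1
  gt : ∀ v : HeightOneSpectrum k[X], 1 < v.valuation (RatFunc k) c →
    ∀ x, FinOrb (uni d c) x → v.valuation (RatFunc k) (algebraMap k[X] (RatFunc k) w * x) = 1

theorem den_denom {d : ℕ} (hd : 2 ≤ d) {c x : RatFunc k} (hx : FinOrb (uni d c) x) :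
    Den d c x.denom := by
  have hw : algebraMap k[X] (RatFunc k) x.denom ≠ 0 :=
    RatFunc.algebraMap_ne_zero x.denom_ne_zero
  have hN : algebraMap k[X] (RatFunc k) x.denom * x = algebraMap k[X] (RatFunc k) x.num := by
    conv_lhs => rw [← x.num_div_denom]
    rw [mul_div_assoc', RatFunc.num_div_denom, mul_comm, mul_div_assoc, div_self hw, mul_one]
  have hcop := x.isCoprime_num_denom
  refine ⟨x.denom_ne_zero, ?_, ?_⟩
  · intro v hc
    by_contra hne
    have hlt := lt_of_le_of_ne (val_poly_le v x.denom) hne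
    refine val_cop v hcop ?_ hlt
    rw [← hN, map_mul]
    exact mul_lt_one_of_lt_of_le hlt (val_le _ hd hc hx)
  · intro v hc z hz
    rw [map_mul, val_eq_val _ hd hc hz hx, ← map_mul, hN]
    by_contra hne
    have hlt := lt_of_le_of_ne (val_poly_le v x.num) hne
    refine val_cop v hcop hlt ?_
    rw [← hN, map_mul] at hlt
    have h1 := one_lt_val _ hd hc hx
    by_contra hge
    push Not at hge
    exact absurd hlt (not_lt.mpr (one_le_mul hge h1.le))

theorem Den.mul {d : ℕ} (hd : 2 ≤ d) {c x : RatFunc k} {w : k[X]} (hw : Den d c w)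
    (hx : FinOrb (uni d c) x) :
    ∃ X : k[X], algebraMap k[X] (RatFunc k) X = algebraMap k[X] (RatFunc k) w * x := by
  have := HeightOneSpectrum.mem_integers_of_valuation_le_one (R := k[X]) (RatFunc k)
    (algebraMap k[X] (RatFunc k) w * x) (by
      intro v
      rcases le_or_gt (v.valuation (RatFunc k) c) 1 with h | h
      · rw [map_mul, hw.le v h, one_mul]
        exact val_le _ hd h hx
      · exact (hw.gt v h x hx).le)
  exact this

end H799Uni
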