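import Pool.Agent.H799R3.UniKey

namespace H799Uni

open Polynomial IsDedekindDomain UniqueFactorizationMonoid

variable {k : Type*} [Field k]

theorem infty_poly [DecidableEq (RatFunc k)] {r : k[X]} (hr : r ≠ 0) :
    RatFunc.inftyValuation k (algebraMap k[X] (RatFunc k) r) =
      WithZero.exp (r.natDegree : ℤ) := by
  rw [RatFunc.inftyValuation_apply, RatFunc.inftyValuation.polynomial k hr]

section Key

variable {p s e d : ℕ} [Fact p.Prime] [CharP k p]

theorem two_le_d (hs : 1 ≤ s) (he : 1 ≤ e) (hde : d = p ^ s * e) : 2 ≤ d := by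
  have hp := (Fact.out : p.Prime).two_le
  have hq : 2 ≤ p ^ s := by
    calc 2 ≤ p := hp
      _ = p ^ 1 := (pow_one p).symm
      _ ≤ p ^ s := Nat.pow_le_pow_right (by omega) hs
  rw [hde]
  calc 2 ≤ p ^ s := hq
    _ ≤ p ^ s * e := Nat.le_mul_of_pos_right _ he

/-- the linear forms `X - η Y` -/
noncomputable def lin (X Y : k[X]) (η : k) : k[X] := X - C η * Y

theorem lin_val {c x y : RatFunc k} {w X Y : k[X]} {η : k}
    (hX : algebraMap k[X] (RatFunc k) X = algebraMap k[X] (RatFunc k) w * x)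
    (hY : algebraMap k[X] (RatFunc k) Y = algebraMap k[X] (RatFunc k) w * y) :
    algebraMap k[X] (RatFunc k) (lin X Y η) =
      algebraMap k[X] (RatFunc k) w * (x - algebraMap k[X] (RatFunc k) (C η) * y) := by
  unfold lin
  rw [map_sub, map_mul, hX, hY]
  ring

theorem root_pow {η : k} (hη : η ^ e = 1) (hde : d = p ^ s * e) :
    (algebraMap k[X] (RatFunc k) (C η)) ^ d = 1 := by
  rw [← map_pow, ← C_pow, hde, mul_comm, pow_mul, hη, one_pow, C_1, map_one]

/-- any valuation: an integral place sees `x - η y` as a unit. -/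
theorem lin_one (hs : 1 ≤ s) (he : 1 ≤ e) (hde : d = p ^ s * e) {Γ : Type*}
    [LinearOrderedCommGroupWithZero Γ] (v : Valuation (RatFunc k) Γ) {c x y : RatFunc k} {η : k}
    (hη : η ^ e = 1) (hc : v c ≤ 1)
    (hx : FinOrb (uni d c) x) (hy : FinOrb (uni d c) y) (hnm : NM (uni d c) x y) :
    v (x - algebraMap k[X] (RatFunc k) (C η) * y) = 1 := by
  have h1 := root_pow (p := p) (s := s) hη hde
  exact val_sub_eq_one v hs he hde hc hx (hy.root h1) (hnm.root h1)

theorem lin_ne {c x y : RatFunc k} {w X Y : k[X]} {η : k} (hw : w ≠ 0)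
    (hde : d = p ^ s * e)
    (hη : η ^ e = 1) (hnm : NM (uni d c) x y)
    (hX : algebraMap k[X] (RatFunc k) X = algebraMap k[X] (RatFunc k) w * x)
    (hY : algebraMap k[X] (RatFunc k) Y = algebraMap k[X] (RatFunc k) w * y) :
    lin X Y η ≠ 0 := by
  intro h0
  have h1 := lin_val (c := c) (η := η) hX hY
  rw [h0, map_zero] at h1
  have h2 := (hnm.root (root_pow (p := p) (s := s) hη hde)) 0
  simp only [Function.iterate_zero, id] at h2
  have h3 := mul_ne_zero (RatFunc.algebraMap_ne_zero hw) (sub_ne_zero.mpr h2)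
  exact h3 h1.symm

theorem lin_dvd (hs : 1 ≤ s) (he : 1 ≤ e) (hde : d = p ^ s * e) {c x y : RatFunc k}
    {w X Y : k[X]} {η : k} (hw : Den d c w)
    (hη : η ^ e = 1)
    (hx : FinOrb (uni d c) x) (hy : FinOrb (uni d c) y) (hnm : NM (uni d c) x y)
    (hX : algebraMap k[X] (RatFunc k) X = algebraMap k[X] (RatFunc k) w * x)
    (hY : algebraMap k[X] (RatFunc k) Y = algebraMap k[X] (RatFunc k) w * y)
    {P : k[X]} (hP : Prime P) (hPA : P ∣ lin X Y η) : P ∣ w := by
  have hd := two_le_d (p := p) hs he hde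
  rw [← place_lt P hP]
  by_contra hge
  have h1 : (place P hP).valuation (RatFunc k) (algebraMap k[X] (RatFunc k) w) = 1 :=
    le_antisymm (val_poly_le _ _) (not_lt.mp hge)
  have hc : (place P hP).valuation (RatFunc k) c ≤ 1 := by
    by_contra hc
    push Not at hc
    have h2 := hw.gt _ hc x hx
    rw [map_mul, h1, one_mul] at h2
    exact absurd (one_lt_val _ hd hc hx) (by rw [h2]; exact lt_irrefl _)
  have h3 := lin_one hs he hde ((place P hP).valuation (RatFunc k)) hη hc hx hy hnm
  have h4 := lin_val (c := c) (η := η) hX hY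
  have h5 : (place P hP).valuation (RatFunc k) (algebraMap k[X] (RatFunc k) (lin X Y η)) = 1 := by
    rw [h4, map_mul, h1, h3, mul_one]
  exact absurd ((place_lt P hP _).mpr hPA) (by rw [h5]; exact lt_irrefl _)

/-- `w x` is coprime to `w`, in the form used below -/
theorem num_cop (hs : 1 ≤ s) (he : 1 ≤ e) (hde : d = p ^ s * e) {c x : RatFunc k}
    {w X : k[X]} (hw : Den d c w)
    (hx : FinOrb (uni d c) x)
    (hX : algebraMap k[X] (RatFunc k) X = algebraMap k[X] (RatFunc k) w * x)
    {P : k[X]} (hP : Prime P) (hPw : P ∣ w) : ¬ P ∣ X := by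
  intro hPX
  rcases le_or_gt ((place P hP).valuation (RatFunc k) c) 1 with h | h
  · have h1 := hw.le _ h
    exact absurd ((place_lt P hP _).mpr hPw) (by rw [h1]; exact lt_irrefl _)
  · have h1 := hw.gt _ h x hx
    rw [← hX] at h1
    exact absurd ((place_lt P hP _).mpr hPX) (by rw [h1]; exact lt_irrefl _)

theorem lin_cop (hs : 1 ≤ s) (he : 1 ≤ e) (hde : d = p ^ s * e) {c x y : RatFunc k}
    {w X Y : k[X]} {η η' : k} (hw : Den d c w)
    (hη : η ^ e = 1) (hη' : η' ^ e = 1) (hne : η ≠ η')
    (hx : FinOrb (uni d c) x) (hy : FinOrb (uni d c) y) (hnm : NM (uni d c) x y)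
    (hX : algebraMap k[X] (RatFunc k) X = algebraMap k[X] (RatFunc k) w * x)
    (hY : algebraMap k[X] (RatFunc k) Y = algebraMap k[X] (RatFunc k) w * y) :
    IsCoprime (lin X Y η) (lin X Y η') := by
  apply isCoprime_of_prime_dvd
  · rintro ⟨h, -⟩
    exact lin_ne (p := p) (s := s) hw.ne hde hη hnm hX hY h
  · intro P hP h1 h2
    have hPw := lin_dvd hs he hde hw hη hx hy hnm hX hY hP h1
    refine num_cop hs he hde hw hx hX hP hPw ?_
    have h3 : P ∣ C (η' - η) * X := by
      have : C (η' - η) * X = C η' * lin X Y η - C η * lin X Y η' := by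
        unfold lin
        rw [C_sub]
        ring
      rw [this]
      exact dvd_sub (h1.mul_left _) (h2.mul_left _)
    rcases hP.dvd_or_dvd h3 with h4 | h4
    · exfalso
      have hu : IsUnit (C (η' - η)) :=
        Polynomial.isUnit_C.mpr (sub_ne_zero.mpr hne.symm).isUnit
      exact hP.not_unit (isUnit_of_dvd_unit h4 hu)
    · exact h4

theorem key (hs : 1 ≤ s) (he : 1 ≤ e) (hde : d = p ^ s * e) {c x y : RatFunc k}
    {w X Y : k[X]} {η₀ η₁ η₂ : k} (hw : Den d c w)
    (hη₀ : η₀ ^ e = 1) (hη₁ : η₁ ^ e = 1) (hη₂ : η₂ ^ e = 1)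
    (h01 : η₀ ≠ η₁) (h12 : η₁ ≠ η₂) (h02 : η₀ ≠ η₂)
    (hx : FinOrb (uni d c) x) (hy : FinOrb (uni d c) y) (hnm : NM (uni d c) x y)
    (hX : algebraMap k[X] (RatFunc k) X = algebraMap k[X] (RatFunc k) w * x)
    (hY : algebraMap k[X] (RatFunc k) Y = algebraMap k[X] (RatFunc k) w * y) :
    derivative X = 0 ∧ derivative Y = 0 := by
  classical
  have hd := two_le_d (p := p) hs he hde
  have c01 := lin_cop hs he hde hw hη₀ hη₁ h01 hx hy hnm hX hY
  have n0 := lin_ne (p := p) (s := s) hw.ne hde hη₀ hnm hX hY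
  have n1 := lin_ne (p := p) (s := s) hw.ne hde hη₁ hnm hX hY
  have n2 := lin_ne (p := p) (s := s) hw.ne hde hη₂ hnm hX hY
  have u0 : η₁ - η₂ ≠ 0 := sub_ne_zero.mpr h12
  have u1 : η₂ - η₀ ≠ 0 := sub_ne_zero.mpr h02.symm
  have u2 : η₀ - η₁ ≠ 0 := sub_ne_zero.mpr h01
  have U0 : IsUnit (C (η₁ - η₂)) := Polynomial.isUnit_C.mpr u0.isUnit
  have U1 : IsUnit (C (η₂ - η₀)) := Polynomial.isUnit_C.mpr u1.isUnit
  have U2 : IsUnit (C (η₀ - η₁)) := Polynomial.isUnit_C.mpr u2.isUnit
  have hsum : C (η₁ - η₂) * lin X Y η₀ + C (η₂ - η₀) * lin X Y η₁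
      + C (η₀ - η₁) * lin X Y η₂ = 0 := by
    unfold lin
    simp only [C_sub]
    ring
  have hcop : IsCoprime (C (η₁ - η₂) * lin X Y η₀) (C (η₂ - η₀) * lin X Y η₁) :=
    (isCoprime_mul_units_left U0 U1 _ _).mpr c01
  rcases Polynomial.abc (mul_ne_zero U0.ne_zero n0) (mul_ne_zero U1.ne_zero n1)
    (mul_ne_zero U2.ne_zero n2) hcop hsum with h | h
  · exfalso
    have hrad : radical (C (η₁ - η₂) * lin X Y η₀ * (C (η₂ - η₀) * lin X Y η₁)
        * (C (η₀ - η₁) * lin X Y η₂)) ∣ w := by
      rw [radical_dvd_iff_primeFactors_subset hw.ne]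
      intro P hP
      rw [mem_primeFactors] at hP ⊢
      have hPp := prime_of_normalized_factor P hP
      have hPd := dvd_of_mem_normalizedFactors hP
      have hPw : P ∣ w := by
        rcases hPp.dvd_or_dvd hPd with h1 | h1
        · rcases hPp.dvd_or_dvd h1 with h2 | h2
          · exact lin_dvd hs he hde hw hη₀ hx hy hnm hX hY hPp ((U0.dvd_mul_left).mp h2)
          · exact lin_dvd hs he hde hw hη₁ hx hy hnm hX hY hPp ((U1.dvd_mul_left).mp h2)
        · exact lin_dvd hs he hde hw hη₂ hx hy hnm hX hY hPp ((U2.dvd_mul_left).mp h1)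
      rw [mem_normalizedFactors_iff' hw.ne]
      exact ⟨hPp.irreducible, normalize_normalized_factor P hP, hPw⟩
    have hdeg := Polynomial.natDegree_le_of_dvd hrad hw.ne
    obtain ⟨d0, d1, -⟩ := h
    rw [natDegree_C_mul u0] at d0
    rw [natDegree_C_mul u1] at d1
    rcases le_or_gt (RatFunc.inftyValuation k c) 1 with hc | hc
    · have h3 := lin_one hs he hde (RatFunc.inftyValuation k) hη₀ hc hx hy hnm
      have h4 := congrArg (RatFunc.inftyValuation k) (lin_val (c := c) (η := η₀) hX hY)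
      rw [map_mul, h3, mul_one, infty_poly n0, infty_poly hw.ne, WithZero.exp_inj] at h4
      have : (lin X Y η₀).natDegree = w.natDegree := by exact_mod_cast h4
      omega
    · have hY0 : Y ≠ 0 := by
        rintro rfl
        rw [map_zero] at hY
        have hy0 : y = 0 := by
          rcases mul_eq_zero.mp hY.symm with h | h
          · exact absurd h (RatFunc.algebraMap_ne_zero hw.ne)
          · exact h
        have := one_lt_val _ hd hc hy
        rw [hy0, map_zero] at this
        exact absurd this (not_lt.mpr zero_le)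
      have h5 := one_lt_val _ hd hc hy
      have h6 := congrArg (RatFunc.inftyValuation k) hY
      rw [map_mul, infty_poly hY0, infty_poly hw.ne] at h6
      have h7 : (WithZero.exp (w.natDegree : ℤ)) < WithZero.exp (Y.natDegree : ℤ) := by
        rw [h6]
        conv_lhs => rw [← mul_one (WithZero.exp (w.natDegree : ℤ))]
        exact (mul_lt_mul_iff_right₀ (by simp)).mpr h5
      rw [WithZero.exp_lt_exp] at h7
      have h8 : w.natDegree < Y.natDegree := by exact_mod_cast h7
      have h9 : C (η₀ - η₁) * Y = lin X Y η₁ - lin X Y η₀ := by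
        unfold lin
        rw [C_sub]
        ring
      have h10 := congrArg natDegree h9
      rw [natDegree_C_mul u2] at h10
      have h11 := natDegree_sub_le (lin X Y η₁) (lin X Y η₀)
      rw [← h10] at h11
      rcases le_max_iff.mp h11 with h | h <;> omega
  · obtain ⟨a0, a1, -⟩ := h
    rw [derivative_C_mul, mul_eq_zero_iff_left U0.ne_zero] at a0
    rw [derivative_C_mul, mul_eq_zero_iff_left U1.ne_zero] at a1
    have e1 : C (η₀ - η₁) * derivative Y = 0 := by
      have : C (η₀ - η₁) * derivative Y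
          = derivative (lin X Y η₁) - derivative (lin X Y η₀) := by
        unfold lin
        simp only [derivative_sub, derivative_C_mul, C_sub]
        ring
      rw [this, a0, a1, sub_zero]
    have e2 : derivative Y = 0 := by
      rcases mul_eq_zero.mp e1 with h | h
      · exact absurd h U2.ne_zero
      · exact h
    refine ⟨?_, e2⟩
    unfold lin at a0
    rw [derivative_sub, derivative_C_mul, e2, mul_zero, sub_zero] at a0
    exact a0

end Key

end H799Uni
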