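import Pool.Agent.H799R3.UniTail

namespace H799Uni

open Polynomial

section Closed

variable {k : Type*} [Field k] {p s e d : ℕ} [Fact p.Prime] [CharP k p] [IsAlgClosed k]

/-- over an algebraically closed field: at most `e` points, as soon as no two points with finite
orbits avoid each other -/
theorem encard_of_no_nm (hs : 1 ≤ s) (he : 2 ≤ e) (hek : (e : k) ≠ 0) (hm : 3 ≤ p ^ s * e - 1)
    (hde : d = p ^ s * e) {c : RatFunc k} (hc : ∀ a : k, c ≠ RatFunc.C a)
    (hno : ∀ x y : RatFunc k, FinOrb (uni d c) x → FinOrb (uni d c) y → ¬ NM (uni d c) x y) :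
    {x : RatFunc k | FinOrb (uni d c) x}.encard ≤ e := by
  classical
  rcases Set.eq_empty_or_nonempty {x : RatFunc k | FinOrb (uni d c) x} with h | ⟨x₀, hx₀⟩
  · rw [h]; simp
  obtain ⟨w₀, hw₀, hfix, hall⟩ := exists_fixed hno hx₀
  have hone := all_to_fixed hall hfix (fun u _ h2 => tail hs he hek hm hde hc hfix h2)
  have hsub : {x : RatFunc k | FinOrb (uni d c) x} ⊆ ((nthRoots e (w₀ ^ e)).toFinset : Set _) := by
    intro x hx
    have h1 : x ^ d = w₀ ^ d := by
      have := (hone x hx).trans hfix.symm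
      unfold uni at this
      exact add_right_cancel this
    have h2 : (x ^ e - w₀ ^ e) ^ (p ^ s) = 0 := by
      rw [sub_pow_char_pow, ← pow_mul, ← pow_mul, mul_comm e, ← hde, h1, sub_self]
    have h3 : x ^ e = w₀ ^ e := sub_eq_zero.mp (eq_zero_of_pow_eq_zero h2)
    rw [Finset.mem_coe, Multiset.mem_toFinset, mem_nthRoots (by omega)]
    exact h3
  refine (Set.encard_le_encard hsub).trans ?_
  rw [Set.encard_coe_eq_coe_finsetCard]
  have h4 : (nthRoots e (w₀ ^ e)).toFinset.card ≤ e :=
    (Multiset.toFinset_card_le _).trans (card_nthRoots e _)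
  exact_mod_cast h4

theorem encard_closed (hs : 1 ≤ s) (he : 3 ≤ e) (hek : (e : k) ≠ 0)
    (hde : d = p ^ s * e) {c : RatFunc k} (hc : ∀ a : k, c ≠ RatFunc.C a) :
    {x : RatFunc k | FinOrb (uni d c) x}.encard ≤ e := by
  have hp := (Fact.out : p.Prime).two_le
  have hq : 2 ≤ p ^ s := by
    calc 2 ≤ p := hp
      _ = p ^ 1 := (pow_one p).symm
      _ ≤ p ^ s := Nat.pow_le_pow_right (by omega) hs
  have hm : 3 ≤ p ^ s * e - 1 := by
    have : 2 * 3 ≤ p ^ s * e := Nat.mul_le_mul hq he
    omega
  refine encard_of_no_nm hs (by omega) hek hm hde hc ?_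
  intro x y hx hy hnm
  have : NeZero (e : k) := ⟨hek⟩
  obtain ⟨ζ, hζ⟩ := HasEnoughRootsOfUnity.exists_primitiveRoot k e
  have h1 : (1 : k) ≠ ζ := fun h => (hζ.ne_one (by omega)) h.symm
  have h2 : ζ ≠ ζ ^ 2 := by
    intro h
    have := hζ.pow_inj (i := 1) (j := 2) (by omega) (by omega) (by simpa using h)
    omega
  have h3 : (1 : k) ≠ ζ ^ 2 := by
    intro h
    have := hζ.pow_inj (i := 0) (j := 2) (by omega) (by omega) (by simpa using h)
    omega
  obtain ⟨a, ha⟩ := no_nm hs (by omega : 1 ≤ e) hde (one_pow e) hζ.pow_eq_one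
    (show (ζ ^ 2) ^ e = 1 by rw [← pow_mul, mul_comm, pow_mul, hζ.pow_eq_one, one_pow])
    h1 h2 h3 _ c x y le_rfl hx hy hnm
  exact hc a ha

end Closed

section Base

variable {k L : Type*} [Field k] [Field L] [Algebra k L]

theorem mapRingHom_inj : Function.Injective (mapRingHom (algebraMap k L)) := by
  intro a b h
  exact Polynomial.map_injective _ (algebraMap k L).injective h

/-- extension of constants -/
noncomputable def bc : RatFunc k →+* RatFunc L :=
  ext (mapRingHom (algebraMap k L)) mapRingHom_inj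

theorem bc_const {c : RatFunc k} {a : L} (h : bc (L := L) c = RatFunc.C a) :
    ∃ b : k, c = RatFunc.C b := by
  have h0 : bc (L := L) c = algebraMap L[X] (RatFunc L) (c.num.map (algebraMap k L)) /
      algebraMap L[X] (RatFunc L) (c.denom.map (algebraMap k L)) := by
    conv_lhs => rw [← c.num_div_denom]
    exact ext_div (mapRingHom (algebraMap k L)) mapRingHom_inj _ _
  have hD : c.denom.map (algebraMap k L) ≠ 0 :=
    (Polynomial.map_ne_zero_iff (algebraMap k L).injective).mpr c.denom_ne_zero
  rw [h0, div_eq_iff (RatFunc.algebraMap_ne_zero hD), ← RatFunc.algebraMap_C, ← map_mul] at h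
  have h1 := RatFunc.algebraMap_injective L h
  have hcop : IsCoprime (c.num.map (algebraMap k L)) (c.denom.map (algebraMap k L)) :=
    c.isCoprime_num_denom.map (mapRingHom (algebraMap k L))
  have hu : IsUnit (c.denom.map (algebraMap k L)) := by
    rw [h1] at hcop
    exact isCoprime_self.mp hcop.of_mul_left_right
  have hd0 : c.denom.natDegree = 0 := by
    have := natDegree_eq_zero_of_isUnit hu
    rwa [natDegree_map] at this
  have hn0 : c.num.natDegree = 0 := by
    have h2 := congrArg natDegree h1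
    rw [natDegree_map] at h2
    have h3 : (C a * c.denom.map (algebraMap k L)).natDegree ≤ 0 := by
      refine (natDegree_C_mul_le _ _).trans ?_
      rw [natDegree_map, hd0]
    omega
  exact const_of_natDegree hn0 hd0

end Base

theorem encard_general {k : Type*} [Field k] {p s e d : ℕ} [Fact p.Prime] [CharP k p]
    (hs : 1 ≤ s) (he : 3 ≤ e) (hpe : ¬ p ∣ e)
    (hde : d = p ^ s * e) {c : RatFunc k} (hc : ∀ a : k, c ≠ RatFunc.C a) :
    {x : RatFunc k | FinOrb (uni d c) x}.encard ≤ e := by
  have : CharP (AlgebraicClosure k) p :=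
    charP_of_injective_algebraMap (algebraMap k (AlgebraicClosure k)).injective p
  have hek : (e : AlgebraicClosure k) ≠ 0 := by
    rw [ne_eq, CharP.cast_eq_zero_iff (AlgebraicClosure k) p]
    exact hpe
  have h1 := encard_closed (k := AlgebraicClosure k) (p := p) hs he hek hde
    (c := bc (L := AlgebraicClosure k) c) (by
      intro a ha
      obtain ⟨b, hb⟩ := bc_const ha
      exact hc b hb)
  have h2 : (bc (L := AlgebraicClosure k)) '' {x : RatFunc k | FinOrb (uni d c) x} ⊆
      {x : RatFunc (AlgebraicClosure k) |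
        FinOrb (uni d (bc (L := AlgebraicClosure k) c)) x} := by
    rintro _ ⟨x, hx, rfl⟩
    exact FinOrb.hom _ hx
  rw [← (bc (k := k) (L := AlgebraicClosure k)).injective.injOn.encard_image]
  exact (Set.encard_le_encard h2).trans h1

end H799Uni
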