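import Pool.Agent.H799R3.UniTwoMain

namespace H799Uni

open Polynomial

section

variable {k : Type*} [Field k] {p s e d : ℕ} [Fact p.Prime] [CharP k p]

theorem fixed_fo {K : Type*} [Field K] {c x : K} (h : uni d c x = x) : FinOrb (uni d c) x := by
  refine (Set.finite_singleton x).subset ?_
  rintro _ ⟨n, rfl⟩
  exact Function.iterate_fixed h n

theorem pre_fo {K : Type*} [Field K] {c x : K} (h : FinOrb (uni d c) (uni d c x)) :
    FinOrb (uni d c) x := by
  refine (h.insert x).subset ?_
  rintro _ ⟨n, rfl⟩
  cases n with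
  | zero => exact Or.inl rfl
  | succ n => exact Or.inr ⟨n, (Function.iterate_succ_apply _ _ _).symm⟩

/-- the value `e` is attained -/
theorem sharp_e (hs : 1 ≤ s) (he : 1 ≤ e) (hde : d = p ^ s * e) {ζ : k}
    (hζ : IsPrimitiveRoot ζ e) :
    ∃ c : RatFunc k, (∀ a : k, c ≠ RatFunc.C a) ∧
      (e : ℕ∞) ≤ {x : RatFunc k | FinOrb (uni d c) x}.encard := by
  classical
  have hd := two_le_d (p := p) hs he hde
  refine ⟨RatFunc.X - RatFunc.X ^ d, ?_, ?_⟩
  · intro a ha
    have h1 : algebraMap k[X] (RatFunc k) (X - X ^ d) = algebraMap k[X] (RatFunc k) (C a) := by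
      rw [map_sub, map_pow, RatFunc.algebraMap_X, RatFunc.algebraMap_C, ha]
    have h2 := RatFunc.algebraMap_injective k h1
    have h3 := congrArg natDegree h2
    rw [natDegree_C, natDegree_sub_eq_right_of_natDegree_lt (by
      rw [natDegree_X_pow, natDegree_X]; omega), natDegree_X_pow] at h3
    omega
  · set c : RatFunc k := RatFunc.X - RatFunc.X ^ d with hc
    have hfix : uni d c RatFunc.X = RatFunc.X := by
      unfold uni
      rw [hc]; ring
    have hmem : ∀ i : ℕ, FinOrb (uni d c) (RatFunc.C (ζ ^ i) * RatFunc.X) := by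
      intro i
      apply (fixed_fo hfix).root
      have h1 : ζ ^ (e * (i * p ^ s)) = 1 := by rw [pow_mul, hζ.pow_eq_one, one_pow]
      rw [← map_pow, hde, ← pow_mul, show i * (p ^ s * e) = e * (i * p ^ s) by ring, h1, map_one]
    have hinj : Set.InjOn (fun i : ℕ => (RatFunc.C (ζ ^ i) * RatFunc.X : RatFunc k))
        (Finset.range e : Set ℕ) := by
      intro i hi j hj hij
      rw [Finset.coe_range, Set.mem_Iio] at hi hj
      have h1 := mul_right_cancel₀ RatFunc.X_ne_zero hij
      have h2 := RatFunc.C_injective h1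
      exact hζ.pow_inj hi hj h2
    have hsub : (fun i : ℕ => (RatFunc.C (ζ ^ i) * RatFunc.X : RatFunc k)) ''
        (Finset.range e : Set ℕ) ⊆ {x : RatFunc k | FinOrb (uni d c) x} := by
      rintro _ ⟨i, -, rfl⟩
      exact hmem i
    refine le_trans ?_ (Set.encard_le_encard hsub)
    rw [hinj.encard_image, Set.encard_coe_eq_coe_finsetCard, Finset.card_range]

/-- for `e = 2` the value `4` is attained -/
theorem sharp_four (hp2 : p ≠ 2) (hs : 1 ≤ s) (hde : d = p ^ s * 2) :
    ∃ c : RatFunc k, (∀ a : k, c ≠ RatFunc.C a) ∧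
      (4 : ℕ∞) ≤ {x : RatFunc k | FinOrb (uni d c) x}.encard := by
  classical
  have hd := two_le_d (p := p) hs (by norm_num : 1 ≤ 2) hde
  have hq3 := q_ge (p := p) (q := p ^ s) hp2 hs rfl
  have hK2 : (2 : RatFunc k) ≠ 0 := two_ne' (K := RatFunc k) (p := p) hp2
  generalize hq : p ^ s = q at hq3
  have hdq : d = q * 2 := by rw [hde, hq]
  obtain ⟨m, hm⟩ : ∃ m, q = m + 1 := ⟨q - 1, by omega⟩
  set T : RatFunc k := RatFunc.X with hT
  have hT0 : T ≠ 0 := RatFunc.X_ne_zero
  set A : RatFunc k := T ^ q with hA
  set B : RatFunc k := (T ^ m)⁻¹ with hB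
  have hA0 : A ≠ 0 := pow_ne_zero _ hT0
  have hB0 : B ≠ 0 := inv_ne_zero (pow_ne_zero _ hT0)
  have hAB : A * B = T := by
    rw [hA, hB, hm, pow_succ, mul_comm, ← mul_assoc, inv_mul_cancel₀ (pow_ne_zero _ hT0), one_mul]
  set x : RatFunc k := (A + B) / 2 with hx
  set y : RatFunc k := (B - A) / 2 with hy
  have hxy1 : x - y = A := by rw [hx, hy]; field_simp; ring
  have hxy2 : x + y = B := by rw [hx, hy]; field_simp; ring
  have hV2 : ell (RatFunc.inftyValuation k) (2 : RatFunc k) = 0 := ell_two (p := p) _ hp2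
  have ellT : ell (RatFunc.inftyValuation k) T = 1 := by
    unfold ell
    rw [hT, RatFunc.inftyValuation.X, WithZero.log_exp]
  have ellA : ell (RatFunc.inftyValuation k) A = q := by
    rw [hA, ell_pow, ellT, mul_one]
  have ellB : ell (RatFunc.inftyValuation k) B = -m := by
    have h1 := ell_mul (RatFunc.inftyValuation k) hA0 hB0
    rw [hAB, ellT, ellA, hm] at h1
    push_cast at h1
    linarith
  have hABne : A + B ≠ 0 := by
    intro h
    have h1 : A = -B := eq_neg_of_add_eq_zero_left h
    have h2 := ellA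
    rw [h1, ell_neg, ellB] at h2
    omega
  have hBAne : B - A ≠ 0 := by
    intro h
    have h1 : B = A := sub_eq_zero.mp h
    have h2 := ellA
    rw [← h1, ellB] at h2
    omega
  have hx0 : x ≠ 0 := div_ne_zero hABne hK2
  have hy0 : y ≠ 0 := div_ne_zero hBAne hK2
  have hfx : uni d (x - x ^ d) x = x := by unfold uni; ring
  have hfy : uni d (x - x ^ d) y = y := by
    have h1 : (x ^ 2 - y ^ 2) ^ q = x - y := by
      rw [sq_sub_sq, hxy2, hxy1, mul_comm, hAB, hA]
    have h2 : x ^ d - y ^ d = x - y := by
      rw [← h1, ← hq, sub_pow_char_pow, ← pow_mul, ← pow_mul, mul_comm 2, hq, ← hdq]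
    unfold uni
    linear_combination -h2
  have fx := fixed_fo hfx
  have fy := fixed_fo hfy
  refine ⟨x - x ^ d, ?_, ?_⟩
  · intro a ha
    have h1 : RatFunc.inftyValuation k (x - x ^ d) ≤ 1 := by
      rw [ha]
      rcases eq_or_ne a 0 with rfl | h0
      · simp
      · exact (RatFunc.inftyValuation.C k h0).le
    have h2 := val_le (RatFunc.inftyValuation k) hd h1 fx
    have h3 : ell (RatFunc.inftyValuation k) x ≤ 0 := by
      unfold ell
      rw [← WithZero.log_one (M := ℤ)]
      exact (WithZero.log_le_log ((Valuation.ne_zero_iff _).mpr hx0) one_ne_zero).mpr h2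
    have h4 : ell (RatFunc.inftyValuation k) A ≤
        max (ell (RatFunc.inftyValuation k) (2 * x)) (ell (RatFunc.inftyValuation k) B) := by
      have h5 : 2 * x - B = A := by rw [hx]; field_simp; ring
      have := ell_sub (RatFunc.inftyValuation k) (a := 2 * x) (b := B) (by rw [h5]; exact hA0)
        (mul_ne_zero hK2 hx0) hB0
      rwa [h5] at this
    rw [ell_mul _ hK2 hx0, hV2, ellA, ellB] at h4
    rcases le_max_iff.mp h4 with h | h <;> omega
  · have hsub : (({x, -x, y, -y} : Finset (RatFunc k)) : Set (RatFunc k)) ⊆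
        {z : RatFunc k | FinOrb (uni d (x - x ^ d)) z} := by
      intro z hz
      simp only [Finset.coe_insert, Finset.coe_singleton, Set.mem_insert_iff,
        Set.mem_singleton_iff] at hz
      rcases hz with rfl | rfl | rfl | rfl
      · exact fx
      · exact fo_neg hdq fx
      · exact fy
      · exact fo_neg hdq fy
    refine le_trans ?_ (Set.encard_le_encard hsub)
    rw [Set.encard_coe_eq_coe_finsetCard]
    have g1 : x ≠ -x := by
      intro h
      have : 2 * x = 0 := by linear_combination h
      exact mul_ne_zero hK2 hx0 this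
    have g2 : y ≠ -y := by
      intro h
      have : 2 * y = 0 := by linear_combination h
      exact mul_ne_zero hK2 hy0 this
    have g3 : x ≠ y := by
      intro h
      apply hA0
      rw [← hxy1, h, sub_self]
    have g4 : x ≠ -y := by
      intro h
      apply hB0
      rw [← hxy2, h, neg_add_cancel]
    have g5 : -x ≠ y := by
      intro h
      apply hB0
      rw [← hxy2, ← h, add_neg_cancel]
    have g6 : -x ≠ -y := by
      intro h
      exact g3 (neg_injective h)
    have hcard : ({x, -x, y, -y} : Finset (RatFunc k)).card = 4 := by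
      rw [Finset.card_insert_of_notMem, Finset.card_insert_of_notMem,
        Finset.card_insert_of_notMem, Finset.card_singleton]
      · simpa using g2
      · simp only [Finset.mem_insert, Finset.mem_singleton, not_or]
        exact ⟨g5, g6⟩
      · simp only [Finset.mem_insert, Finset.mem_singleton, not_or]
        exact ⟨g1, g3, g4⟩
    rw [hcard]
    rfl

end

end H799Uni
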