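import Pool.Agent.H799R3.UniSharp

namespace H799Uni

open Polynomial

section Closed

variable {k : Type*} [Field k] {p s e d : ℕ} [Fact p.Prime] [CharP k p] [IsAlgClosed k]

theorem struct_ge_three (hs : 1 ≤ s) (he : 3 ≤ e) (hek : (e : k) ≠ 0)
    (hde : d = p ^ s * e) {c : RatFunc k} (hc : ∀ a : k, c ≠ RatFunc.C a) :
    (Function.periodicPts (uni d c)).encard ≤ 1 ∧
      ∀ x, FinOrb (uni d c) x → uni d c x ∈ Function.periodicPts (uni d c) := by
  have hp := (Fact.out : p.Prime).two_le
  have hq : 2 ≤ p ^ s := by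
    calc 2 ≤ p := hp
      _ = p ^ 1 := (pow_one p).symm
      _ ≤ p ^ s := Nat.pow_le_pow_right (by omega) hs
  have hm : 3 ≤ p ^ s * e - 1 := by
    have : 2 * 3 ≤ p ^ s * e := Nat.mul_le_mul hq he
    omega
  have hno : ∀ x y : RatFunc k, FinOrb (uni d c) x → FinOrb (uni d c) y →
      ¬ NM (uni d c) x y := by
    intro x y hx hy hnm
    have : NeZero (e : k) := ⟨hek⟩
    obtain ⟨ζ, hζ⟩ := HasEnoughRootsOfUnity.exists_primitiveRoot k e
    have h1 : (1 : k) ≠ ζ := fun h => (hζ.ne_one (by omega)) h.symm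
    have h2 : ζ ≠ ζ ^ 2 := by
      intro h
      have := hζ.pow_inj (i := 1) (j := 2) (by omega) (by omega) (by simpa using h)
      omega
    have h3 : (1 : k) ≠ ζ ^ 2 := by
      intro h
      have := hζ.pow_inj (i := 0) (j := 2) (by omega) (by omega) (by simpa using h)
      omega
    obtain ⟨a, ha⟩ := no_nm hs (by omega : 1 ≤ e) hde (one_pow e) hζ.pow_eq_one
      (show (ζ ^ 2) ^ e = 1 by rw [← pow_mul, mul_comm, pow_mul, hζ.pow_eq_one, one_pow])
      h1 h2 h3 _ c x y le_rfl hx hy hnm
    exact hc a ha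
  refine ⟨?_, ?_⟩
  · rw [Set.encard_le_one_iff]
    intro x y hx hy
    by_contra hxy
    exact hno x y (per_fo hx) (per_fo hy) (per_nm hx hy hxy)
  · intro x hx
    obtain ⟨w₀, hw₀, hfix, hall⟩ := exists_fixed hno hx
    have hone := all_to_fixed hall hfix (fun u _ h2 => tail hs (by omega) hek hm hde hc hfix h2)
    rw [hone x hx]
    exact ⟨1, one_pos, hfix⟩

theorem struct_two (hp2 : p ≠ 2) (hs : 1 ≤ s) (hde : d = p ^ s * 2)
    {c : RatFunc k} (hc : ∀ a : k, c ≠ RatFunc.C a) :
    (Function.periodicPts (uni d c)).encard ≤ 2 ∧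
      ∀ x, FinOrb (uni d c) x → uni d c x ∈ Function.periodicPts (uni d c) := by
  classical
  have hd := two_le_d (p := p) hs (by norm_num : 1 ≤ 2) hde
  obtain ⟨V, hV⟩ := exists_bad hc
  have h3 := three_periodic (q := p ^ s) hp2 hs rfl hde hd V (ell V c).toNat c hV
    (Int.self_le_toNat _)
  refine ⟨?_, fun x hx => image_periodic hp2 hs rfl hde hd V hV hx⟩
  by_contra hgt
  push Not at hgt
  have h4 : (3 : ℕ∞) ≤ (Function.periodicPts (uni d c)).encard := by
    have : (2 : ℕ∞) + 1 ≤ (Function.periodicPts (uni d c)).encard :=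
      Order.add_one_le_of_lt hgt
    simpa [show (2 : ℕ∞) + 1 = 3 from rfl] using this
  obtain ⟨T, hT, hT3⟩ := Set.exists_subset_encard_eq h4
  obtain ⟨x, y, z, hxy, hxz, hyz, rfl⟩ := Set.encard_eq_three.mp hT3
  exact h3 x y z (hT (by simp)) (hT (by simp)) (hT (by simp)) hxy hyz hxz

end Closed

/-- the structure theorem over an arbitrary field of constants -/
theorem struct_general {k : Type*} [Field k] {p s e d : ℕ} [Fact p.Prime] [CharP k p]
    (hs : 1 ≤ s) (he : 2 ≤ e) (hpe : ¬ p ∣ e)
    (hde : d = p ^ s * e) {c : RatFunc k} (hc : ∀ a : k, c ≠ RatFunc.C a) :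
    (Function.periodicPts (uni d c)).encard ≤ ((if e = 2 then 2 else 1 : ℕ) : ℕ∞) ∧
      ∀ x, FinOrb (uni d c) x → uni d c x ∈ Function.periodicPts (uni d c) := by
  have : CharP (AlgebraicClosure k) p :=
    charP_of_injective_algebraMap (algebraMap k (AlgebraicClosure k)).injective p
  have hek : (e : AlgebraicClosure k) ≠ 0 := by
    rw [ne_eq, CharP.cast_eq_zero_iff (AlgebraicClosure k) p]
    exact hpe
  have hc2 : ∀ a : AlgebraicClosure k, bc (L := AlgebraicClosure k) c ≠ RatFunc.C a := by
    intro a ha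
    obtain ⟨b, hb⟩ := bc_const ha
    exact hc b hb
  have key : (Function.periodicPts (uni d (bc (L := AlgebraicClosure k) c))).encard ≤
        ((if e = 2 then 2 else 1 : ℕ) : ℕ∞) ∧
      ∀ x, FinOrb (uni d (bc (L := AlgebraicClosure k) c)) x →
        uni d (bc (L := AlgebraicClosure k) c) x ∈
          Function.periodicPts (uni d (bc (L := AlgebraicClosure k) c)) := by
    by_cases h : e = 2
    · subst h
      have hp2 : p ≠ 2 := by
        rintro rfl
        exact hpe (dvd_refl 2)
      rw [if_pos rfl]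
      exact struct_two hp2 hs hde hc2
    · rw [if_neg h]
      exact struct_ge_three hs (by omega) hek hde hc2
  refine ⟨?_, ?_⟩
  · have h2 : (bc (L := AlgebraicClosure k)) '' (Function.periodicPts (uni d c)) ⊆
        Function.periodicPts (uni d (bc (L := AlgebraicClosure k) c)) := by
      rintro _ ⟨x, ⟨n, hn, hx⟩, rfl⟩
      refine ⟨n, hn, ?_⟩
      have hx' : (uni d c)^[n] x = x := hx
      change (uni d (bc (L := AlgebraicClosure k) c))^[n] (bc (L := AlgebraicClosure k) x) =
        bc (L := AlgebraicClosure k) x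
      rw [iter_hom, hx']
    rw [← (bc (k := k) (L := AlgebraicClosure k)).injective.injOn.encard_image]
    exact (Set.encard_le_encard h2).trans key.1
  · intro x hx
    have h1 := key.2 _ (FinOrb.hom (bc (L := AlgebraicClosure k)) hx)
    apply per_of_hom (bc (L := AlgebraicClosure k))
    have e1 : uni d (bc (L := AlgebraicClosure k) c) (bc (L := AlgebraicClosure k) x) =
        bc (L := AlgebraicClosure k) (uni d c x) := by
      have := iter_hom (d := d) (c := c) (bc (L := AlgebraicClosure k)) 1 x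
      simpa using this
    rw [← e1]
    exact h1

end H799Uni
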