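import Pool.Agent.H799R3.UniDesc

namespace H799Uni

open Polynomial IsDedekindDomain UniqueFactorizationMonoid

section Abs

variable {K : Type*} [Field K] {d : ℕ} {c : K}

theorem merge_of {x y : K} (h : ¬ NM (uni d c) x y) : ∃ n, (uni d c)^[n] x = (uni d c)^[n] y := by
  unfold NM at h
  push Not at h
  exact h

/-- if no two points with finite orbit avoid each other then all of them flow to one fixed point -/
theorem exists_fixed (hno : ∀ x y : K, FinOrb (uni d c) x → FinOrb (uni d c) y →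
    ¬ NM (uni d c) x y) {x₀ : K} (hx₀ : FinOrb (uni d c) x₀) :
    ∃ w₀ : K, FinOrb (uni d c) w₀ ∧ uni d c w₀ = w₀ ∧
      ∀ x, FinOrb (uni d c) x → ∃ n, (uni d c)^[n] x = w₀ := by
  have flow : ∀ x, FinOrb (uni d c) x → ∃ n, uni d c ((uni d c)^[n] x) = (uni d c)^[n] x := by
    intro x hx
    obtain ⟨n, hn⟩ := merge_of (hno _ _ hx hx.map)
    refine ⟨n, ?_⟩
    have e1 := Function.iterate_succ_apply' (uni d c) n x
    have e2 := Function.iterate_succ_apply (uni d c) n x
    rw [← e1, e2, ← hn]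
  obtain ⟨n₀, hn₀⟩ := flow x₀ hx₀
  refine ⟨(uni d c)^[n₀] x₀, hx₀.iter n₀, hn₀, ?_⟩
  intro x hx
  obtain ⟨n, hn⟩ := flow x hx
  refine ⟨n, ?_⟩
  obtain ⟨m, hm⟩ := merge_of (hno _ _ (hx.iter n) (hx₀.iter n₀))
  have e1 : (uni d c)^[m] ((uni d c)^[n] x) = (uni d c)^[n] x := Function.iterate_fixed hn m
  have e2 : (uni d c)^[m] ((uni d c)^[n₀] x₀) = (uni d c)^[n₀] x₀ := Function.iterate_fixed hn₀ m
  rw [e1, e2] at hm
  exact hm

/-- a bound on tails of length two shows that everything maps to the fixed point at once -/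
theorem all_to_fixed {w₀ : K} (hall : ∀ x, FinOrb (uni d c) x → ∃ n, (uni d c)^[n] x = w₀)
    (hfix : uni d c w₀ = w₀)
    (h2 : ∀ u, FinOrb (uni d c) u → uni d c (uni d c u) = w₀ → uni d c u = w₀) :
    ∀ x, FinOrb (uni d c) x → uni d c x = w₀ := by
  have main : ∀ n : ℕ, ∀ x, FinOrb (uni d c) x → (uni d c)^[n] x = w₀ → uni d c x = w₀ := by
    intro n
    induction n with
    | zero =>
      intro x _ h
      simp only [Function.iterate_zero, id] at h
      rw [h, hfix]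
    | succ n ih =>
      intro x hx h
      rw [Function.iterate_succ_apply] at h
      exact h2 x hx (ih _ hx.map h)
  intro x hx
  obtain ⟨n, hn⟩ := hall x hx
  exact main n x hx hn

end Abs

variable {k : Type*} [Field k]

theorem poly_of_pow {z : RatFunc k} {n : ℕ} (hn : 0 < n) {N : k[X]}
    (h : z ^ n = algebraMap k[X] (RatFunc k) N) : ∃ Z : k[X], algebraMap k[X] (RatFunc k) Z = z :=
  IsIntegrallyClosed.exists_algebraMap_eq_of_isIntegral_pow (R := k[X]) hn (by
    rw [h]; exact isIntegral_algebraMap)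

/-- the Fermat–Catalan step -/
theorem catalan_const {e m : ℕ} (he : 2 ≤ e) (hm : 3 ≤ m) (hek : (e : k) ≠ 0)
    (hmk : (m : k) ≠ 0) {a b Z : k[X]} (ha : a ≠ 0) (hb : b ≠ 0) (hab : IsCoprime a b) {β : k}
    (hβ : β ≠ 0) (h : a * (a ^ m + C β * b ^ m) = Z ^ e) : a.natDegree = 0 ∧ b.natDegree = 0 := by
  have uβ : IsUnit (C β) := Polynomial.isUnit_C.mpr hβ.isUnit
  have hm1 : m = (m - 1) + 1 := by omega
  have cop1 : IsCoprime a (a ^ m + C β * b ^ m) := by
    have h1 : IsCoprime a (C β * b ^ m) :=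
      (isCoprime_mul_unit_left_right uβ _ _).mpr (hab.pow_right)
    have h2 : a ^ m + C β * b ^ m = C β * b ^ m + a * a ^ (m - 1) := by
      conv_lhs => rw [hm1, pow_succ, ← hm1]
      ring
    rw [h2]
    exact h1.add_mul_left_right _
  have cop2 : IsCoprime b (a ^ m + C β * b ^ m) := by
    have h1 : IsCoprime b (a ^ m) := hab.symm.pow_right
    have h2 : a ^ m + C β * b ^ m = a ^ m + b * (C β * b ^ (m - 1)) := by
      conv_lhs => rw [hm1, pow_succ b, ← hm1]
      ring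
    rw [h2]
    exact h1.add_mul_left_right _
  rcases eq_or_ne (a ^ m + C β * b ^ m) 0 with h0 | h0
  · rw [h0, isCoprime_zero_right] at cop1 cop2
    exact ⟨natDegree_eq_zero_of_isUnit cop1, natDegree_eq_zero_of_isUnit cop2⟩
  obtain ⟨a1, ua, ha1⟩ := exists_associated_pow_of_mul_eq_pow' cop1 h
  obtain ⟨b1, ub, hb1⟩ := exists_associated_pow_of_mul_eq_pow' cop1.symm
    (show (a ^ m + C β * b ^ m) * a = Z ^ e by rw [mul_comm]; exact h)
  obtain ⟨s, hs0, hs⟩ := Polynomial.isUnit_iff.mp ua.isUnit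
  obtain ⟨t, ht0, ht⟩ := Polynomial.isUnit_iff.mp ub.isUnit
  have hs1 : s ≠ 0 := hs0.ne_zero
  have ht1 : t ≠ 0 := ht0.ne_zero
  have ha1' : a1 ≠ 0 := by
    rintro rfl
    rw [zero_pow (by omega), zero_mul] at ha1
    exact ha ha1.symm
  have hb1' : b1 ≠ 0 := by
    rintro rfl
    rw [zero_pow (by omega), zero_mul] at hb1
    exact h0 hb1.symm
  have cab1 : IsCoprime a1 b := by
    rw [← ha1] at hab
    have := (IsCoprime.of_mul_left_left hab)
    exact (IsCoprime.pow_left_iff (by omega)).mp this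
  have heq : C (s ^ m) * a1 ^ (e * m) + C β * b ^ m + C (-t) * b1 ^ e = 0 := by
    have e1 : C (s ^ m) * a1 ^ (e * m) = a ^ m := by
      rw [← ha1, ← hs, mul_pow, pow_mul, C_pow]
      ring
    have e2 : C (-t) * b1 ^ e = -(a ^ m + C β * b ^ m) := by
      rw [← hb1, ← ht, C_neg]
      ring
    rw [e1, e2]
    ring
  have hfin := Polynomial.flt_catalan (k := k) (p := e * m) (q := m) (r := e)
    (by positivity) (by omega) (by omega) (by
      obtain ⟨e', rfl⟩ : ∃ e', e = e' + 2 := ⟨e - 2, by omega⟩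
      obtain ⟨m', rfl⟩ : ∃ m', m = m' + 3 := ⟨m - 3, by omega⟩
      nlinarith [Nat.zero_le (e' * m'), Nat.zero_le (e' * m' * m'), Nat.zero_le (e' * e' * m'),
        Nat.zero_le (e' * e' * m' * m'), Nat.zero_le (m' * m'), Nat.zero_le (e' * e')])
    (by push_cast; exact mul_ne_zero hek hmk) hmk hek ha1' hb hb1' cab1
    (pow_ne_zero m hs1) hβ (neg_ne_zero.mpr ht1) heq
  obtain ⟨g1, g2, -⟩ := hfin
  refine ⟨?_, g2⟩
  rw [← ha1, ← hs, mul_comm, natDegree_C_mul hs1, natDegree_pow, g1, mul_zero]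

theorem const_of_natDegree {y : RatFunc k} (h1 : y.num.natDegree = 0)
    (h2 : y.denom.natDegree = 0) : ∃ a : k, y = RatFunc.C a := by
  obtain ⟨a, ha⟩ := Polynomial.natDegree_eq_zero.mp h1
  have hb : y.denom = 1 := (Polynomial.Monic.natDegree_eq_zero y.monic_denom).mp h2
  refine ⟨a, ?_⟩
  conv_lhs => rw [← y.num_div_denom, ← ha, hb, map_one, div_one]
  rw [RatFunc.algebraMap_C]

section Tail

variable {p s e d : ℕ} [Fact p.Prime] [CharP k p] [IsAlgClosed k]

theorem tail (hs : 1 ≤ s) (he : 2 ≤ e) (hek : (e : k) ≠ 0) (hm : 3 ≤ p ^ s * e - 1)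
    (hde : d = p ^ s * e) {c w₀ u : RatFunc k} (hc : ∀ a : k, c ≠ RatFunc.C a)
    (hfix : uni d c w₀ = w₀) (hu : uni d c (uni d c u) = w₀) : uni d c u = w₀ := by
  have hd := two_le_d (p := p) hs (by omega : 1 ≤ e) hde
  have hp := (Fact.out : p.Prime)
  by_contra hne
  set q := p ^ s with hq
  have hq0 : 0 < q := pow_pos hp.pos s
  set v := uni d c u with hv
  have hw0 : w₀ ≠ 0 := by
    rintro rfl
    apply hc 0
    unfold uni at hfix
    rw [zero_pow (by omega), zero_add] at hfix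
    rw [hfix, map_zero]
  -- v ^ e = w₀ ^ e
  have hve : v ^ e = w₀ ^ e := by
    have h1 : v ^ d = w₀ ^ d := by
      unfold uni at hfix hu
      exact add_right_cancel (hu.trans hfix.symm)
    have h2 : (v ^ e - w₀ ^ e) ^ q = 0 := by
      rw [hq, sub_pow_char_pow, ← pow_mul, ← pow_mul, mul_comm e, ← hde, h1, sub_self]
    exact sub_eq_zero.mp (pow_eq_zero_iff (by omega) |>.mp h2)
  -- the root of unity
  have hζ : (v / w₀) ^ e = 1 := by rw [div_pow, hve, div_self (pow_ne_zero _ hw0)]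
  obtain ⟨Z, hZ⟩ := poly_of_pow (z := v / w₀) (by omega : 0 < e) (N := 1)
    (show (v / w₀) ^ e = algebraMap k[X] (RatFunc k) 1 by rw [map_one]; exact hζ)
  have hZe : Z ^ e = 1 := by
    apply RatFunc.algebraMap_injective k
    rw [map_pow, hZ, hζ, map_one]
  have hZu : IsUnit Z := IsUnit.of_pow_eq_one hZe (by omega)
  obtain ⟨z, hz0, hz⟩ := Polynomial.isUnit_iff.mp hZu
  have hvz : v = RatFunc.C z * w₀ := by
    rw [← RatFunc.algebraMap_C, hz, hZ, div_mul_cancel₀ _ hw0]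
  have hz1 : z - 1 ≠ 0 := by
    intro h
    apply hne
    rw [hvz, sub_eq_zero.mp h, map_one, one_mul]
  obtain ⟨β, hβ⟩ := IsAlgClosed.exists_pow_nat_eq (z - 1) hq0
  have hβ0 : β ≠ 0 := by
    rintro rfl
    rw [zero_pow (by omega)] at hβ
    exact hz1 hβ.symm
  have hCβ : (RatFunc.C β : RatFunc k) ≠ 0 := by
    rw [ne_eq, map_eq_zero]
    exact hβ0
  -- the main relation
  have hrel : (u ^ e - w₀ ^ e) ^ q = RatFunc.C (z - 1) * w₀ := by
    have h1 : u ^ d + c = v := rfl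
    have h2 : w₀ ^ d + c = w₀ := hfix
    rw [hq, sub_pow_char_pow, ← pow_mul, ← pow_mul, mul_comm e, ← hde]
    rw [map_sub, map_one, sub_mul, one_mul, ← hvz]
    linear_combination h1 - h2
  set y₀ := (u ^ e - w₀ ^ e) / RatFunc.C β with hy₀
  have hyq : y₀ ^ q = w₀ := by
    have hCz : (RatFunc.C (z - 1) : RatFunc k) ≠ 0 := by
      rw [ne_eq, map_eq_zero]
      exact hz1
    rw [hy₀, div_pow, hrel, ← map_pow, hβ, mul_comm, mul_div_assoc, div_self hCz, mul_one]
  have hy0 : y₀ ≠ 0 := by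
    intro h
    rw [h, zero_pow (by omega)] at hyq
    exact hw0 hyq.symm
  have hue : u ^ e = y₀ ^ (q * e) + RatFunc.C β * y₀ := by
    have h1 : RatFunc.C β * y₀ = u ^ e - w₀ ^ e := by
      rw [hy₀, mul_div_assoc', mul_comm, mul_div_assoc, div_self hCβ, mul_one]
    rw [h1, pow_mul, hyq]
    ring
  -- pass to polynomials
  set a := y₀.num with ha
  set b := y₀.denom with hb
  have hb0 : b ≠ 0 := y₀.denom_ne_zero
  have ha0 : a ≠ 0 := RatFunc.num_ne_zero hy0
  have hcop : IsCoprime a b := y₀.isCoprime_num_denom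
  have hB : algebraMap k[X] (RatFunc k) b ≠ 0 := RatFunc.algebraMap_ne_zero hb0
  have hy : y₀ * algebraMap k[X] (RatFunc k) b = algebraMap k[X] (RatFunc k) a := by
    conv_lhs => rw [← y₀.num_div_denom]
    rw [div_mul_cancel₀ _ hB]
  have hmm : q * e = (q * e - 1) + 1 := by omega
  have hpow : (u * algebraMap k[X] (RatFunc k) b ^ q) ^ e =
      algebraMap k[X] (RatFunc k) (a * (a ^ (q * e - 1) + C β * b ^ (q * e - 1))) := by
    rw [map_mul, map_add, map_pow, map_mul, map_pow, RatFunc.algebraMap_C, ← hy, mul_pow, hue,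
      ← pow_mul]
    generalize algebraMap k[X] (RatFunc k) b = B
    rw [hmm]
    simp only [Nat.add_sub_cancel]
    ring_nf
  obtain ⟨Z₀, hZ₀⟩ := poly_of_pow (by omega : 0 < e) hpow
  have hcat : a * (a ^ (q * e - 1) + C β * b ^ (q * e - 1)) = Z₀ ^ e := by
    apply RatFunc.algebraMap_injective k
    rw [← hpow, map_pow, hZ₀]
  have hmk : ((q * e - 1 : ℕ) : k) ≠ 0 := by
    rw [Nat.cast_sub (by omega), Nat.cast_one]
    have : ((q * e : ℕ) : k) = 0 := by
      rw [CharP.cast_eq_zero_iff k p, hq]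
      exact (dvd_pow_self p (by omega)).mul_right e
    rw [this, zero_sub]
    exact neg_ne_zero.mpr one_ne_zero
  obtain ⟨d1, d2⟩ := catalan_const he hm hek hmk ha0 hb0 hcop hβ0 hcat
  obtain ⟨r, hr⟩ := const_of_natDegree d1 d2
  apply hc (r ^ q - (r ^ q) ^ d)
  have h2 : w₀ ^ d + c = w₀ := hfix
  have h3 : c = w₀ - w₀ ^ d := by linear_combination h2
  rw [h3, ← hyq, hr]
  simp only [map_sub, map_pow]

end Tail

end H799Uni
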