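import Pool.Agent.H799R3.UniTail

namespace H799Uni

open Polynomial

/-! ### The arithmetic of the local estimate -/

/-- If `q ∣ μ`, `q ∣ s`, and the pair is congruent at a place, then `μ ≥ 2 q`. -/
theorem arith_excl {q μ s r t' : ℤ} (hq : 3 ≤ q) (hμ : 0 < μ) (hqμ : q ∣ μ) (hqs : q ∣ s)
    (h1 : q * (s + μ) = r) (hr' : (q - 1) * r ≥ -(q * μ))
    (h2 : r = μ ∨ t' = μ) (h3 : q * (r + t') ≤ μ) : 2 * q ≤ μ := by
  obtain ⟨j, hj⟩ := hqμ
  obtain ⟨s', hs'⟩ := hqs
  have hj1 : 1 ≤ j := by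
    by_contra h
    push Not at h
    have : j ≤ 0 := by omega
    nlinarith
  by_contra hlt
  push Not at hlt
  have hj2 : j = 1 := by
    have : j < 2 := by
      by_contra h
      push Not at h
      nlinarith
    omega
  subst hj2
  rw [mul_one] at hj
  subst hj
  subst hs'
  have h1' : r = μ * (μ * (s' + 1)) := by rw [← h1]; ring
  rcases h2 with h | h
  · have h4 : μ * (s' + 1) = 1 := by
      have h5 : μ * (μ * (s' + 1)) = μ * 1 := by rw [← h1', h]; ring
      exact mul_left_cancel₀ (by omega) h5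
    have : μ ∣ 1 := ⟨_, h4.symm⟩
    have := Int.le_of_dvd one_pos this
    omega
  · subst h
    have h6 : r + t' ≤ 1 := by
      by_contra h
      push Not at h
      nlinarith
    have h7 : s' + 1 < 0 := by
      by_contra h
      push Not at h
      have : 0 ≤ t' * (t' * (s' + 1)) := by positivity
      omega
    have h8 : s' + 1 ≤ -1 := by omega
    have h9 : r ≤ -(t' * t') := by
      rw [h1']
      have : t' * (t' * (s' + 1)) = (t' * t') * (s' + 1) := by ring
      rw [this]
      nlinarith [mul_pos hμ hμ]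
    nlinarith [mul_pos hμ hμ]

theorem arith_bound {q μ t : ℤ} (hq : 3 ≤ q) (hμ : 2 * q ≤ μ) (ht : (q - 1) * t ≥ -(q * μ)) :
    3 ≤ 2 * μ + t := by
  by_contra h
  push Not at h
  have h1 : 2 * μ + t ≤ 2 := by omega
  have h2 : (q - 1) * (2 * μ + t) ≤ (q - 1) * 2 := by nlinarith
  have h3 : (q - 2) * μ ≤ 2 * (q - 1) := by nlinarith
  have h4 : (q - 2) * (2 * q) ≤ (q - 2) * μ := by nlinarith
  nlinarith

section Two

variable {K : Type*} [Field K] {p s q d : ℕ} [Fact p.Prime] [CharP K p]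

theorem two_ne' (hp2 : p ≠ 2) : (2 : K) ≠ 0 := by
  have h : ((2 : ℕ) : K) ≠ 0 := by
    rw [ne_eq, CharP.cast_eq_zero_iff K p]
    intro h
    exact hp2 ((Nat.prime_dvd_prime_iff_eq (Fact.out : p.Prime) Nat.prime_two).mp h)
  simpa using h

/-- the logarithm of a `ℤᵐ⁰`-valued valuation -/
noncomputable def ell (v : Valuation K (WithZero (Multiplicative ℤ))) (z : K) : ℤ :=
  WithZero.log (v z)

variable (v : Valuation K (WithZero (Multiplicative ℤ)))

theorem ell_mul {a b : K} (ha : a ≠ 0) (hb : b ≠ 0) : ell v (a * b) = ell v a + ell v b := by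
  unfold ell
  rw [map_mul, WithZero.log_mul (v.ne_zero_iff.mpr ha) (v.ne_zero_iff.mpr hb)]

theorem ell_pow (a : K) (n : ℕ) : ell v (a ^ n) = n * ell v a := by
  unfold ell
  rw [map_pow, WithZero.log_pow, nsmul_eq_mul]

theorem ell_add {a b : K} (hab : a + b ≠ 0) (ha : a ≠ 0) (hb : b ≠ 0) :
    ell v (a + b) ≤ max (ell v a) (ell v b) := by
  unfold ell
  have h := v.map_add a b
  rcases le_max_iff.mp h with h | h
  · refine le_max_of_le_left ?_
    exact (WithZero.log_le_log (v.ne_zero_iff.mpr hab) (v.ne_zero_iff.mpr ha)).mpr h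
  · refine le_max_of_le_right ?_
    exact (WithZero.log_le_log (v.ne_zero_iff.mpr hab) (v.ne_zero_iff.mpr hb)).mpr h

theorem ell_neg (a : K) : ell v (-a) = ell v a := by
  unfold ell
  rw [v.map_neg]

theorem ell_sub {a b : K} (hab : a - b ≠ 0) (ha : a ≠ 0) (hb : b ≠ 0) :
    ell v (a - b) ≤ max (ell v a) (ell v b) := by
  rw [sub_eq_add_neg] at hab ⊢
  have := ell_add v hab ha (neg_ne_zero.mpr hb)
  rwa [ell_neg] at this

theorem ell_two (hp2 : p ≠ 2) : ell v (2 : K) = 0 := by
  have h0 : (2 : K) ≠ 0 := two_ne' (p := p) hp2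
  have h1 : (2 : K) ^ p = 2 := by
    have : (2 : K) = 1 + 1 := by norm_num
    rw [this, add_pow_char, one_pow]
  have h2 := congrArg (ell v) h1
  rw [ell_pow] at h2
  have h3 := (Fact.out : p.Prime).two_le
  have h4 : ((p : ℤ) - 1) * ell v (2 : K) = 0 := by linarith
  rcases mul_eq_zero.mp h4 with h | h
  · exfalso
    have : (p : ℤ) = 1 := by linarith
    have : p = 1 := by exact_mod_cast this
    omega
  · exact h

variable {c x y : K}

theorem fo_ne_zero (hd : 2 ≤ d) (hc : 1 < v c) (hx : FinOrb (uni d c) x) : x ≠ 0 := by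
  rintro rfl
  have := one_lt_val v hd hc hx
  rw [map_zero] at this
  exact absurd this (not_lt.mpr zero_le)

theorem ell_pos (hd : 2 ≤ d) (hc : 1 < v c) (hx : FinOrb (uni d c) x) : 0 < ell v x := by
  unfold ell
  have h := one_lt_val v hd hc hx
  rw [← WithZero.log_one (M := ℤ)]
  exact (WithZero.log_lt_log one_ne_zero (v.ne_zero_iff.mpr (fo_ne_zero v hd hc hx))).mpr h

theorem ell_eq (hd : 2 ≤ d) (hc : 1 < v c) (hx : FinOrb (uni d c) x)
    (hy : FinOrb (uni d c) y) : ell v x = ell v y := by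
  unfold ell
  rw [val_eq_val v hd hc hx hy]

theorem sub_ne_of_nm (hnm : NM (uni d c) x y) : x - y ≠ 0 := by
  have := hnm 0
  simp only [Function.iterate_zero, id] at this
  exact sub_ne_zero.mpr this

theorem neg_one_pow_d (hdq : d = q * 2) : (-1 : K) ^ d = 1 := by
  rw [hdq, mul_comm, pow_mul]
  norm_num

theorem nm_neg (hdq : d = q * 2) (hnm : NM (uni d c) x y) : NM (uni d c) x (-y) := by
  have := hnm.root (neg_one_pow_d (K := K) hdq)
  rwa [neg_one_mul] at this

theorem fo_neg (hdq : d = q * 2) (hy : FinOrb (uni d c) y) : FinOrb (uni d c) (-y) := by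
  have := hy.root (neg_one_pow_d (K := K) hdq)
  rwa [neg_one_mul] at this

theorem add_ne_of_nm (hdq : d = q * 2) (hnm : NM (uni d c) x y) : x + y ≠ 0 := by
  have := sub_ne_of_nm (nm_neg hdq hnm)
  rwa [sub_neg_eq_add] at this

theorem rel2 (hq : q = p ^ s) (hdq : d = q * 2) :
    uni d c x - uni d c y = ((x - y) * (x + y)) ^ q := by
  have h1 : (x - y) * (x + y) = x ^ 2 - y ^ 2 := by ring
  unfold uni
  rw [h1, hq, sub_pow_char_pow, ← pow_mul, ← pow_mul, mul_comm 2, ← hq, ← hdq]
  ring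

/-- the basic facts on a pair of points with finite orbits which never meet, at a bad place -/
theorem pair (hp2 : p ≠ 2) (hq : q = p ^ s) (hdq : d = q * 2) (hd : 2 ≤ d) (hc : 1 < v c)
    (hx : FinOrb (uni d c) x) (hy : FinOrb (uni d c) y) (hnm : NM (uni d c) x y) :
    ell v (x - y) ≤ ell v x ∧ ell v (x + y) ≤ ell v x ∧
      (ell v (x - y) = ell v x ∨ ell v (x + y) = ell v x) ∧
      q * (ell v (x - y) + ell v (x + y)) = ell v (uni d c x - uni d c y) ∧
      ell v (uni d c x - uni d c y) ≤ ell v x := by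
  have nx := fo_ne_zero v hd hc hx
  have ny := fo_ne_zero v hd hc hy
  have ns := sub_ne_of_nm hnm
  have nt := add_ne_of_nm hdq hnm
  have nr := sub_ne_of_nm hnm.map
  have e1 := ell_eq v hd hc hx hy
  have e2 := ell_eq v hd hc hx hx.map
  have e3 := ell_eq v hd hc hx hy.map
  have b1 : ell v (x - y) ≤ ell v x := by
    have := ell_sub v ns nx ny
    rwa [← e1, max_self] at this
  have b2 : ell v (x + y) ≤ ell v x := by
    have := ell_add v nt nx ny
    rwa [← e1, max_self] at this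
  refine ⟨b1, b2, ?_, ?_, ?_⟩
  · have h2x : ell v (2 * x) = ell v x := by
      rw [ell_mul v (two_ne' (p := p) hp2) nx, ell_two (p := p) v hp2, zero_add]
    have h : (x - y) + (x + y) = 2 * x := by ring
    have h3 := ell_add v (a := x - y) (b := x + y)
      (by rw [h]; exact mul_ne_zero (two_ne' (p := p) hp2) nx) ns nt
    rw [h, h2x] at h3
    rcases le_max_iff.mp h3 with h | h
    · left; exact le_antisymm b1 h
    · right; exact le_antisymm b2 h
  · rw [rel2 (p := p) hq hdq, ell_pow, ell_mul v ns nt]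
  · have := ell_sub v nr (fo_ne_zero v hd hc hx.map) (fo_ne_zero v hd hc hy.map)
    rwa [← e2, ← e3, max_self] at this

theorem q_ge (hp2 : p ≠ 2) (hs : 1 ≤ s) (hq : q = p ^ s) : 3 ≤ q := by
  have h := (Fact.out : p.Prime).two_le
  have h3 : 3 ≤ p := by omega
  calc 3 ≤ p := h3
    _ = p ^ 1 := (pow_one p).symm
    _ ≤ p ^ s := Nat.pow_le_pow_right (by omega) hs
    _ = q := hq.symm

/-- points with finite orbits are not too close to each other -/
theorem lower (hp2 : p ≠ 2) (hs : 1 ≤ s) (hq : q = p ^ s) (hdq : d = q * 2) (hd : 2 ≤ d)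
    (hc : 1 < v c)
    (hx : FinOrb (uni d c) x) (hy : FinOrb (uni d c) y) (hnm : NM (uni d c) x y) :
    ((q : ℤ) - 1) * ell v (x - y) ≥ -(q * ell v x) := by
  have hq3 : (3 : ℤ) ≤ q := by exact_mod_cast q_ge (p := p) hp2 hs hq
  have hμ := ell_pos v hd hc hx
  by_contra hcon
  push Not at hcon
  have nmi : ∀ n, NM (uni d c) ((uni d c)^[n] x) ((uni d c)^[n] y) := by
    intro n m
    rw [← Function.iterate_add_apply, ← Function.iterate_add_apply]
    exact hnm (m + n)
  have step : ∀ n, ((q : ℤ) - 1) * ell v ((uni d c)^[n] x - (uni d c)^[n] y) < -(q * ell v x) →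
      ell v ((uni d c)^[n + 1] x - (uni d c)^[n + 1] y) <
        ell v ((uni d c)^[n] x - (uni d c)^[n] y) := by
    intro n hn
    obtain ⟨-, -, g3, g4, -⟩ := pair (p := p) v hp2 hq hdq hd hc (hx.iter n) (hy.iter n) (nmi n)
    rw [← Function.iterate_succ_apply' (uni d c), ← Function.iterate_succ_apply' (uni d c)] at g4
    have e1 := ell_eq v hd hc (hx.iter n) hx
    rw [e1] at g3
    change _ = ell v ((uni d c)^[n + 1] x - (uni d c)^[n + 1] y) at g4
    rw [← g4]
    rcases g3 with g | g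
    · rw [g] at hn
      nlinarith
    · rw [g]
      nlinarith
  have main : ∀ n, ((q : ℤ) - 1) * ell v ((uni d c)^[n] x - (uni d c)^[n] y) < -(q * ell v x) := by
    intro n
    induction n with
    | zero => exact hcon
    | succ n ih =>
      have := step n ih
      nlinarith
  apply hx.not_strictAnti hy (fun a b => ell v (a - b))
  exact strictAnti_nat_of_succ_lt (fun n => step n (main n))

/-- the local estimate at a bad place -/
theorem local_bound (hp2 : p ≠ 2) (hs : 1 ≤ s) (hq : q = p ^ s) (hdq : d = q * 2) (hd : 2 ≤ d)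
    (hc : 1 < v c) {z₁ z₂ z₃ : K}
    (h₁ : FinOrb (uni d c) z₁) (h₂ : FinOrb (uni d c) z₂) (h₃ : FinOrb (uni d c) z₃)
    (n₁₂ : NM (uni d c) z₁ z₂) (n₂₃ : NM (uni d c) z₂ z₃) (n₁₃ : NM (uni d c) z₁ z₃) :
    3 ≤ max (ell v (uni d c z₁ + uni d c z₂)) (max (ell v (uni d c z₂ - uni d c z₃))
        (ell v (uni d c z₁ + uni d c z₃))) +
      max (ell v (uni d c z₁ + uni d c z₂)) (max (ell v (uni d c z₂ + uni d c z₃))
        (ell v (uni d c z₁ - uni d c z₃))) +
      max (ell v (uni d c z₁ - uni d c z₂)) (max (ell v (uni d c z₂ + uni d c z₃))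
        (ell v (uni d c z₁ + uni d c z₃))) := by
  have hq3 : (3 : ℤ) ≤ q := by exact_mod_cast q_ge (p := p) hp2 hs hq
  -- general facts on a pair of image points
  have facts : ∀ a b : K, FinOrb (uni d c) a → FinOrb (uni d c) b → NM (uni d c) a b →
      (ell v (uni d c a - uni d c b) ≤ ell v z₁ ∧ ell v (uni d c a + uni d c b) ≤ ell v z₁) ∧
      (ell v (uni d c a - uni d c b) = ell v z₁ ∨ ell v (uni d c a + uni d c b) = ell v z₁) ∧
      ((q : ℤ) ∣ ell v (uni d c a - uni d c b)) ∧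
      ((q : ℤ) - 1) * ell v (uni d c a + uni d c b) ≥ -(q * ell v z₁) ∧
      ((q : ℤ) ∣ ell v z₁ → ell v (uni d c a + uni d c b) = ell v z₁ →
        2 * (q : ℤ) ≤ ell v z₁) := by
    intro a b ha hb hab
    obtain ⟨a1, a2, a3, a4, a5⟩ := pair (p := p) v hp2 hq hdq hd hc ha.map hb.map hab.map
    obtain ⟨b1, b2, b3, b4, b5⟩ :=
      pair (p := p) v hp2 hq hdq hd hc ha.map.map hb.map.map hab.map.map
    obtain ⟨-, -, -, c4, -⟩ := pair (p := p) v hp2 hq hdq hd hc ha hb hab
    have e1 := ell_eq v hd hc ha.map h₁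
    have e2 := ell_eq v hd hc ha.map.map h₁
    have hlow := lower (p := p) v hp2 hs hq hdq hd hc ha.map (fo_neg hdq hb.map)
      (nm_neg hdq hab.map)
    have hlow2 := lower (p := p) v hp2 hs hq hdq hd hc ha.map.map hb.map.map hab.map.map
    rw [sub_neg_eq_add] at hlow
    rw [e1] at a1 a2 a3 a5 hlow
    rw [e2] at b1 b2 b3 b5 hlow2
    have hdvd : (q : ℤ) ∣ ell v (uni d c a - uni d c b) := ⟨_, c4.symm⟩
    refine ⟨⟨a1, a2⟩, a3, hdvd, hlow, ?_⟩
    intro hqμ ht
    refine arith_excl (s := ell v (uni d c a - uni d c b))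
      (r := ell v (uni d c (uni d c a) - uni d c (uni d c b)))
      (t' := ell v (uni d c (uni d c a) + uni d c (uni d c b))) hq3 (ell_pos v hd hc h₁) hqμ hdvd
      ?_ hlow2 b3 ?_
    · rw [← a4, ht]
    · rw [b4]
      exact b5
  obtain ⟨⟨u1, u2⟩, u3, u4, u5, u6⟩ := facts z₁ z₂ h₁ h₂ n₁₂
  obtain ⟨⟨v1, v2⟩, v3, v4, v5, v6⟩ := facts z₂ z₃ h₂ h₃ n₂₃
  obtain ⟨⟨w1, w2⟩, w3, w4, w5, w6⟩ := facts z₁ z₃ h₁ h₃ n₁₃
  have hμ := ell_pos v hd hc h₁
  have key : ell v (uni d c z₁ + uni d c z₂) < ell v z₁ →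
      ell v (uni d c z₁ + uni d c z₃) < ell v z₁ →
      ell v (uni d c z₂ - uni d c z₃) < ell v z₁ := by
    intro g1 g2
    have e : (uni d c z₁ + uni d c z₂) - (uni d c z₁ + uni d c z₃) =
        uni d c z₂ - uni d c z₃ := by ring
    have := ell_sub v (a := uni d c z₁ + uni d c z₂) (b := uni d c z₁ + uni d c z₃)
      (by rw [e]; exact sub_ne_of_nm n₂₃.map) (add_ne_of_nm hdq n₁₂.map)
      (add_ne_of_nm hdq n₁₃.map)
    rw [e] at this
    exact this.trans_lt (max_lt g1 g2)
  generalize ell v (uni d c z₁ + uni d c z₂) = t12 at *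
  generalize ell v (uni d c z₂ + uni d c z₃) = t23 at *
  generalize ell v (uni d c z₁ + uni d c z₃) = t13 at *
  generalize ell v (uni d c z₁ - uni d c z₂) = s12 at *
  generalize ell v (uni d c z₂ - uni d c z₃) = s23 at *
  generalize ell v (uni d c z₁ - uni d c z₃) = s13 at *
  generalize ell v z₁ = μ at *
  have m1 : t12 ≤ max t12 (max s23 t13) := le_max_left _ _
  have m2 : t13 ≤ max t12 (max s23 t13) := le_max_of_le_right (le_max_right _ _)
  have m3 : t12 ≤ max t12 (max t23 s13) := le_max_left _ _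
  have m4 : t23 ≤ max t12 (max t23 s13) := le_max_of_le_right (le_max_left _ _)
  have m5 : t23 ≤ max s12 (max t23 t13) := le_max_of_le_right (le_max_left _ _)
  have m6 : t13 ≤ max s12 (max t23 t13) := le_max_of_le_right (le_max_right _ _)
  by_cases hall : t12 = μ ∧ t23 = μ ∧ t13 = μ
  · obtain ⟨g1, g2, g3⟩ := hall
    omega
  · -- some pair is separated
    have hqμ : (q : ℤ) ∣ μ := by
      rcases u3 with g | g
      · rw [← g]; exact u4
      rcases v3 with g' | g'
      · rw [← g']; exact v4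
      rcases w3 with g'' | g''
      · rw [← g'']; exact w4
      exact absurd ⟨g, g', g''⟩ hall
    have hsome : t12 = μ ∨ t23 = μ ∨ t13 = μ := by
      by_contra hno
      push Not at hno
      obtain ⟨g1, g2, g3⟩ := hno
      have := key (lt_of_le_of_ne u2 g1) (lt_of_le_of_ne w2 g3)
      rcases v3 with g | g
      · omega
      · exact g2 g
    rcases hsome with g | g | g
    · have hμ2 := u6 hqμ g
      have := arith_bound hq3 hμ2 v5
      omega
    · have hμ2 := v6 hqμ g
      have := arith_bound hq3 hμ2 u5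
      omega
    · have hμ2 := w6 hqμ g
      have := arith_bound hq3 hμ2 u5
      omega

end Two

end H799Uni
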