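import Pool.Agent.H799R3.UniTwoTail
import Pool.Agent.H799R3.UniMain

namespace H799Uni

open Polynomial IsDedekindDomain

section

variable {k : Type*} [Field k] {p s q d : ℕ} [Fact p.Prime] [CharP k p]

theorem pthp_of_sq (hp2 : p ≠ 2) {u : RatFunc k} (h : u ^ 2 ∈ pthp k p) : u ∈ pthp k p := by
  rcases eq_or_ne u 0 with rfl | hu
  · exact zero_mem _
  obtain ⟨m, hm⟩ := (Fact.out : p.Prime).odd_of_ne_two hp2
  have h1 : u = u ^ p / (u ^ 2) ^ m := by
    rw [eq_div_iff (pow_ne_zero _ (pow_ne_zero _ hu)), ← pow_mul, hm, pow_succ]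
    ring
  rw [h1]
  exact div_mem (mem_pthp.mpr ⟨u, rfl⟩) (pow_mem h m)

theorem two_pow_p : (2 : RatFunc k) ^ p = 2 := by
  have : (2 : RatFunc k) = 1 + 1 := by norm_num
  rw [this, add_pow_char, one_pow]

theorem pth_inj {a b : RatFunc k} (h : a ^ p = b ^ p) : a = b :=
  (frobenius (RatFunc k) p).injective h

theorem neg_two_pow (hq : q = p ^ s) : (-2 : RatFunc k) ^ q = -2 := by
  have h1 : (-2 : RatFunc k) = 0 - (1 + 1) := by norm_num
  have hq0 : q ≠ 0 := by rw [hq]; exact pow_ne_zero _ (Fact.out : p.Prime).ne_zero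
  rw [h1, hq, sub_pow_char_pow, add_pow_char_pow, one_pow, zero_pow (by rwa [← hq])]

variable [IsAlgClosed k]

theorem tail_eq_all (hp2 : p ≠ 2) (hs : 1 ≤ s) (hq : q = p ^ s) (hdq : d = q * 2) (hd : 2 ≤ d)
    (V : Valuation (RatFunc k) (WithZero (Multiplicative ℤ))) :
    ∀ (n : ℕ) (c : RatFunc k), 1 < V c → ell V c ≤ n → ∀ x y u : RatFunc k,
      x ∈ Function.periodicPts (uni d c) → uni d c x = y → u ^ 2 = x ^ d - 2 * y → False := by
  intro n
  induction n with
  | zero =>
    intro c hc hn x y u _ _ _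
    have h1 : 0 < ell V c := by
      unfold ell
      rw [← WithZero.log_one (M := ℤ)]
      exact (WithZero.log_lt_log one_ne_zero (zero_lt_one.trans hc).ne').mpr hc
    push_cast at hn
    omega
  | succ n ih =>
    intro c hc hn x y u hx hxy hu
    by_cases hcp : c ∈ pthp k p
    · obtain ⟨c₁, rfl⟩ := mem_pthp.mp hcp
      obtain ⟨g1, g2⟩ := root_bad V n (Fact.out : p.Prime).two_le hc hn
      obtain ⟨x₁, hx₁, rfl⟩ := per_root hs hq hdq hx
      have hy : y = (uni d c₁ x₁) ^ p := by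
        rw [← hxy]
        unfold uni
        rw [add_pow_char, ← pow_mul, ← pow_mul, mul_comm p d]
      have hu1 : u ^ 2 = (x₁ ^ d - 2 * uni d c₁ x₁) ^ p := by
        rw [hu, hy, sub_pow_char, mul_pow, two_pow_p, ← pow_mul, ← pow_mul, mul_comm p d]
      have hu2 : u ∈ pthp k p := pthp_of_sq hp2 (mem_pthp.mpr ⟨_, hu1.symm⟩)
      obtain ⟨u₁, rfl⟩ := mem_pthp.mp hu2
      refine ih c₁ g1 g2 x₁ (uni d c₁ x₁) u₁ hx₁ rfl ?_
      apply pth_inj (p := p)
      rw [← hu1, ← pow_mul, ← pow_mul, mul_comm]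
    · refine tail_eq hp2 hs hq hdq hd hcp (per_fo hx) (fo_ne_zero V hd hc (per_fo hx)) ?_ hxy hu
      rw [← hxy]
      exact fo_ne_zero V hd hc (per_fo hx).map

/-- there are no tails of length two -/
theorem no_long_tail (hp2 : p ≠ 2) (hs : 1 ≤ s) (hq : q = p ^ s) (hdq : d = q * 2) (hd : 2 ≤ d)
    (V : Valuation (RatFunc k) (WithZero (Multiplicative ℤ))) {c : RatFunc k} (hc : 1 < V c)
    {u : RatFunc k} (hu : uni d c (uni d c u) ∈ Function.periodicPts (uni d c)) :
    uni d c u ∈ Function.periodicPts (uni d c) := by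
  have hq0 : q ≠ 0 := by rw [hq]; exact pow_ne_zero _ (Fact.out : p.Prime).ne_zero
  by_contra hnot
  obtain ⟨y, hyP, hy⟩ := per_pre hu
  obtain ⟨x, hxP, hx⟩ := per_pre hyP
  obtain ⟨x', -, hx'⟩ := per_pre hxP
  -- `f u = - y`
  have h1 : uni d c u = -y := by
    have e1 : y ^ d = (uni d c u) ^ d := by
      have : y ^ d + c = (uni d c u) ^ d + c := hy
      exact add_right_cancel this
    have e2 : ((uni d c u) ^ 2 - y ^ 2) ^ q = 0 := by
      rw [hq, sub_pow_char_pow, ← pow_mul, ← pow_mul, mul_comm 2, ← hq, ← hdq, e1, sub_self]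
    have e3 : (uni d c u) ^ 2 = y ^ 2 := sub_eq_zero.mp (eq_zero_of_pow_eq_zero e2)
    rcases sq_eq_sq_iff_eq_or_eq_neg.mp e3 with h | h
    · exfalso
      apply hnot
      rw [h]
      exact hyP
    · exact h
  have hK2 : (2 : RatFunc k) ≠ 0 := two_ne' (K := RatFunc k) (p := p) hp2
  have h2 : (u ^ 2 - x ^ 2) ^ q = -2 * y := by
    rw [hq, sub_pow_char_pow, ← pow_mul, ← pow_mul, mul_comm 2, ← hq, ← hdq]
    unfold uni at h1 hx
    linear_combination h1 - hx
  set η := (u ^ 2 - x ^ 2) / (-2) with hη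
  have hηq : η ^ q = y := by
    rw [hη, div_pow, h2, neg_two_pow hq, neg_mul, neg_div_neg_eq, mul_div_assoc, mul_div_cancel₀]
    exact hK2
  have hue : u ^ 2 = x ^ 2 - 2 * η := by
    rw [hη]
    field_simp
    ring
  set c₀ := η - x ^ 2 with hc₀
  have hc₀q : c₀ ^ q = c := by
    rw [hc₀, hq, sub_pow_char_pow, ← pow_mul, mul_comm 2, ← hq, ← hdq, hηq]
    unfold uni at hx
    linear_combination -hx
  set ξ := x' ^ 2 + c₀ with hξ
  have hξq : ξ ^ q = x := by
    rw [hξ, hq, add_pow_char_pow, ← pow_mul, mul_comm 2, ← hq, ← hdq, hc₀q]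
    exact hx'
  have hφ : ∀ z : RatFunc k, iterateFrobenius (RatFunc k) p s z = z ^ q := by
    intro z
    rw [iterateFrobenius_def, hq]
  have hξP : ξ ∈ Function.periodicPts (uni d c₀) := by
    apply per_of_hom (iterateFrobenius (RatFunc k) p s)
    rw [hφ, hφ, hξq, hc₀q]
    exact hxP
  have hξη : uni d c₀ ξ = η := by
    apply (iterateFrobenius (RatFunc k) p s).injective
    rw [hφ, hφ, hηq, ← hx]
    unfold uni
    rw [hq, add_pow_char_pow, ← hq, hc₀q, ← pow_mul, mul_comm d q, pow_mul, hξq]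
  have hV : 1 < V c₀ := by
    by_contra h
    push Not at h
    rw [← hc₀q, map_pow] at hc
    exact absurd (pow_le_one₀ zero_le h) (not_le.mpr hc)
  refine tail_eq_all hp2 hs hq hdq hd V (ell V c₀).toNat c₀ hV (Int.self_le_toNat _) ξ η u hξP hξη
    ?_
  rw [hue, hdq, pow_mul, hξq]

theorem image_periodic (hp2 : p ≠ 2) (hs : 1 ≤ s) (hq : q = p ^ s) (hdq : d = q * 2)
    (hd : 2 ≤ d)
    (V : Valuation (RatFunc k) (WithZero (Multiplicative ℤ))) {c : RatFunc k} (hc : 1 < V c)
    {x : RatFunc k} (hx : FinOrb (uni d c) x) : uni d c x ∈ Function.periodicPts (uni d c) := by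
  have main : ∀ n : ℕ, ∀ z : RatFunc k, (uni d c)^[n] z ∈ Function.periodicPts (uni d c) →
      uni d c z ∈ Function.periodicPts (uni d c) := by
    intro n
    induction n with
    | zero => intro z hz; exact per_map hz
    | succ n ih =>
      intro z hz
      rw [Function.iterate_succ_apply] at hz
      exact no_long_tail hp2 hs hq hdq hd V hc (ih _ hz)
  obtain ⟨n, hn⟩ := exists_per_iter hx
  exact main n x hn

theorem exists_bad {c : RatFunc k} (hc : ∀ a : k, c ≠ RatFunc.C a) :
    ∃ V : Valuation (RatFunc k) (WithZero (Multiplicative ℤ)), 1 < V c := by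
  classical
  by_contra h
  push Not at h
  obtain ⟨P, hP⟩ := HeightOneSpectrum.mem_integers_of_valuation_le_one (R := k[X]) (RatFunc k) c
    (fun v => h _)
  rcases eq_or_ne P 0 with rfl | hP0
  · apply hc 0
    rw [← hP]
    simp
  · have h2 := h (RatFunc.inftyValuation k)
    rw [← hP, infty_poly hP0] at h2
    have h3 : ((P.natDegree : ℕ) : ℤ) ≤ 0 := by
      rw [← WithZero.exp_zero, WithZero.exp_le_exp] at h2
      exact h2
    obtain ⟨b, hb⟩ := Polynomial.natDegree_eq_zero.mp (show P.natDegree = 0 by omega)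
    apply hc b
    rw [← hP, ← hb, RatFunc.algebraMap_C]

theorem encard_two_closed (hp2 : p ≠ 2) (hs : 1 ≤ s) (hde : d = p ^ s * 2)
    {c : RatFunc k} (hc : ∀ a : k, c ≠ RatFunc.C a) :
    {x : RatFunc k | FinOrb (uni d c) x}.encard ≤ 4 := by
  classical
  have hd := two_le_d (p := p) hs (by norm_num : 1 ≤ 2) hde
  obtain ⟨V, hV⟩ := exists_bad hc
  have h3 := three_periodic (q := p ^ s) hp2 hs rfl hde hd V (ell V c).toNat c hV
    (Int.self_le_toNat _)
  rcases Set.eq_empty_or_nonempty (Function.periodicPts (uni d c)) with he | ⟨a, ha⟩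
  · have : {x : RatFunc k | FinOrb (uni d c) x} = ∅ := by
      ext x
      simp only [Set.mem_setOf_eq, Set.mem_empty_iff_false, iff_false]
      intro hx
      have := image_periodic hp2 hs rfl hde hd V hV hx
      rw [he] at this
      exact this
    rw [this]; simp
  obtain ⟨b, hab⟩ : ∃ b, ∀ x ∈ Function.periodicPts (uni d c), x = a ∨ x = b := by
    by_cases hall : ∀ x ∈ Function.periodicPts (uni d c), x = a
    · exact ⟨a, fun x hx => Or.inl (hall x hx)⟩
    · push Not at hall
      obtain ⟨b, hb, hba⟩ := hall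
      refine ⟨b, fun x hx => ?_⟩
      by_contra hno
      push Not at hno
      exact h3 x a b hx ha hb hno.1 hba.symm hno.2
  have hsub : {x : RatFunc k | FinOrb (uni d c) x} ⊆ (({a, -a, b, -b} : Finset (RatFunc k)) :
      Set (RatFunc k)) := by
    intro x hx
    have h1 := image_periodic hp2 hs rfl hde hd V hV hx
    obtain ⟨y, hy, hyx⟩ := per_pre h1
    have e1 : y ^ d = x ^ d := by
      have : y ^ d + c = x ^ d + c := hyx
      exact add_right_cancel this
    have e2 : (x ^ 2 - y ^ 2) ^ (p ^ s) = 0 := by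
      rw [sub_pow_char_pow, ← pow_mul, ← pow_mul, mul_comm 2, ← hde, e1, sub_self]
    have e3 : x ^ 2 = y ^ 2 := sub_eq_zero.mp (eq_zero_of_pow_eq_zero e2)
    simp only [Finset.coe_insert, Finset.coe_singleton, Set.mem_insert_iff,
      Set.mem_singleton_iff]
    rcases sq_eq_sq_iff_eq_or_eq_neg.mp e3 with h | h <;> rcases hab y hy with g | g <;>
      subst g <;> simp [h]
  refine (Set.encard_le_encard hsub).trans ?_
  rw [Set.encard_coe_eq_coe_finsetCard]
  exact_mod_cast Finset.card_le_four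

end

theorem encard_two_general {k : Type*} [Field k] {p s d : ℕ} [Fact p.Prime] [CharP k p]
    (hp2 : p ≠ 2) (hs : 1 ≤ s) 
    (hde : d = p ^ s * 2) {c : RatFunc k} (hc : ∀ a : k, c ≠ RatFunc.C a) :
    {x : RatFunc k | FinOrb (uni d c) x}.encard ≤ 4 := by
  have : CharP (AlgebraicClosure k) p :=
    charP_of_injective_algebraMap (algebraMap k (AlgebraicClosure k)).injective p
  have h1 := encard_two_closed (k := AlgebraicClosure k) (p := p) hp2 hs hde
    (c := bc (L := AlgebraicClosure k) c) (by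
      intro a ha
      obtain ⟨b, hb⟩ := bc_const ha
      exact hc b hb)
  have h2 : (bc (L := AlgebraicClosure k)) '' {x : RatFunc k | FinOrb (uni d c) x} ⊆
      {x : RatFunc (AlgebraicClosure k) |
        FinOrb (uni d (bc (L := AlgebraicClosure k) c)) x} := by
    rintro _ ⟨x, hx, rfl⟩
    exact FinOrb.hom _ hx
  rw [← (bc (k := k) (L := AlgebraicClosure k)).injective.injOn.encard_image]
  exact (Set.encard_le_encard h2).trans h1

end H799Uni
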