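import Pool.Agent.H799R3.UniTwoLocal

namespace H799Uni

open Polynomial IsDedekindDomain UniqueFactorizationMonoid

theorem exists_gcd_cop {k : Type*} [Field k] {A : k[X]} (B : k[X]) (hA : A ≠ 0) :
    ∃ G A1 B1 : k[X], G ≠ 0 ∧ A = G * A1 ∧ B = G * B1 ∧ IsCoprime A1 B1 := by
  classical
  obtain ⟨A1, hA1⟩ := EuclideanDomain.gcd_dvd_left A B
  obtain ⟨B1, hB1⟩ := EuclideanDomain.gcd_dvd_right A B
  have hG : EuclideanDomain.gcd A B ≠ 0 := by
    intro h
    rw [h, zero_mul] at hA1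
    exact hA hA1
  refine ⟨EuclideanDomain.gcd A B, A1, B1, hG, hA1, hB1, ?_⟩
  have h := EuclideanDomain.gcd_eq_gcd_ab A B
  refine ⟨EuclideanDomain.gcdA A B, EuclideanDomain.gcdB A B, ?_⟩
  apply mul_left_cancel₀ hG
  generalize EuclideanDomain.gcdA A B = u at *
  generalize EuclideanDomain.gcdB A B = t at *
  generalize EuclideanDomain.gcd A B = G at *
  linear_combination -h - u * hA1 - t * hB1

section

variable {k : Type*} [Field k] {p s q d : ℕ} [Fact p.Prime] [CharP k p] [IsAlgClosed k]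

theorem exists_root_of_deriv {f : k[X]} (hf : derivative f = 0) : ∃ g : k[X], g ^ p = f := by
  have hp := (Fact.out : p.Prime)
  have h1 := expand_contract p hf hp.ne_zero
  refine ⟨(contract p f).map (frobeniusEquiv k p).symm, ?_⟩
  rw [← map_frobenius_expand p, ← map_expand, map_map]
  conv_rhs => rw [← h1]
  have : (frobenius k p).comp ((frobeniusEquiv k p).symm : k →+* k) = RingHom.id k := by
    ext x
    simp
  rw [this, Polynomial.map_id]

theorem ell_poly_nonpos (v : HeightOneSpectrum k[X]) {P : k[X]} (hP : P ≠ 0) :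
    ell (v.valuation (RatFunc k)) (algebraMap k[X] (RatFunc k) P) ≤ 0 := by
  unfold ell
  rw [← WithZero.log_one (M := ℤ)]
  refine (WithZero.log_le_log ?_ one_ne_zero).mpr (val_poly_le v P)
  exact (Valuation.ne_zero_iff _).mpr (RatFunc.algebraMap_ne_zero hP)

theorem ell_dvd (v : HeightOneSpectrum k[X]) {G P : k[X]} (hP : P ≠ 0) (hGP : G ∣ P) :
    ell (v.valuation (RatFunc k)) (algebraMap k[X] (RatFunc k) P) ≤
      ell (v.valuation (RatFunc k)) (algebraMap k[X] (RatFunc k) G) := by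
  obtain ⟨T, rfl⟩ := hGP
  have hG : G ≠ 0 := left_ne_zero_of_mul hP
  have hT : T ≠ 0 := right_ne_zero_of_mul hP
  rw [map_mul, ell_mul _ (RatFunc.algebraMap_ne_zero hG) (RatFunc.algebraMap_ne_zero hT)]
  have := ell_poly_nonpos v hT
  linarith

/-- a squarefree polynomial has valuation at least `exp (-1)` everywhere -/
theorem ell_squarefree (v : HeightOneSpectrum k[X]) {R : k[X]} (hR : Squarefree R) :
    -1 ≤ ell (v.valuation (RatFunc k)) (algebraMap k[X] (RatFunc k) R) := by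
  have hR0 : R ≠ 0 := hR.ne_zero
  by_contra hlt
  push Not at hlt
  have h1 : ell (v.valuation (RatFunc k)) (algebraMap k[X] (RatFunc k) R) ≤ -((2 : ℕ) : ℤ) := by
    push_cast
    omega
  unfold ell at h1
  rw [WithZero.log_le_iff_le_exp
    ((Valuation.ne_zero_iff _).mpr (RatFunc.algebraMap_ne_zero hR0)),
    HeightOneSpectrum.valuation_of_algebraMap, HeightOneSpectrum.intValuation_le_pow_iff_mem] at h1
  obtain ⟨P, hP⟩ := (IsPrincipalIdealRing.principal v.asIdeal).principal
  rw [Ideal.submodule_span_eq] at hP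
  rw [hP, Ideal.span_singleton_pow, Ideal.mem_span_singleton, pow_two] at h1
  have hu := hR P h1
  apply v.isPrime.ne_top
  rw [hP]
  exact Ideal.span_singleton_eq_top.mpr hu

/-- a polynomial all of whose prime factors divide `w` is a unit at the places not dividing `w` -/
theorem ell_of_primes (v : HeightOneSpectrum k[X]) {R w : k[X]} (hR0 : R ≠ 0)
    (h : ∀ P, Prime P → P ∣ R → P ∣ w)
    (hv : (v.valuation (RatFunc k)) (algebraMap k[X] (RatFunc k) w) = 1) :
    ell (v.valuation (RatFunc k)) (algebraMap k[X] (RatFunc k) R) = 0 := by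
  have h1 : (v.valuation (RatFunc k)) (algebraMap k[X] (RatFunc k) R) = 1 := by
    refine le_antisymm (val_poly_le v R) ?_
    by_contra hlt
    push Not at hlt
    have hmem := (v.valuation_lt_one_iff_mem (K := RatFunc k) R).mp hlt
    obtain ⟨P, hP⟩ := (IsPrincipalIdealRing.principal v.asIdeal).principal
    rw [Ideal.submodule_span_eq] at hP
    have hP0 : P ≠ 0 := by
      rintro rfl
      apply v.ne_bot
      rw [hP]
      simp
    have hPp : Prime P := by
      rw [← Ideal.span_singleton_prime hP0, ← hP]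
      exact v.isPrime
    rw [hP, Ideal.mem_span_singleton] at hmem
    have hw := h P hPp hmem
    have h3 : w ∈ v.asIdeal := by rw [hP, Ideal.mem_span_singleton]; exact hw
    have h4 := (v.valuation_lt_one_iff_mem (K := RatFunc k) w).mpr h3
    change (v.valuation (RatFunc k)) (algebraMap k[X] (RatFunc k) w) < 1 at h4
    rw [hv] at h4
    exact lt_irrefl _ h4
  unfold ell
  rw [h1, WithZero.log_one]

/-- p-th powers form a subfield -/
noncomputable def pthp (k : Type*) [Field k] (p : ℕ) [Fact p.Prime] [CharP k p] :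
    Subfield (RatFunc k) := (frobenius (RatFunc k) p).fieldRange

omit [IsAlgClosed k] in
theorem mem_pthp {z : RatFunc k} : z ∈ pthp k p ↔ ∃ y, y ^ p = z := by
  unfold pthp
  rw [RingHom.mem_fieldRange]
  rfl

omit [IsAlgClosed k] in
theorem two_mem_pthp : (2 : RatFunc k) ∈ pthp k p := by
  have : (1 : RatFunc k) + 1 ∈ pthp k p := add_mem (one_mem _) (one_mem _)
  rwa [one_add_one_eq_two] at this

/-- the Mason–Stothers step for a triple of image points -/
theorem mason (hp2 : p ≠ 2) (hs : 1 ≤ s) (hq : q = p ^ s) (hdq : d = q * 2) (hd : 2 ≤ d)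
    {c : RatFunc k} (hcp : c ∉ pthp k p) {w : k[X]} (hw : Den d c w) {z₁ z₂ z₃ : RatFunc k}
    (h₁ : FinOrb (uni d c) z₁) (h₂ : FinOrb (uni d c) z₂) (h₃ : FinOrb (uni d c) z₃)
    (n₁₂ : NM (uni d c) z₁ z₂) (n₂₃ : NM (uni d c) z₂ z₃) (n₁₃ : NM (uni d c) z₁ z₃)
    {X₁ X₂ X₃ : k[X]}
    (hX₁ : algebraMap k[X] (RatFunc k) X₁ = algebraMap k[X] (RatFunc k) w * uni d c z₁)
    (hX₂ : algebraMap k[X] (RatFunc k) X₂ = algebraMap k[X] (RatFunc k) w * uni d c z₂)
    (hX₃ : algebraMap k[X] (RatFunc k) X₃ = algebraMap k[X] (RatFunc k) w * uni d c z₃) :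
    ∃ G R : k[X], G ≠ 0 ∧ R ≠ 0 ∧ G ∣ X₁ - X₂ ∧ G ∣ X₂ + X₃ ∧ G ∣ X₁ + X₃ ∧
      (X₁ - X₂).natDegree + 1 ≤ G.natDegree + R.natDegree ∧
      (X₂ + X₃).natDegree + 1 ≤ G.natDegree + R.natDegree ∧
      (X₁ + X₃).natDegree + 1 ≤ G.natDegree + R.natDegree ∧
      (∀ v : HeightOneSpectrum k[X],
        -1 ≤ ell (v.valuation (RatFunc k)) (algebraMap k[X] (RatFunc k) R)) ∧
      (∀ v : HeightOneSpectrum k[X], v.valuation (RatFunc k) c ≤ 1 →
        ell (v.valuation (RatFunc k)) (algebraMap k[X] (RatFunc k) R) = 0) := by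
  classical
  have hde : d = p ^ s * 2 := by rw [hdq, hq]
  have W0 : algebraMap k[X] (RatFunc k) w ≠ 0 := RatFunc.algebraMap_ne_zero hw.ne
  have r1 : (1 : k) ^ 2 = 1 := one_pow 2
  have r2 : (-1 : k) ^ 2 = 1 := by norm_num
  -- the three linear forms
  have eA : lin X₁ X₂ 1 = X₁ - X₂ := by unfold lin; rw [C_1, one_mul]
  have eB : lin X₂ X₃ (-1) = X₂ + X₃ := by unfold lin; rw [C_neg, C_1]; ring
  have eC : lin X₁ X₃ (-1) = X₁ + X₃ := by unfold lin; rw [C_neg, C_1]; ring
  have nA : X₁ - X₂ ≠ 0 := by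
    rw [← eA]; exact lin_ne (p := p) (s := s) hw.ne hde r1 n₁₂.map hX₁ hX₂
  have nB : X₂ + X₃ ≠ 0 := by
    rw [← eB]; exact lin_ne (p := p) (s := s) hw.ne hde r2 n₂₃.map hX₂ hX₃
  have nC : X₁ + X₃ ≠ 0 := by
    rw [← eC]; exact lin_ne (p := p) (s := s) hw.ne hde r2 n₁₃.map hX₁ hX₃
  have dA : ∀ P, Prime P → P ∣ X₁ - X₂ → P ∣ w := by
    intro P hP h
    rw [← eA] at h
    exact lin_dvd hs (by norm_num) hde hw r1 h₁.map h₂.map n₁₂.map hX₁ hX₂ hP h
  have dB : ∀ P, Prime P → P ∣ X₂ + X₃ → P ∣ w := by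
    intro P hP h
    rw [← eB] at h
    exact lin_dvd hs (by norm_num) hde hw r2 h₂.map h₃.map n₂₃.map hX₂ hX₃ hP h
  have dC : ∀ P, Prime P → P ∣ X₁ + X₃ → P ∣ w := by
    intro P hP h
    rw [← eC] at h
    exact lin_dvd hs (by norm_num) hde hw r2 h₁.map h₃.map n₁₃.map hX₁ hX₃ hP h
  obtain ⟨G, A1, B1, hG, hA, hB, hcop⟩ := exists_gcd_cop (X₂ + X₃) nA
  have hC : X₁ + X₃ = G * (A1 + B1) := by
    rw [mul_add, ← hA, ← hB]; ring
  have nA1 : A1 ≠ 0 := by rintro rfl; rw [mul_zero] at hA; exact nA hA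
  have nB1 : B1 ≠ 0 := by rintro rfl; rw [mul_zero] at hB; exact nB hB
  have nC1 : A1 + B1 ≠ 0 := by intro h; rw [h, mul_zero] at hC; exact nC hC
  have hR0 : radical (A1 * B1 * (-(A1 + B1))) ≠ 0 := radical_ne_zero
  refine ⟨G, radical (A1 * B1 * (-(A1 + B1))), hG, hR0, ⟨A1, hA⟩, ⟨B1, hB⟩,
    ⟨_, hC⟩, ?_⟩
  have habc := Polynomial.abc nA1 nB1 (neg_ne_zero.mpr nC1) hcop (by ring)
  have hdeg : (A1.natDegree + 1 ≤ (radical (A1 * B1 * (-(A1 + B1)))).natDegree ∧
      B1.natDegree + 1 ≤ (radical (A1 * B1 * (-(A1 + B1)))).natDegree ∧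
      (-(A1 + B1)).natDegree + 1 ≤ (radical (A1 * B1 * (-(A1 + B1)))).natDegree) := by
    rcases habc with h | h
    · exact h
    · exfalso
      obtain ⟨a, ha⟩ := exists_root_of_deriv (p := p) h.1
      obtain ⟨b, hb⟩ := exists_root_of_deriv (p := p) h.2.1
      have hx12 : uni d c z₁ - uni d c z₂ ∈ pthp k p := by
        rw [rel2 (p := p) hq hdq, mem_pthp]
        refine ⟨((z₁ - z₂) * (z₁ + z₂)) ^ (p ^ (s - 1)), ?_⟩
        rw [← pow_mul, ← pow_succ, hq]
        congr 2
        omega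
      have hA' := congrArg (algebraMap k[X] (RatFunc k)) hA
      have hB' := congrArg (algebraMap k[X] (RatFunc k)) hB
      rw [map_sub, hX₁, hX₂, map_mul, ← ha, map_pow, ← mul_sub] at hA'
      rw [map_add, hX₂, hX₃, map_mul, ← hb, map_pow, ← mul_add] at hB'
      have hb0 : algebraMap k[X] (RatFunc k) b ≠ 0 := by
        apply RatFunc.algebraMap_ne_zero
        rintro rfl
        rw [zero_pow (Fact.out : p.Prime).ne_zero] at hb
        exact nB1 hb.symm
      have ha0 : algebraMap k[X] (RatFunc k) a ≠ 0 := by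
        apply RatFunc.algebraMap_ne_zero
        rintro rfl
        rw [zero_pow (Fact.out : p.Prime).ne_zero] at ha
        exact nA1 ha.symm
      have hG' : algebraMap k[X] (RatFunc k) G ≠ 0 := RatFunc.algebraMap_ne_zero hG
      have hsum : uni d c z₂ + uni d c z₃ = (uni d c z₁ - uni d c z₂) *
          (algebraMap k[X] (RatFunc k) b / algebraMap k[X] (RatFunc k) a) ^ p := by
        rw [div_pow]
        have hap : algebraMap k[X] (RatFunc k) a ^ p ≠ 0 := pow_ne_zero _ ha0
        rw [mul_div_assoc', eq_div_iff hap]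
        apply mul_left_cancel₀ (mul_ne_zero W0 hG')
        linear_combination (algebraMap k[X] (RatFunc k) G * algebraMap k[X] (RatFunc k) a ^ p) *
          hB' - (algebraMap k[X] (RatFunc k) G * algebraMap k[X] (RatFunc k) b ^ p) * hA'
      have hmem : uni d c z₂ + uni d c z₃ ∈ pthp k p := by
        rw [hsum]
        exact mul_mem hx12 (mem_pthp.mpr ⟨_, rfl⟩)
      have hzp : ∀ z : RatFunc k, z ^ d ∈ pthp k p := by
        intro z
        rw [mem_pthp]
        refine ⟨z ^ (p ^ (s - 1) * 2), ?_⟩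
        rw [← pow_mul, hdq, hq]
        congr 1
        have : p ^ s = p ^ (s - 1) * p := by
          rw [← pow_succ]; congr 1; omega
        rw [this]; ring
      apply hcp
      have e1 : c = (uni d c z₂ + uni d c z₃ - z₂ ^ d - z₃ ^ d) / 2 := by
        unfold uni
        have h2 := two_ne' (K := RatFunc k) (p := p) hp2
        field_simp
        ring
      rw [e1]
      exact div_mem (sub_mem (sub_mem hmem (hzp _)) (hzp _)) two_mem_pthp
  rw [natDegree_neg] at hdeg
  refine ⟨?_, ?_, ?_, ?_, ?_⟩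
  · rw [hA, natDegree_mul hG nA1]; have := hdeg.1; omega
  · rw [hB, natDegree_mul hG nB1]; have := hdeg.2.1; omega
  · rw [hC, natDegree_mul hG nC1]; have := hdeg.2.2; omega
  · intro v
    exact ell_squarefree v squarefree_radical
  · intro v hv
    refine ell_of_primes v (w := w) hR0 ?_ (hw.le v hv)
    intro P hP hPR
    have h1 : P ∣ A1 * B1 * (-(A1 + B1)) := hPR.trans radical_dvd_self
    rcases hP.dvd_or_dvd h1 with h2 | h2
    · rcases hP.dvd_or_dvd h2 with h3 | h3
      · exact dA P hP (by rw [hA]; exact h3.mul_left _)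
      · exact dB P hP (by rw [hB]; exact h3.mul_left _)
    · rw [dvd_neg] at h2
      exact dC P hP (by rw [hC]; exact h2.mul_left _)

end

end H799Uni
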