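import Pool.Agent.H799R3.UniTwoMason

namespace H799Uni

open Polynomial IsDedekindDomain UniqueFactorizationMonoid

theorem NM.symm {α : Type*} {g : α → α} {x y : α} (h : NM g x y) : NM g y x :=
  fun n => (h n).symm

section

variable {k : Type*} [Field k] {p s q d : ℕ} [Fact p.Prime] [CharP k p]

theorem ell_infty [DecidableEq (RatFunc k)] {P : k[X]} (hP : P ≠ 0) :
    ell (RatFunc.inftyValuation k) (algebraMap k[X] (RatFunc k) P) = P.natDegree := by
  unfold ell
  rw [infty_poly hP, WithZero.log_exp]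

theorem ell_form (V : Valuation (RatFunc k) (WithZero (Multiplicative ℤ))) {w P : k[X]}
    {a : RatFunc k} (hP : P ≠ 0)
    (h : algebraMap k[X] (RatFunc k) P = algebraMap k[X] (RatFunc k) w * a) :
    ell V (algebraMap k[X] (RatFunc k) P) =
      ell V (algebraMap k[X] (RatFunc k) w) + ell V a := by
  have h0 : algebraMap k[X] (RatFunc k) w * a ≠ 0 := by
    rw [← h]; exact RatFunc.algebraMap_ne_zero hP
  rw [h, ell_mul _ (left_ne_zero_of_mul h0) (right_ne_zero_of_mul h0)]

theorem form_ne {w P : k[X]} {a : RatFunc k} (hw : w ≠ 0) (ha : a ≠ 0)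
    (h : algebraMap k[X] (RatFunc k) P = algebraMap k[X] (RatFunc k) w * a) : P ≠ 0 := by
  rintro rfl
  rw [map_zero] at h
  exact mul_ne_zero (RatFunc.algebraMap_ne_zero hw) ha h.symm

theorem ell_good (hs : 1 ≤ s) (hde : d = p ^ s * 2)
    (V : Valuation (RatFunc k) (WithZero (Multiplicative ℤ))) {c x y : RatFunc k}
    (hc : V c ≤ 1) (hx : FinOrb (uni d c) x) (hy : FinOrb (uni d c) y)
    (hnm : NM (uni d c) x y) : ell V (x - y) = 0 := by
  unfold ell
  rw [val_sub_eq_one V hs (by norm_num) hde hc hx hy hnm, WithZero.log_one]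

theorem ell_good' (hs : 1 ≤ s) (hq : q = p ^ s) (hdq : d = q * 2)
    (V : Valuation (RatFunc k) (WithZero (Multiplicative ℤ))) {c x y : RatFunc k}
    (hc : V c ≤ 1) (hx : FinOrb (uni d c) x) (hy : FinOrb (uni d c) y)
    (hnm : NM (uni d c) x y) : ell V (x + y) = 0 := by
  rw [← sub_neg_eq_add]
  exact ell_good hs (by rw [hdq, hq]) V hc hx (fo_neg hdq hy) (nm_neg hdq hnm)

variable [IsAlgClosed k]

theorem no_three (hp2 : p ≠ 2) (hs : 1 ≤ s) (hq : q = p ^ s) (hdq : d = q * 2) (hd : 2 ≤ d)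
    {c : RatFunc k} (hcp : c ∉ pthp k p) {z₁ z₂ z₃ : RatFunc k}
    (h₁ : FinOrb (uni d c) z₁) (h₂ : FinOrb (uni d c) z₂) (h₃ : FinOrb (uni d c) z₃)
    (n₁₂ : NM (uni d c) z₁ z₂) (n₂₃ : NM (uni d c) z₂ z₃) (n₁₃ : NM (uni d c) z₁ z₃) :
    False := by
  classical
  have hde : d = p ^ s * 2 := by rw [hdq, hq]
  have hw := den_denom hd h₁
  generalize z₁.denom = w at hw
  obtain ⟨X₁, hX₁⟩ := hw.mul hd h₁.map
  obtain ⟨X₂, hX₂⟩ := hw.mul hd h₂.map
  obtain ⟨X₃, hX₃⟩ := hw.mul hd h₃.map
  obtain ⟨G3, R3, g30, r30, g3a, g3b, g3c, e3a, e3b, e3c, r3, r3'⟩ :=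
    mason hp2 hs hq hdq hd hcp hw h₁ h₂ h₃ n₁₂ n₂₃ n₁₃ hX₁ hX₂ hX₃
  obtain ⟨G1, R1, g10, r10, g1a, g1b, g1c, e1a, e1b, e1c, r1, r1'⟩ :=
    mason hp2 hs hq hdq hd hcp hw h₂ h₃ h₁ n₂₃ n₁₃.symm n₁₂.symm hX₂ hX₃ hX₁
  obtain ⟨G2, R2, g20, r20, g2a, g2b, g2c, e2a, e2b, e2c, r2, r2'⟩ :=
    mason hp2 hs hq hdq hd hcp hw h₃ h₁ h₂ n₁₃.symm n₁₂ n₂₃.symm hX₃ hX₁ hX₂
  rw [add_comm X₃ X₁] at g1b e1b
  rw [add_comm X₂ X₁] at g1c e1c
  rw [dvd_sub_comm] at g2a
  rw [natDegree_sub] at e2a
  rw [add_comm X₃ X₂] at g2c e2c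
  -- the six linear forms
  have f1 : algebraMap k[X] (RatFunc k) (X₁ - X₂) =
      algebraMap k[X] (RatFunc k) w * (uni d c z₁ - uni d c z₂) := by
    rw [map_sub, hX₁, hX₂]; ring
  have f2 : algebraMap k[X] (RatFunc k) (X₂ - X₃) =
      algebraMap k[X] (RatFunc k) w * (uni d c z₂ - uni d c z₃) := by
    rw [map_sub, hX₂, hX₃]; ring
  have f3 : algebraMap k[X] (RatFunc k) (X₁ - X₃) =
      algebraMap k[X] (RatFunc k) w * (uni d c z₁ - uni d c z₃) := by
    rw [map_sub, hX₁, hX₃]; ring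
  have f4 : algebraMap k[X] (RatFunc k) (X₁ + X₂) =
      algebraMap k[X] (RatFunc k) w * (uni d c z₁ + uni d c z₂) := by
    rw [map_add, hX₁, hX₂]; ring
  have f5 : algebraMap k[X] (RatFunc k) (X₂ + X₃) =
      algebraMap k[X] (RatFunc k) w * (uni d c z₂ + uni d c z₃) := by
    rw [map_add, hX₂, hX₃]; ring
  have f6 : algebraMap k[X] (RatFunc k) (X₁ + X₃) =
      algebraMap k[X] (RatFunc k) w * (uni d c z₁ + uni d c z₃) := by
    rw [map_add, hX₁, hX₃]; ring
  have p1 := form_ne hw.ne (sub_ne_of_nm n₁₂.map) f1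
  have p2 := form_ne hw.ne (sub_ne_of_nm n₂₃.map) f2
  have p3 := form_ne hw.ne (sub_ne_of_nm n₁₃.map) f3
  have p4 := form_ne hw.ne (add_ne_of_nm hdq n₁₂.map) f4
  have p5 := form_ne hw.ne (add_ne_of_nm hdq n₂₃.map) f5
  have p6 := form_ne hw.ne (add_ne_of_nm hdq n₁₃.map) f6
  have W0 : algebraMap k[X] (RatFunc k) w ≠ 0 := RatFunc.algebraMap_ne_zero hw.ne
  -- the product divides `w ^ 3`
  set Q : k[X] := G1 * R1 * (G2 * R2) * (G3 * R3) with hQ
  have hQ0 : Q ≠ 0 := mul_ne_zero (mul_ne_zero (mul_ne_zero g10 r10) (mul_ne_zero g20 r20))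
    (mul_ne_zero g30 r30)
  have ellQ : ∀ V : Valuation (RatFunc k) (WithZero (Multiplicative ℤ)),
      ell V (algebraMap k[X] (RatFunc k) Q) =
        ell V (algebraMap k[X] (RatFunc k) G1) + ell V (algebraMap k[X] (RatFunc k) R1) +
        (ell V (algebraMap k[X] (RatFunc k) G2) + ell V (algebraMap k[X] (RatFunc k) R2)) +
        (ell V (algebraMap k[X] (RatFunc k) G3) + ell V (algebraMap k[X] (RatFunc k) R3)) := by
    intro V
    have a1 := RatFunc.algebraMap_ne_zero g10
    have a2 := RatFunc.algebraMap_ne_zero g20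
    have a3 := RatFunc.algebraMap_ne_zero g30
    have b1 := RatFunc.algebraMap_ne_zero r10
    have b2 := RatFunc.algebraMap_ne_zero r20
    have b3 := RatFunc.algebraMap_ne_zero r30
    rw [hQ]
    simp only [map_mul]
    rw [ell_mul V (mul_ne_zero (mul_ne_zero a1 b1) (mul_ne_zero a2 b2)) (mul_ne_zero a3 b3),
      ell_mul V (mul_ne_zero a1 b1) (mul_ne_zero a2 b2), ell_mul V a1 b1, ell_mul V a2 b2,
      ell_mul V a3 b3]
  have hdvd : ∃ T : k[X], algebraMap k[X] (RatFunc k) T =
      algebraMap k[X] (RatFunc k) w ^ 3 / algebraMap k[X] (RatFunc k) Q := by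
    refine HeightOneSpectrum.mem_integers_of_valuation_le_one (R := k[X]) (RatFunc k) _ ?_
    intro v
    have hQ1 := RatFunc.algebraMap_ne_zero hQ0
    have h0 : algebraMap k[X] (RatFunc k) w ^ 3 / algebraMap k[X] (RatFunc k) Q ≠ 0 :=
      div_ne_zero (pow_ne_zero _ W0) hQ1
    rw [← WithZero.log_le_log ((Valuation.ne_zero_iff _).mpr h0) one_ne_zero, WithZero.log_one,
      map_div₀, WithZero.log_div ((Valuation.ne_zero_iff _).mpr (pow_ne_zero _ W0))
        ((Valuation.ne_zero_iff _).mpr hQ1)]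
    change ell (v.valuation (RatFunc k)) (algebraMap k[X] (RatFunc k) w ^ 3) -
      ell (v.valuation (RatFunc k)) (algebraMap k[X] (RatFunc k) Q) ≤ 0
    rw [ell_pow, ellQ]
    have i1 := ell_form (v.valuation (RatFunc k)) p1 f1
    have i2 := ell_form (v.valuation (RatFunc k)) p2 f2
    have i3 := ell_form (v.valuation (RatFunc k)) p3 f3
    have i4 := ell_form (v.valuation (RatFunc k)) p4 f4
    have i5 := ell_form (v.valuation (RatFunc k)) p5 f5
    have i6 := ell_form (v.valuation (RatFunc k)) p6 f6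
    have j3a := ell_dvd v p1 g3a
    have j3b := ell_dvd v p5 g3b
    have j3c := ell_dvd v p6 g3c
    have j1a := ell_dvd v p2 g1a
    have j1b := ell_dvd v p6 g1b
    have j1c := ell_dvd v p4 g1c
    have j2a := ell_dvd v p3 g2a
    have j2b := ell_dvd v p4 g2b
    have j2c := ell_dvd v p5 g2c
    have k1 := r1 v
    have k2 := r2 v
    have k3 := r3 v
    rcases le_or_gt (v.valuation (RatFunc k) c) 1 with hv | hv
    · have l1 := r1' v hv
      have l2 := r2' v hv
      have l3 := r3' v hv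
      have m1 := ell_good hs hde (v.valuation (RatFunc k)) hv h₁.map h₂.map n₁₂.map
      have m2 := ell_good hs hde (v.valuation (RatFunc k)) hv h₂.map h₃.map n₂₃.map
      have m3 := ell_good hs hde (v.valuation (RatFunc k)) hv h₁.map h₃.map n₁₃.map
      have m0 : ell (v.valuation (RatFunc k)) (algebraMap k[X] (RatFunc k) w) = 0 := by
        unfold ell
        rw [hw.le v hv, WithZero.log_one]
      push_cast
      linarith
    · have hloc := local_bound (v.valuation (RatFunc k)) hp2 hs hq hdq hd hv h₁ h₂ h₃ n₁₂ n₂₃ n₁₃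
      have M1 : max (ell (v.valuation (RatFunc k)) (uni d c z₁ + uni d c z₂))
          (max (ell (v.valuation (RatFunc k)) (uni d c z₂ - uni d c z₃))
          (ell (v.valuation (RatFunc k)) (uni d c z₁ + uni d c z₃))) ≤
          ell (v.valuation (RatFunc k)) (algebraMap k[X] (RatFunc k) G1) -
          ell (v.valuation (RatFunc k)) (algebraMap k[X] (RatFunc k) w) :=
        max_le (by linarith) (max_le (by linarith) (by linarith))
      have M2 : max (ell (v.valuation (RatFunc k)) (uni d c z₁ + uni d c z₂))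
          (max (ell (v.valuation (RatFunc k)) (uni d c z₂ + uni d c z₃))
          (ell (v.valuation (RatFunc k)) (uni d c z₁ - uni d c z₃))) ≤
          ell (v.valuation (RatFunc k)) (algebraMap k[X] (RatFunc k) G2) -
          ell (v.valuation (RatFunc k)) (algebraMap k[X] (RatFunc k) w) :=
        max_le (by linarith) (max_le (by linarith) (by linarith))
      have M3 : max (ell (v.valuation (RatFunc k)) (uni d c z₁ - uni d c z₂))
          (max (ell (v.valuation (RatFunc k)) (uni d c z₂ + uni d c z₃))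
          (ell (v.valuation (RatFunc k)) (uni d c z₁ + uni d c z₃))) ≤
          ell (v.valuation (RatFunc k)) (algebraMap k[X] (RatFunc k) G3) -
          ell (v.valuation (RatFunc k)) (algebraMap k[X] (RatFunc k) w) :=
        max_le (by linarith) (max_le (by linarith) (by linarith))
      push_cast
      linarith
  obtain ⟨T, hT⟩ := hdvd
  have hTQ : w ^ 3 = T * Q := by
    apply RatFunc.algebraMap_injective k
    rw [map_mul, hT, map_pow, div_mul_cancel₀ _ (RatFunc.algebraMap_ne_zero hQ0)]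
  have hdegQ : Q.natDegree ≤ 3 * w.natDegree := by
    rw [← natDegree_pow]
    exact natDegree_le_of_dvd ⟨T, by rw [hTQ, mul_comm]⟩ (pow_ne_zero _ hw.ne)
  have hdegQ' : Q.natDegree = G1.natDegree + R1.natDegree + (G2.natDegree + R2.natDegree) +
      (G3.natDegree + R3.natDegree) := by
    rw [hQ, natDegree_mul (mul_ne_zero (mul_ne_zero g10 r10) (mul_ne_zero g20 r20))
      (mul_ne_zero g30 r30), natDegree_mul (mul_ne_zero g10 r10) (mul_ne_zero g20 r20),
      natDegree_mul g10 r10, natDegree_mul g20 r20, natDegree_mul g30 r30]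
  -- the place at infinity
  have i1 := ell_form (RatFunc.inftyValuation k) p1 f1
  have i2 := ell_form (RatFunc.inftyValuation k) p2 f2
  have i3 := ell_form (RatFunc.inftyValuation k) p3 f3
  have i4 := ell_form (RatFunc.inftyValuation k) p4 f4
  have i5 := ell_form (RatFunc.inftyValuation k) p5 f5
  have i6 := ell_form (RatFunc.inftyValuation k) p6 f6
  rw [ell_infty p1, ell_infty hw.ne] at i1
  rw [ell_infty p2, ell_infty hw.ne] at i2
  rw [ell_infty p3, ell_infty hw.ne] at i3
  rw [ell_infty p4, ell_infty hw.ne] at i4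
  rw [ell_infty p5, ell_infty hw.ne] at i5
  rw [ell_infty p6, ell_infty hw.ne] at i6
  rcases le_or_gt (RatFunc.inftyValuation k c) 1 with hv | hv
  · have m1 := ell_good hs hde (RatFunc.inftyValuation k) hv h₁.map h₂.map n₁₂.map
    have m2 := ell_good hs hde (RatFunc.inftyValuation k) hv h₂.map h₃.map n₂₃.map
    have m3 := ell_good hs hde (RatFunc.inftyValuation k) hv h₁.map h₃.map n₁₃.map
    omega
  · have hloc := local_bound (RatFunc.inftyValuation k) hp2 hs hq hdq hd hv h₁ h₂ h₃ n₁₂ n₂₃ n₁₃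
    have M1 : max (ell (RatFunc.inftyValuation k) (uni d c z₁ + uni d c z₂))
        (max (ell (RatFunc.inftyValuation k) (uni d c z₂ - uni d c z₃))
        (ell (RatFunc.inftyValuation k) (uni d c z₁ + uni d c z₃))) ≤
        (G1.natDegree : ℤ) + R1.natDegree - w.natDegree - 1 :=
      max_le (by omega) (max_le (by omega) (by omega))
    have M2 : max (ell (RatFunc.inftyValuation k) (uni d c z₁ + uni d c z₂))
        (max (ell (RatFunc.inftyValuation k) (uni d c z₂ + uni d c z₃))
        (ell (RatFunc.inftyValuation k) (uni d c z₁ - uni d c z₃))) ≤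
        (G2.natDegree : ℤ) + R2.natDegree - w.natDegree - 1 :=
      max_le (by omega) (max_le (by omega) (by omega))
    have M3 : max (ell (RatFunc.inftyValuation k) (uni d c z₁ - uni d c z₂))
        (max (ell (RatFunc.inftyValuation k) (uni d c z₂ + uni d c z₃))
        (ell (RatFunc.inftyValuation k) (uni d c z₁ + uni d c z₃))) ≤
        (G3.natDegree : ℤ) + R3.natDegree - w.natDegree - 1 :=
      max_le (by omega) (max_le (by omega) (by omega))
    omega

end

end H799Uni
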