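import Pool.Agent.H799R3.UniTwoPer

namespace H799Uni

open Polynomial IsDedekindDomain UniqueFactorizationMonoid

section Per

variable {K L : Type*} [Field K] [Field L] {d : ℕ} {c x y : K}

theorem per_fo (hx : x ∈ Function.periodicPts (uni d c)) : FinOrb (uni d c) x := by
  obtain ⟨n, hn, hp⟩ := hx
  refine ((Set.finite_Iio n).image (fun m => (uni d c)^[m] x)).subset ?_
  rintro _ ⟨m, rfl⟩
  exact ⟨m % n, Nat.mod_lt m hn, hp.iterate_mod_apply m⟩

theorem per_nm (hx : x ∈ Function.periodicPts (uni d c)) (hy : y ∈ Function.periodicPts (uni d c))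
    (hxy : x ≠ y) : NM (uni d c) x y := by
  intro n hn
  have hb := Function.bijOn_periodicPts (uni d c)
  exact hxy ((hb.injOn.iterate hb.mapsTo n) hx hy hn)

theorem per_map (hx : x ∈ Function.periodicPts (uni d c)) :
    uni d c x ∈ Function.periodicPts (uni d c) :=
  (Function.bijOn_periodicPts (uni d c)).mapsTo hx

theorem per_pre (hx : x ∈ Function.periodicPts (uni d c)) :
    ∃ z ∈ Function.periodicPts (uni d c), uni d c z = x :=
  (Function.bijOn_periodicPts (uni d c)).surjOn hx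

theorem per_of_hom (φ : K →+* L) (h : φ x ∈ Function.periodicPts (uni d (φ c))) :
    x ∈ Function.periodicPts (uni d c) := by
  obtain ⟨n, hn, hp⟩ := h
  refine ⟨n, hn, ?_⟩
  have h1 : (uni d (φ c))^[n] (φ x) = φ x := hp
  rw [iter_hom] at h1
  exact φ.injective h1

theorem exists_per_iter (hx : FinOrb (uni d c) x) :
    ∃ n, (uni d c)^[n] x ∈ Function.periodicPts (uni d c) := by
  have hni : ¬ Function.Injective (fun n : ℕ => (uni d c)^[n] x) := by
    intro hinj
    exact Set.infinite_range_of_injective hinj hx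
  unfold Function.Injective at hni
  push Not at hni
  obtain ⟨a, b, hab, hne⟩ := hni
  rcases lt_or_gt_of_ne hne with h | h
  · refine ⟨a, b - a, by omega, ?_⟩
    change (uni d c)^[b - a] ((uni d c)^[a] x) = (uni d c)^[a] x
    rw [← Function.iterate_add_apply, Nat.sub_add_cancel h.le]
    exact hab.symm
  · refine ⟨b, a - b, by omega, ?_⟩
    change (uni d c)^[a - b] ((uni d c)^[b] x) = (uni d c)^[b] x
    rw [← Function.iterate_add_apply, Nat.sub_add_cancel h.le]
    exact hab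

end Per

section

variable {k : Type*} [Field k] {p s q d : ℕ} [Fact p.Prime] [CharP k p]

theorem pow_d_mem (hs : 1 ≤ s) (hq : q = p ^ s) (hdq : d = q * 2) (z : RatFunc k) :
    z ^ d ∈ pthp k p := by
  rw [mem_pthp]
  refine ⟨z ^ (p ^ (s - 1) * 2), ?_⟩
  rw [← pow_mul, hdq, hq]
  congr 1
  have : p ^ s = p ^ (s - 1) * p := by
    rw [← pow_succ]; congr 1; omega
  rw [this]; ring

theorem pow_q_mem (hs : 1 ≤ s) (hq : q = p ^ s) (z : RatFunc k) : z ^ q ∈ pthp k p := by
  rw [mem_pthp]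
  refine ⟨z ^ (p ^ (s - 1)), ?_⟩
  rw [← pow_mul, hq]
  congr 1
  rw [← pow_succ]; congr 1; omega

/-- if `c = c₁ ^ p` then periodic points are `p`-th powers of periodic points for `c₁` -/
theorem per_root (hs : 1 ≤ s) (hq : q = p ^ s) (hdq : d = q * 2) {c₁ x : RatFunc k}
    (hx : x ∈ Function.periodicPts (uni d (c₁ ^ p))) :
    ∃ x₁ ∈ Function.periodicPts (uni d c₁), x₁ ^ p = x := by
  obtain ⟨z, -, hz⟩ := per_pre hx
  have h1 : x ∈ pthp k p := by
    rw [← hz]
    unfold uni
    exact add_mem (pow_d_mem hs hq hdq z) (mem_pthp.mpr ⟨c₁, rfl⟩)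
  obtain ⟨x₁, hx₁⟩ := mem_pthp.mp h1
  refine ⟨x₁, ?_, hx₁⟩
  apply per_of_hom (frobenius (RatFunc k) p)
  rw [frobenius_def, frobenius_def, hx₁]
  exact hx

theorem root_bad (V : Valuation (RatFunc k) (WithZero (Multiplicative ℤ))) {c₁ : RatFunc k}
    (n : ℕ) (hp : 2 ≤ p) (hc : 1 < V (c₁ ^ p)) (hn : ell V (c₁ ^ p) ≤ (n + 1 : ℕ)) :
    1 < V c₁ ∧ ell V c₁ ≤ n := by
  have h1 : 1 < V c₁ := by
    by_contra h
    push Not at h
    rw [map_pow] at hc
    exact absurd (pow_le_one₀ zero_le h) (not_le.mpr hc)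
  refine ⟨h1, ?_⟩
  have hne : V c₁ ≠ 0 := (zero_lt_one.trans h1).ne'
  have h2 : 0 < ell V c₁ := by
    unfold ell
    rw [← WithZero.log_one (M := ℤ)]
    exact (WithZero.log_lt_log one_ne_zero hne).mpr h1
  rw [ell_pow] at hn
  have h3 : (2 : ℤ) ≤ p := by exact_mod_cast hp
  push_cast at hn
  nlinarith

variable [IsAlgClosed k]

/-- at most two periodic points -/
theorem three_periodic (hp2 : p ≠ 2) (hs : 1 ≤ s) (hq : q = p ^ s) (hdq : d = q * 2) (hd : 2 ≤ d)
    (V : Valuation (RatFunc k) (WithZero (Multiplicative ℤ))) :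
    ∀ (n : ℕ) (c : RatFunc k), 1 < V c → ell V c ≤ n → ∀ x y z : RatFunc k,
      x ∈ Function.periodicPts (uni d c) → y ∈ Function.periodicPts (uni d c) →
      z ∈ Function.periodicPts (uni d c) → x ≠ y → y ≠ z → x ≠ z → False := by
  intro n
  induction n with
  | zero =>
    intro c hc hn x y z hx _ _ _ _ _
    have h1 : 0 < ell V c := by
      unfold ell
      rw [← WithZero.log_one (M := ℤ)]
      exact (WithZero.log_lt_log one_ne_zero (zero_lt_one.trans hc).ne').mpr hc
    push_cast at hn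
    omega
  | succ n ih =>
    intro c hc hn x y z hx hy hz hxy hyz hxz
    by_cases hcp : c ∈ pthp k p
    · obtain ⟨c₁, rfl⟩ := mem_pthp.mp hcp
      obtain ⟨g1, g2⟩ := root_bad V n (Fact.out : p.Prime).two_le hc hn
      obtain ⟨x₁, hx₁, rfl⟩ := per_root hs hq hdq hx
      obtain ⟨y₁, hy₁, rfl⟩ := per_root hs hq hdq hy
      obtain ⟨z₁, hz₁, rfl⟩ := per_root hs hq hdq hz
      exact ih c₁ g1 g2 x₁ y₁ z₁ hx₁ hy₁ hz₁ (by rintro rfl; exact hxy rfl)
        (by rintro rfl; exact hyz rfl) (by rintro rfl; exact hxz rfl)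
    · exact no_three hp2 hs hq hdq hd hcp (per_fo hx) (per_fo hy) (per_fo hz)
        (per_nm hx hy hxy) (per_nm hy hz hyz) (per_nm hx hz hxz)

/-- the equation behind tails of length two, when `c` is not a `p`-th power -/
theorem tail_eq (hp2 : p ≠ 2) (hs : 1 ≤ s) (hq : q = p ^ s) (hdq : d = q * 2) (hd : 2 ≤ d)
    {c : RatFunc k} (hcp : c ∉ pthp k p) {x y u : RatFunc k} (hx : FinOrb (uni d c) x)
    (hx0 : x ≠ 0) (hy0 : y ≠ 0)
    (hxy : uni d c x = y) (hu : u ^ 2 = x ^ d - 2 * y) : False := by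
  classical
  have hq3 := q_ge (p := p) hp2 hs hq
  have hde : d = p ^ s * 2 := by rw [hdq, hq]
  have hy : FinOrb (uni d c) y := by rw [← hxy]; exact hx.map
  have hw := den_denom hd hx
  generalize x.denom = w at hw
  obtain ⟨X₁, hX⟩ := hw.mul hd hx
  obtain ⟨Y₁, hY⟩ := hw.mul hd hy
  have W0 : algebraMap k[X] (RatFunc k) w ≠ 0 := RatFunc.algebraMap_ne_zero hw.ne
  have hX0 : X₁ ≠ 0 := form_ne hw.ne hx0 hX
  have hY0 : Y₁ ≠ 0 := form_ne hw.ne hy0 hY
  have hk2 : (2 : k) ≠ 0 := two_ne' (K := k) (p := p) hp2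
  have hK2 : (2 : RatFunc k) ≠ 0 := two_ne' (K := RatFunc k) (p := p) hp2
  have u2 : IsUnit (C (2 : k)) := Polynomial.isUnit_C.mpr hk2.isUnit
  have hC2 : algebraMap k[X] (RatFunc k) (C 2) = 2 := by
    rw [RatFunc.algebraMap_C]; exact map_ofNat _ 2
  have hpow : (algebraMap k[X] (RatFunc k) w ^ q * u) ^ 2 =
      algebraMap k[X] (RatFunc k) (X₁ ^ (2 * q) - C 2 * w ^ (2 * q - 1) * Y₁) := by
    simp only [map_sub, map_mul, map_pow]
    rw [hX, hY, hC2]
    generalize algebraMap k[X] (RatFunc k) w = W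
    have e1 : 2 * q = (2 * q - 1) + 1 := by omega
    have e2 : (W ^ q * u) ^ 2 = W ^ (2 * q) * u ^ 2 := by ring
    rw [e2, hu, hdq]
    have e3 : W ^ (2 * q) = W ^ (2 * q - 1) * W := by
      conv_lhs => rw [e1, pow_succ]
    have e4 : (W * x) ^ (2 * q) = W ^ (2 * q) * x ^ (q * 2) := by rw [mul_pow, mul_comm q 2]
    rw [e4, mul_sub]
    conv_lhs => rw [e3]
    conv_rhs => rw [e3]
    ring
  obtain ⟨U, hU⟩ := poly_of_pow (by norm_num : 0 < 2) hpow
  -- the two factors
  have hPQ : (U - X₁ ^ q) * (U + X₁ ^ q) = -(C 2 * w ^ (2 * q - 1) * Y₁) := by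
    have h1 : U ^ 2 = X₁ ^ (2 * q) - C 2 * w ^ (2 * q - 1) * Y₁ := by
      apply RatFunc.algebraMap_injective k
      rw [map_pow, hU, hpow]
    have h2 : (U - X₁ ^ q) * (U + X₁ ^ q) = U ^ 2 - X₁ ^ (2 * q) := by ring
    rw [h2, h1]; ring
  have hPQ0 : (U - X₁ ^ q) * (U + X₁ ^ q) ≠ 0 := by
    rw [hPQ]
    exact neg_ne_zero.mpr (mul_ne_zero (mul_ne_zero u2.ne_zero (pow_ne_zero _ hw.ne)) hY0)
  have hP0 := left_ne_zero_of_mul hPQ0
  have hQ0 := right_ne_zero_of_mul hPQ0
  obtain ⟨G, P1, Q1, hG, hP, hQ, hcop⟩ := exists_gcd_cop (U + X₁ ^ q) hP0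
  have nP1 : P1 ≠ 0 := by rintro rfl; rw [mul_zero] at hP; exact hP0 hP
  have nQ1 : Q1 ≠ 0 := by rintro rfl; rw [mul_zero] at hQ; exact hQ0 hQ
  have hR : C 2 * X₁ ^ q = G * (Q1 - P1) := by
    rw [mul_sub, ← hP, ← hQ]
    have : (C (2 : k) : k[X]) = 2 := map_ofNat C 2
    rw [this]; ring
  have hR0 : Q1 - P1 ≠ 0 := by
    intro h
    rw [h, mul_zero] at hR
    exact mul_ne_zero u2.ne_zero (pow_ne_zero _ hX0) hR
  have habc := Polynomial.abc nP1 (neg_ne_zero.mpr nQ1) hR0 hcop.neg_right (by ring)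
  rcases habc with h | h
  · -- primes
    have hGX : ∀ T, Prime T → T ∣ G → T ∣ X₁ := by
      intro T hT h1
      have h2 : T ∣ C 2 * X₁ ^ q := by rw [hR]; exact h1.mul_right _
      exact hT.dvd_of_dvd_pow ((u2.dvd_mul_left).mp h2)
    have hGw : IsCoprime G w := by
      apply isCoprime_of_prime_dvd
      · rintro ⟨h1, -⟩; exact hG h1
      · intro T hT h1 h2
        exact num_cop hs (by norm_num : 1 ≤ 2) hde hw hx hX hT h2 (hGX T hT h1)
    have hG2 : G ^ 2 * (P1 * Q1) = w ^ (2 * q - 1) * (-(C 2 * Y₁)) := by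
      have : G ^ 2 * (P1 * Q1) = (G * P1) * (G * Q1) := by ring
      rw [this, ← hP, ← hQ, hPQ]; ring
    have hdvd : G ^ 2 ∣ Y₁ := by
      have h1 : G ^ 2 ∣ w ^ (2 * q - 1) * (-(C 2 * Y₁)) := ⟨_, hG2.symm⟩
      have h2 : G ^ 2 ∣ -(C 2 * Y₁) := (hGw.pow (m := 2) (n := 2 * q - 1)).dvd_of_dvd_mul_left h1
      rw [dvd_neg] at h2
      exact (u2.dvd_mul_left).mp h2
    obtain ⟨Y2, hY2⟩ := hdvd
    have hY20 : Y2 ≠ 0 := by rintro rfl; rw [mul_zero] at hY2; exact hY0 hY2
    have hPQ1 : P1 * Q1 = w ^ (2 * q - 1) * (-(C 2 * Y2)) := by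
      apply mul_left_cancel₀ (pow_ne_zero 2 hG)
      rw [hG2]
      conv_lhs => rw [hY2]
      ring
    have hrad : radical (P1 * (-Q1) * (Q1 - P1)) ∣ w * Y2 * X₁ := by
      have hne : w * Y2 * X₁ ≠ 0 := mul_ne_zero (mul_ne_zero hw.ne hY20) hX0
      rw [radical_dvd_iff_primeFactors_subset hne]
      intro T hT
      rw [mem_primeFactors] at hT ⊢
      have hTp := prime_of_normalized_factor T hT
      have hTd := dvd_of_mem_normalizedFactors hT
      have hTw : T ∣ w * Y2 * X₁ := by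
        rcases hTp.dvd_or_dvd hTd with h1 | h1
        · have h2 : T ∣ P1 * Q1 := by
            rw [mul_neg, dvd_neg] at h1; exact h1
          rw [hPQ1] at h2
          rcases hTp.dvd_or_dvd h2 with h3 | h3
          · exact ((hTp.dvd_of_dvd_pow h3).mul_right _).mul_right _
          · rw [dvd_neg] at h3
            exact (((u2.dvd_mul_left).mp h3).mul_left _).mul_right _
        · have h2 : T ∣ C 2 * X₁ ^ q := by rw [hR]; exact h1.mul_left _
          exact (hTp.dvd_of_dvd_pow ((u2.dvd_mul_left).mp h2)).mul_left _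
      rw [mem_normalizedFactors_iff' hne]
      exact ⟨hTp.irreducible, normalize_normalized_factor T hT, hTw⟩
    have hdegr := natDegree_le_of_dvd hrad (mul_ne_zero (mul_ne_zero hw.ne hY20) hX0)
    rw [natDegree_mul (mul_ne_zero hw.ne hY20) hX0, natDegree_mul hw.ne hY20] at hdegr
    obtain ⟨d1, d2, d3⟩ := h
    rw [natDegree_neg] at d2
    have dP : (U - X₁ ^ q).natDegree = G.natDegree + P1.natDegree := by
      rw [hP, natDegree_mul hG nP1]
    have dQ : (U + X₁ ^ q).natDegree = G.natDegree + Q1.natDegree := by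
      rw [hQ, natDegree_mul hG nQ1]
    have dR : q * X₁.natDegree = G.natDegree + (Q1 - P1).natDegree := by
      rw [← natDegree_mul hG hR0, ← hR, natDegree_C_mul hk2, natDegree_pow]
    have dY : Y₁.natDegree = 2 * G.natDegree + Y2.natDegree := by
      conv_lhs => rw [hY2]
      rw [natDegree_mul (pow_ne_zero 2 hG) hY20, natDegree_pow]
    have dPQ : (U - X₁ ^ q).natDegree + (U + X₁ ^ q).natDegree =
        (2 * q - 1) * w.natDegree + Y₁.natDegree := by
      rw [← natDegree_mul hP0 hQ0, hPQ, natDegree_neg,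
        natDegree_mul (mul_ne_zero u2.ne_zero (pow_ne_zero _ hw.ne)) hY0,
        natDegree_C_mul hk2, natDegree_pow]
    -- the place at infinity
    have i1 := ell_form (RatFunc.inftyValuation k) hX0 hX
    have i2 := ell_form (RatFunc.inftyValuation k) hY0 hY
    rw [ell_infty hX0, ell_infty hw.ne] at i1
    rw [ell_infty hY0, ell_infty hw.ne] at i2
    rcases le_or_gt (RatFunc.inftyValuation k c) 1 with hv | hv
    · have j1 : ell (RatFunc.inftyValuation k) x ≤ 0 := by
        unfold ell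
        rw [← WithZero.log_one (M := ℤ)]
        exact (WithZero.log_le_log ((Valuation.ne_zero_iff _).mpr hx0) one_ne_zero).mpr
          (val_le _ hd hv hx)
      have j2 : ell (RatFunc.inftyValuation k) y ≤ 0 := by
        unfold ell
        rw [← WithZero.log_one (M := ℤ)]
        exact (WithZero.log_le_log ((Valuation.ne_zero_iff _).mpr hy0) one_ne_zero).mpr
          (val_le _ hd hv hy)
      have k1 : X₁.natDegree ≤ w.natDegree := by omega
      have k2 : Y₁.natDegree ≤ w.natDegree := by omega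
      have k3 : 5 * w.natDegree ≤ (2 * q - 1) * w.natDegree :=
        Nat.mul_le_mul_right _ (by omega)
      omega
    · have j1 := ell_pos (RatFunc.inftyValuation k) hd hv hx
      have j2 := ell_eq (RatFunc.inftyValuation k) hd hv hx hy
      have k1 : X₁.natDegree = Y₁.natDegree := by omega
      have k2 : w.natDegree < X₁.natDegree := by omega
      have k3 : 3 * X₁.natDegree ≤ q * X₁.natDegree := Nat.mul_le_mul_right _ hq3
      omega
  · -- the degenerate case
    obtain ⟨a, ha⟩ := exists_root_of_deriv (p := p) h.1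
    have hQd : derivative Q1 = 0 := by
      have := h.2.1
      rwa [derivative_neg, neg_eq_zero] at this
    obtain ⟨b, hb⟩ := exists_root_of_deriv (p := p) hQd
    have hb0 : algebraMap k[X] (RatFunc k) b ≠ 0 := by
      apply RatFunc.algebraMap_ne_zero
      rintro rfl
      rw [zero_pow (Fact.out : p.Prime).ne_zero] at hb
      exact nQ1 hb.symm
    have hG' : algebraMap k[X] (RatFunc k) G ≠ 0 := RatFunc.algebraMap_ne_zero hG
    have hP' := congrArg (algebraMap k[X] (RatFunc k)) hP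
    have hQ' := congrArg (algebraMap k[X] (RatFunc k)) hQ
    have hR' := congrArg (algebraMap k[X] (RatFunc k)) hR
    have hR1 : algebraMap k[X] (RatFunc k) (Q1 - P1) ≠ 0 := RatFunc.algebraMap_ne_zero hR0
    have mP : algebraMap k[X] (RatFunc k) P1 ∈ pthp k p := by
      rw [← ha, map_pow]; exact mem_pthp.mpr ⟨_, rfl⟩
    have mQ : algebraMap k[X] (RatFunc k) Q1 ∈ pthp k p := by
      rw [← hb, map_pow]; exact mem_pthp.mpr ⟨_, rfl⟩
    simp only [map_sub, map_add, map_mul, map_pow] at hP' hQ' hR' hR1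
    rw [hU, hX] at hP' hQ'
    rw [hX, hC2] at hR'
    set PP := algebraMap k[X] (RatFunc k) P1 with hPP
    set QQ := algebraMap k[X] (RatFunc k) Q1 with hQQ
    set GG := algebraMap k[X] (RatFunc k) G with hGG
    set W := algebraMap k[X] (RatFunc k) w with hWW
    -- `u (Q - P) = x ^ q (Q + P)`
    have hrel : u * (QQ - PP) = x ^ q * (QQ + PP) := by
      apply mul_left_cancel₀ (mul_ne_zero hG' (pow_ne_zero q W0))
      have e1 : (W * x) ^ q = W ^ q * x ^ q := mul_pow _ _ _
      rw [e1] at hP' hQ' hR'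
      linear_combination (-(u * W ^ q) + x ^ q * W ^ q) * hQ' +
        (u * W ^ q + x ^ q * W ^ q) * hP'
    have humem : u ∈ pthp k p := by
      have : u = x ^ q * (QQ + PP) / (QQ - PP) := by
        rw [eq_div_iff hR1]; exact hrel
      rw [this]
      exact div_mem (mul_mem (pow_q_mem hs hq x) (add_mem mQ mP)) (sub_mem mQ mP)
    apply hcp
    have hc : c = (x ^ d - u ^ 2) / 2 - x ^ d := by
      rw [hu]
      unfold uni at hxy
      field_simp
      linear_combination 2 * hxy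
    rw [hc]
    exact sub_mem (div_mem (sub_mem (pow_d_mem hs hq hdq x) (pow_mem humem 2)) two_mem_pthp)
      (pow_d_mem hs hq hdq x)

end

end H799Uni
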