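import Mathlib

namespace H799Uni

open Polynomial

/-- The forward orbit of `x` under `g` is finite. -/
def FinOrb {α : Type*} (g : α → α) (x : α) : Prop :=
  (Set.range fun n : ℕ => g^[n] x).Finite

/-- The two forward orbits never meet at the same time. -/
def NM {α : Type*} (g : α → α) (x y : α) : Prop := ∀ n : ℕ, g^[n] x ≠ g^[n] y

/-- The unicritical map. -/
def uni {K : Type*} [Field K] (d : ℕ) (c : K) : K → K := fun z => z ^ d + c

theorem FinOrb.iter {α : Type*} {g : α → α} {x : α} (h : FinOrb g x) (m : ℕ) :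
    FinOrb g (g^[m] x) := by
  refine h.subset ?_
  rintro _ ⟨n, rfl⟩
  exact ⟨n + m, by simp [Function.iterate_add_apply]⟩

theorem FinOrb.map {α : Type*} {g : α → α} {x : α} (h : FinOrb g x) : FinOrb g (g x) :=
  h.iter 1

theorem NM.map {α : Type*} {g : α → α} {x y : α} (h : NM g x y) : NM g (g x) (g y) := by
  intro n
  have := h (n + 1)
  simpa [Function.iterate_succ_apply] using this

theorem FinOrb.not_strictMono {α Γ : Type*} [LinearOrder Γ] {g : α → α} {x y : α}
    (hx : FinOrb g x) (hy : FinOrb g y) (φ : α → α → Γ) :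
    ¬ StrictMono (fun n : ℕ => φ (g^[n] x) (g^[n] y)) := by
  intro hs
  have hinf := Set.infinite_range_of_injective hs.injective
  apply hinf
  have h2 : ((fun p : α × α => φ p.1 p.2) ''
      ((Set.range fun n : ℕ => g^[n] x) ×ˢ (Set.range fun n : ℕ => g^[n] y))).Finite :=
    (hx.prod hy).image _
  refine h2.subset ?_
  rintro _ ⟨n, rfl⟩
  exact ⟨(g^[n] x, g^[n] y), ⟨⟨n, rfl⟩, ⟨n, rfl⟩⟩, rfl⟩

theorem FinOrb.not_strictAnti {α Γ : Type*} [LinearOrder Γ] {g : α → α} {x y : α}
    (hx : FinOrb g x) (hy : FinOrb g y) (φ : α → α → Γ) :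
    ¬ StrictAnti (fun n : ℕ => φ (g^[n] x) (g^[n] y)) := by
  intro hs
  exact hx.not_strictMono hy (fun a b => OrderDual.toDual (φ a b)) (fun a b hab => hs hab)

section Val

variable {K Γ : Type*} [Field K] [LinearOrderedCommGroupWithZero Γ] (v : Valuation K Γ)
  {d : ℕ} {c x y : K}

theorem escape (hd : 2 ≤ d) (h1 : 1 < v x) (h2 : v c < v x ^ d) : ¬ FinOrb (uni d c) x := by
  intro hx
  have key : ∀ z : K, 1 < v z → v c < v z ^ d → v (uni d c z) = v z ^ d := by
    intro z _ hz2
    have : v c < v (z ^ d) := by rwa [map_pow]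
    unfold uni
    rw [Valuation.map_add_eq_of_lt_left v this, map_pow]
  have main : ∀ n : ℕ, 1 < v ((uni d c)^[n] x) ∧ v c < v ((uni d c)^[n] x) ^ d := by
    intro n
    induction n with
    | zero => exact ⟨h1, h2⟩
    | succ n ih =>
      obtain ⟨i1, i2⟩ := ih
      rw [Function.iterate_succ_apply']
      rw [key _ i1 i2]
      have hlt : 1 < v ((uni d c)^[n] x) ^ d := one_lt_pow₀ i1 (by omega)
      refine ⟨hlt, i2.trans ?_⟩
      have := pow_lt_pow_right₀ hlt (show 1 < d by omega)
      simpa using this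
  apply hx.not_strictMono hx (fun a _ => v a)
  apply strictMono_nat_of_lt_succ
  intro n
  obtain ⟨i1, i2⟩ := main n
  simp only [Function.iterate_succ_apply']
  rw [key _ i1 i2]
  have := pow_lt_pow_right₀ i1 (show 1 < d by omega)
  simpa using this

theorem val_le (hd : 2 ≤ d) (hc : v c ≤ 1) (hx : FinOrb (uni d c) x) : v x ≤ 1 := by
  by_contra h
  push Not at h
  exact escape v hd h (hc.trans_lt (one_lt_pow₀ h (by omega))) hx

theorem val_eq (hd : 2 ≤ d) (hc : 1 < v c) (hx : FinOrb (uni d c) x) : v x ^ d = v c := by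
  rcases lt_trichotomy (v x ^ d) (v c) with h | h | h
  · exfalso
    have h1 : v (uni d c x) = v c := by
      unfold uni
      have : v (x ^ d) < v c := by rwa [map_pow]
      rw [Valuation.map_add_eq_of_lt_right v this]
    refine escape v hd (x := uni d c x) ?_ ?_ hx.map
    · rwa [h1]
    · rw [h1]
      have := pow_lt_pow_right₀ hc (show 1 < d by omega)
      simpa using this
  · exact h
  · exfalso
    refine escape v hd ?_ h hx
    by_contra h1
    push Not at h1
    have : v x ^ d ≤ 1 := pow_le_one₀ (zero_le) h1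
    exact absurd (h.trans_le this) (not_lt.mpr hc.le)

theorem val_eq_val (hd : 2 ≤ d) (hc : 1 < v c) (hx : FinOrb (uni d c) x)
    (hy : FinOrb (uni d c) y) : v x = v y := by
  have h1 := val_eq v hd hc hx
  have h2 := val_eq v hd hc hy
  exact (pow_left_inj₀ zero_le zero_le (by omega)).mp (h1.trans h2.symm)

theorem one_lt_val (hd : 2 ≤ d) (hc : 1 < v c) (hx : FinOrb (uni d c) x) : 1 < v x := by
  have h1 := val_eq v hd hc hx
  by_contra h
  push Not at h
  have : v x ^ d ≤ 1 := pow_le_one₀ zero_le h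
  rw [h1] at this
  exact absurd hc (not_lt.mpr this)

/-- `v (x^e - y^e) ≤ v (x - y)` for integral elements. -/
theorem val_sub_pow (e : ℕ) (hx : v x ≤ 1) (hy : v y ≤ 1) : v (x ^ e - y ^ e) ≤ v (x - y) := by
  have h := sub_dvd_pow_sub_pow (⟨x, hx⟩ : v.integer) ⟨y, hy⟩ e
  obtain ⟨z, hz⟩ := h
  have hz' : x ^ e - y ^ e = (x - y) * z.1 := by
    have := congrArg (fun t : v.integer => (t : K)) hz
    simpa using this
  rw [hz', map_mul]
  exact mul_le_of_le_one_right' z.2

theorem val_sub_eq_one {p s e : ℕ} [Fact p.Prime] [CharP K p] (hs : 1 ≤ s) (he : 1 ≤ e)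
    (hde : d = p ^ s * e) (hc : v c ≤ 1) (hx : FinOrb (uni d c) x) (hy : FinOrb (uni d c) y)
    (hnm : NM (uni d c) x y) : v (x - y) = 1 := by
  have hp := (Fact.out : p.Prime).two_le
  have hq : 2 ≤ p ^ s := by
    calc 2 ≤ p := hp
      _ = p ^ 1 := (pow_one p).symm
      _ ≤ p ^ s := Nat.pow_le_pow_right (by omega) hs
  have hd : 2 ≤ d := by
    rw [hde]
    calc 2 ≤ p ^ s := hq
      _ ≤ p ^ s * e := Nat.le_mul_of_pos_right _ he
  have hlex : ∀ n, v ((uni d c)^[n] x) ≤ 1 := fun n => val_le v hd hc (hx.iter n)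
  have hley : ∀ n, v ((uni d c)^[n] y) ≤ 1 := fun n => val_le v hd hc (hy.iter n)
  have step : ∀ a b : K, v a ≤ 1 → v b ≤ 1 → v (uni d c a - uni d c b) ≤ v (a - b) ^ (p ^ s) := by
    intro a b ha hb
    have h1 : uni d c a - uni d c b = (a ^ e - b ^ e) ^ (p ^ s) := by
      unfold uni
      rw [hde, sub_pow_char_pow, ← pow_mul, ← pow_mul, mul_comm e]
      ring
    rw [h1, map_pow]
    exact pow_le_pow_left₀ zero_le (val_sub_pow v e ha hb) _
  by_contra hne
  have hle : v (x - y) ≤ 1 := (v.map_sub_le (hlex 0) (hley 0))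
  have hlt : v (x - y) < 1 := lt_of_le_of_ne hle hne
  have hpos : ∀ n, 0 < v ((uni d c)^[n] x - (uni d c)^[n] y) := by
    intro n
    rw [Valuation.pos_iff]
    exact sub_ne_zero.mpr (hnm n)
  have hlt1 : ∀ n, v ((uni d c)^[n] x - (uni d c)^[n] y) < 1 := by
    intro n
    induction n with
    | zero => exact hlt
    | succ n ih =>
      rw [Function.iterate_succ_apply', Function.iterate_succ_apply']
      refine (step _ _ (hlex n) (hley n)).trans_lt ?_
      exact pow_lt_one₀ zero_le ih (by omega)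
  apply hx.not_strictAnti hy (fun a b => v (a - b))
  apply strictAnti_nat_of_succ_lt
  intro n
  simp only [Function.iterate_succ_apply']
  refine (step _ _ (hlex n) (hley n)).trans_lt ?_
  have := pow_lt_pow_right_of_lt_one₀ (hpos n) (hlt1 n) (show 1 < p ^ s by omega)
  simpa using this

end Val

end H799Uni
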